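import Pool.Agent.MP_b64966_al.SBase

-- part MP_b64966_al.SMu
section

namespace Pool.Agent.MP_b64966_al

open Module
open scoped commutatorElement

theorem smu_a (q : ℕ) (hq : 11 ≤ q) : (5 * q + 4) * (5 * q + 4) ≤ 2 * 2 ^ q := by
  induction q, hq using Nat.le_induction with
  | base => norm_num
  | succ q hq ih =>
    rw [pow_succ]
    nlinarith

theorem smu_b (q : ℕ) (hq : 13 ≤ q) : (9 * q) * (9 * q) ≤ 2 * 2 ^ q := by
  induction q, hq using Nat.le_induction with
  | base => norm_num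
  | succ q hq ih =>
    rw [pow_succ]
    nlinarith

theorem smu_c' : (List.range 13).all (fun k => (List.range 117).all fun n =>
    decide (9 * k ≤ n) || decide (n < 55) || decide (n < 5 * k) ||
    decide (n * (n - 1) ≤ 2 * 2 ^ k) ||
    decide (n * (n - 1) ≤ 2 * ((n - 4 * k).descFactorial k / k.factorial))) = true := by
  decide +kernel

theorem smu_c : ∀ k < 13, ∀ n < 117, n < 9 * k → 55 ≤ n → 5 * k ≤ n →
    n * (n - 1) ≤ 2 * 2 ^ k ∨
      n * (n - 1) ≤ 2 * ((n - 4 * k).descFactorial k / k.factorial) := by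
  intro k hk n hn h1 h2 h3
  have h := smu_c'
  simp only [List.all_eq_true, List.mem_range, Bool.or_eq_true, decide_eq_true_eq] at h
  have := h k hk n hn
  omega

theorem smu_main (n k d : ℕ) (hn : 55 ≤ n) (hk : 3 ≤ k) (h1 : (n - 4 * k).choose k ≤ d)
    (h2 : ∀ k' ≤ k, 5 * k' ≤ n → 2 ^ k' ≤ d) : n * (n - 1) ≤ 2 * d := by
  by_cases h5 : n < 5 * k
  · have h3 := h2 (n / 5) (by omega) (by omega)
    have h4 := smu_a (n / 5) (by omega)
    have h6 : n * (n - 1) ≤ (5 * (n / 5) + 4) * (5 * (n / 5) + 4) :=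
      Nat.mul_le_mul (by omega) (by omega)
    omega
  by_cases h9 : 9 * k ≤ n
  · have h3 := choose_mono_half (n - 4 * k) 3 k (by omega) (by omega)
    have h4 : 6 * (n - 4 * k).choose 3 = (n - 4 * k).descFactorial 3 := by
      rw [Nat.descFactorial_eq_factorial_mul_choose]
      rfl
    obtain ⟨N, hN⟩ : ∃ N, n - 4 * k = N + 30 := ⟨n - 4 * k - 30, by omega⟩
    rw [hN] at h1 h3 h4
    have h6 : (N + 30).descFactorial 3 = (N + 28) * ((N + 29) * (N + 30)) := by
      simp [Nat.descFactorial]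
    have h7 : n * (n - 1) ≤ (2 * N + 60) * (2 * N + 60) :=
      Nat.mul_le_mul (by omega) (by omega)
    have h8 : 3 * ((2 * N + 60) * (2 * N + 60)) ≤ (N + 28) * ((N + 29) * (N + 30)) := by
      nlinarith [Nat.zero_le (N * N * N), Nat.zero_le (N * N)]
    omega
  by_cases h13 : 13 ≤ k
  · have h3 := h2 k le_rfl (by omega)
    have h4 := smu_b k h13
    have h6 : n * (n - 1) ≤ (9 * k) * (9 * k) := Nat.mul_le_mul (by omega) (by omega)
    omega
  · have h3 := h2 k le_rfl (by omega)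
    rw [Nat.choose_eq_descFactorial_div_factorial] at h1
    rcases smu_c k (by omega) n (by omega) (by omega) hn (by omega) with h4 | h4 <;> omega

variable {K V : Type*} [Field K] [AddCommGroup V] [Module K V] [FiniteDimensional K V]
  {m : ℕ} {t : ℕ → (End K V)ˣ}

theorem IsBraid.P3_zero [IsAlgClosed K] (h : IsBraid m t) (hm : 54 ≤ m)
    (hd : 2 * finrank K V + 2 ≤ (m + 1) * m) : P t 3 = 0 := by
  classical
  by_contra h3
  obtain ⟨k, hk⟩ : ∃ k, k = Nat.findGreatest (fun k => P t k ≠ 0) ((m + 1) / 3) := ⟨_, rfl⟩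
  have hk3 : 3 ≤ k := hk ▸ Nat.le_findGreatest (by omega) h3
  have hk0 : P t k ≠ 0 :=
    hk ▸ Nat.findGreatest_spec (P := fun k => P t k ≠ 0) (m := 3) (by omega) h3
  have key := smu_main (m + 1) k (finrank K V) (by omega) hk3 (h.choose_le hk0 (by
    intro l hf hr hl
    have h4 := h.length_le hf hr
    rw [h.M_eq_zero_iff hf hr, hl]
    have := Nat.findGreatest_is_greatest (P := fun k => P t k ≠ 0) (n := (m + 1) / 3)
      (k := k + 1) (by omega) (by omega)
    simpa using this)) fun k' hk' h5 => h.pow_le h5 (P_ne_zero_of_le hk' hk0)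
  rw [Nat.add_sub_cancel] at key
  omega

theorem smu_scalar {f g : End K V} (hc : Commute f g) (hg : finrank K (LinearMap.range g) ≤ 1) :
    ∃ μ : K, g * (f - μ • 1) = 0 := by
  obtain ⟨v, hv⟩ := finrank_le_one_iff.1 hg
  obtain ⟨u, hu⟩ := v.2
  obtain ⟨μ, hμ⟩ := hv ⟨g (f u), f u, rfl⟩
  have h1 : μ • (v : V) = f v := by
    rw [← hu, ← Module.End.mul_apply, hc.eq, Module.End.mul_apply, hu]
    exact congrArg Subtype.val hμ
  refine ⟨μ, LinearMap.ext fun x => ?_⟩
  obtain ⟨c, hx⟩ := hv ⟨g x, x, rfl⟩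
  have h2 : c • (v : V) = g x := congrArg Subtype.val hx
  rw [mul_sub, ← hc.eq, mul_smul_comm, mul_one, LinearMap.sub_apply, Module.End.mul_apply,
    LinearMap.smul_apply, ← h2, map_smul, ← h1, smul_comm, sub_self, LinearMap.zero_apply]

theorem IsBraid.exists_mu [IsAlgClosed K] (h : IsBraid m t) (hm : 54 ≤ m)
    (hd : 2 * finrank K V + 2 ≤ (m + 1) * m) (h2 : P t 2 ≠ 0) :
    ∃ μ : K, μ ≠ 0 ∧ P t 2 * ((t (m - 1) : End K V) - μ • 1) = 0 := by
  by_cases hex : ∃ i j, i < j ∧ j < m - 9 ∧ finrank K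
      (LinearMap.range (M t ([i, j + 4].map (· + 2)) * M t [i, j + 4] : End K V)) ≤ 1
  · obtain ⟨i, j, hij, hj, hr⟩ := hex
    have hc : ∀ l : List ℕ, (∀ a ∈ l, a + 4 ≤ m) → Commute (t (m - 1) : End K V) (M t l) :=
      fun l hl => commute_M fun a ha => by
        have := hl a ha
        exact h.commute_tD (by omega) (by omega) (by omega)
    obtain ⟨μ, hμ⟩ := smu_scalar ((hc _ (by simp; omega)).mul_right (hc _ (by simp; omega))) hr
    have hx : ∀ a < m - 2, Commute (t a : End K V) ((t (m - 1) : End K V) - μ • 1) :=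
      fun a ha => (h.val.commute (by omega) (by omega) (by omega)).sub_right
        ((Commute.one_right _).smul_right μ)
    have h3 := h.test_ne_zero [i, j + 4] _ (by simp [Far5]; omega) (by simp; omega)
      (fun a ha b _ hb => hx b (by simp at ha; omega)) hμ
    have h4 := (h.trans_aux 2 [i, j + 4] (m - 2) _ rfl (by omega) (by simp [Far]; omega)
      (by simp; omega) hx).2.1 h3
    refine ⟨μ, ?_, h4⟩
    rintro rfl
    rw [zero_smul, sub_zero, Units.mul_left_eq_zero] at h4
    exact h2 h4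
  · exfalso
    push Not at hex
    have h3 := h.P3_zero hm hd
    have key := double_count (K := K) (V := V) (m - 9) (fun i j => M t [i, j + 4])
      (fun i j => M t ([i, j + 4].map (· + 2))) (fun i j hij hj => hex i j hij hj) (by
        intro i j i' j' hij hj hij' hj' h0
        have h4 := h.near_of_test (k := 2) (fun l hf hr hl => by
            rw [h.M_eq_zero_iff hf hr, hl]; exact h3)
          (f := ![i, j + 4]) (g := ![i', j' + 4]) (by simp [Fin.forall_fin_two]; omega)
          (by simp [Fin.forall_fin_two]; omega) (by simp [Fin.forall_fin_two]; omega)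
          (by simp [Fin.forall_fin_two]; omega) h0
        simp only [Fin.forall_fin_two, Fin.exists_fin_two, Matrix.cons_val_zero,
          Matrix.cons_val_one] at h4
        omega)
    obtain ⟨r, rfl⟩ : ∃ r, m = r + 54 := ⟨m - 54, by omega⟩
    rw [show r + 54 - 9 = r + 45 by omega, show r + 45 - 1 = r + 44 by omega] at key
    nlinarith

end Pool.Agent.MP_b64966_al

end

-- part MP_b64966_al.SCube
section

namespace Pool.Agent.MP_b64966_al

open Module
open scoped commutatorElement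

/-- Three commuting positions. -/
structure scube_M3 (m a b c : ℕ) : Prop where
  ha : a < m
  hb : b < m
  hc : c < m
  ab : Fa a b
  ac : Fa a c
  bc : Fa b c

/-- Four commuting positions. -/
structure scube_M4 (m a b c d : ℕ) : Prop extends scube_M3 m a b c where
  hd : d < m
  ad : Fa a d
  bd : Fa b d
  cd : Fa c d

theorem scube_fa {m : ℕ} (hm : 54 ≤ m) (a b c d e f g : ℕ) :
    ∃ z < m, Fa z a ∧ Fa z b ∧ Fa z c ∧ Fa z d ∧ Fa z e ∧ Fa z f ∧ Fa z g := by
  obtain ⟨z, hz, h⟩ := exists_fa (m := m) [a, b, c, d, e, f, g] (by simp; omega)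
  exact ⟨z, hz, h a (by simp), h b (by simp), h c (by simp), h d (by simp), h e (by simp),
    h f (by simp), h g (by simp)⟩

section Ring
variable {R : Type*} [Ring R] {m : ℕ} {x : ℕ → R}

theorem scube_rep (hm : 54 ≤ m)
    (H : ∀ a b c d r, scube_M4 m a b c d → r < m → Fa r a → Fa r b → Fa r c → Fa r d →
      (x a - x b) * (x c - x d) * x r = 0) {a b c d e : ℕ} (h1 : scube_M4 m a b c d)
    (h2 : scube_M4 m a b e d) : (x a - x b) * x c * x d = (x a - x b) * x e * x d := by
  obtain ⟨f, hf, fa, fb, fc, fd, fe, -, -⟩ := scube_fa hm a b c d e e e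
  have e1 := H a b c f d ⟨h1.1, hf, fa.symm, fb.symm, fc.symm⟩ h1.hd h1.ad.symm h1.bd.symm
    h1.cd.symm fd.symm
  have e2 := H a b e f d ⟨h2.1, hf, fa.symm, fb.symm, fe.symm⟩ h1.hd h1.ad.symm h1.bd.symm
    h2.cd.symm fd.symm
  rw [mul_sub, sub_mul, sub_eq_zero] at e1 e2
  rw [e1, e2]

theorem scube_ind (hm : 54 ≤ m) (hc : ∀ a < m, ∀ b < m, Fa a b → Commute (x a) (x b))
    (H : ∀ a b c d r, scube_M4 m a b c d → r < m → Fa r a → Fa r b → Fa r c → Fa r d →
      (x a - x b) * (x c - x d) * x r = 0) {a b c d c' d' : ℕ} (h1 : scube_M4 m a b c d)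
    (h2 : scube_M4 m a b c' d') : (x a - x b) * x c * x d = (x a - x b) * x c' * x d' := by
  obtain ⟨e, he, ea, eb, ec, ed, ec', ed', -⟩ := scube_fa hm a b c d c' d' d'
  have key : ∀ {c d : ℕ}, scube_M4 m a b c d → Fa e d →
      (x a - x b) * x c * x d = (x a - x b) * x d * x e := by
    intro c d h ed
    rw [scube_rep hm H h ⟨⟨h.ha, h.hb, he, h.ab, ea.symm, eb.symm⟩, h.hd, h.ad, h.bd, ed⟩,
      mul_assoc, (hc e he d h.hd ed).eq, mul_assoc]
  rw [key h1 ed, key h2 ed']
  exact scube_rep hm H ⟨⟨h1.ha, h1.hb, h1.hd, h1.ab, h1.ad, h1.bd⟩, he, ea.symm, eb.symm, ed.symm⟩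
    ⟨⟨h1.ha, h1.hb, h2.hd, h1.ab, h2.ad, h2.bd⟩, he, ea.symm, eb.symm, ed'.symm⟩

theorem scube_rep3 (hm : 54 ≤ m)
    (H : ∀ a b c d, scube_M4 m a b c d → (x a - x b) * x c * x d = 0) {a b c d : ℕ}
    (h1 : scube_M3 m a c d) (h2 : scube_M3 m b c d) : x a * x c * x d = x b * x c * x d := by
  obtain ⟨f, hf, fa, fb, fc, fd, -, -, -⟩ := scube_fa hm a b c d d d d
  have e1 := H a f c d ⟨⟨h1.ha, hf, h1.hb, fa.symm, h1.ab, fc⟩, h1.hc, h1.ac, fd, h1.bc⟩
  have e2 := H b f c d ⟨⟨h2.ha, hf, h2.hb, fb.symm, h2.ab, fc⟩, h2.hc, h2.ac, fd, h2.bc⟩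
  rw [sub_mul, sub_mul, sub_eq_zero] at e1 e2
  rw [e1, e2]

theorem scube_ind3 (hm : 54 ≤ m) (hc : ∀ a < m, ∀ b < m, Fa a b → Commute (x a) (x b))
    (H : ∀ a b c d, scube_M4 m a b c d → (x a - x b) * x c * x d = 0) {a b c a' b' c' : ℕ}
    (h1 : scube_M3 m a b c) (h2 : scube_M3 m a' b' c') :
    x a * x b * x c = x a' * x b' * x c' := by
  obtain ⟨e, he, -, eb, ec, -, eb', ec', -⟩ := scube_fa hm a b c a' b' c' c'
  obtain ⟨f, hf, -, -, fc, -, -, fc', fe⟩ := scube_fa hm a b c a' b' c' e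
  have key : ∀ {a b c : ℕ}, scube_M3 m a b c → Fa e b → Fa e c → Fa f c →
      x a * x b * x c = x c * x f * x e := by
    intro a b c h eb ec fc
    rw [scube_rep3 hm H h ⟨he, h.hb, h.hc, eb, ec, h.bc⟩, (hc e he b h.hb eb).eq,
      scube_rep3 hm H (a := b) (b := f) (c := e) ⟨h.hb, he, h.hc, eb.symm, h.bc, ec⟩
        ⟨hf, he, h.hc, fe, fc, ec⟩,
      ((hc f hf c h.hc fc).mul_left (hc e he c h.hc ec)).eq, mul_assoc]
  rw [key h1 eb ec fc, key h2 eb' ec' fc']
  exact scube_rep3 hm H ⟨h1.hc, hf, he, fc.symm, ec.symm, fe⟩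
    ⟨h2.hc, hf, he, fc'.symm, ec'.symm, fe⟩

end Ring

variable {K V : Type*} [Field K] [AddCommGroup V] [Module K V]

theorem scube_two {m : ℕ} {x : ℕ → End K V} (hm : 54 ≤ m)
    (hc : ∀ a < m, ∀ b < m, Fa a b → Commute (x a) (x b))
    (hirr : ∀ W : Submodule K V, (∀ j < m, ∀ w ∈ W, x j w ∈ W) → W = ⊥ ∨ W = ⊤)
    (hne : (x 0 - x 1) * (x 3 - x 4) ≠ 0)
    (H : ∀ a b c d r, scube_M4 m a b c d → r < m → Fa r a → Fa r b → Fa r c → Fa r d →
      (x a - x b) * (x c - x d) * x r = 0) (a b c d : ℕ) (h : scube_M4 m a b c d) :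
    (x a - x b) * x c * x d = 0 := by
  let S : Set V := {w | ∃ a b c d v, scube_M4 m a b c d ∧ w = ((x a - x b) * x c * x d) v}
  rcases hirr (Submodule.span K S) (fun j hj => by
    refine (Submodule.span_le (p := (Submodule.span K S).comap (x j))).2 ?_
    rintro _ ⟨a, b, c, d, v, h, rfl⟩
    obtain ⟨p, hp, pa, pb, pj, -⟩ := scube_fa hm a b j j j j j
    obtain ⟨q, hq, qa, qb, qj, qp, -⟩ := scube_fa hm a b j p p p p
    obtain ⟨e, he, ea, eb, ej, ep, eq, -⟩ := scube_fa hm a b j p q q q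
    have h' : scube_M4 m a b p q :=
      ⟨⟨h.ha, h.hb, hp, h.ab, pa.symm, pb.symm⟩, hq, qa.symm, qb.symm, qp.symm⟩
    have c1 : Commute (x p * x q) (x a - x b) :=
      ((hc p hp a h.ha pa).sub_right (hc p hp b h.hb pb)).mul_left
        ((hc q hq a h.ha qa).sub_right (hc q hq b h.hb qb))
    have c2 : Commute (x e) ((x a - x b) * x p * x q) :=
      (((hc e he a h.ha ea).sub_right (hc e he b h.hb eb)).mul_right (hc e he p hp ep)).mul_right
        (hc e he q hq eq)
    have e1 : x j * ((x a - x b) * x c * x d) =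
        (x j - x e) * x p * x q * (x a - x b) + (x a - x b) * x p * x q * x e := by
      rw [scube_ind hm hc H h h', ← c2.eq, mul_assoc (x j - x e), mul_assoc (x j - x e), c1.eq,
        ← mul_assoc (x a - x b), ← add_mul, sub_add_cancel]
    have e2 := LinearMap.congr_fun e1 v
    rw [Module.End.mul_apply, LinearMap.add_apply, Module.End.mul_apply _ (x a - x b),
      Module.End.mul_apply _ (x e)] at e2
    rw [SetLike.mem_coe, Submodule.mem_comap, e2]
    exact add_mem (Submodule.subset_span ⟨j, e, p, q, _,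
      ⟨⟨hj, he, hp, ej.symm, pj.symm, ep⟩, hq, qj.symm, eq, qp.symm⟩, rfl⟩)
      (Submodule.subset_span ⟨a, b, p, q, _, h', rfl⟩)) with h0 | h0
  · ext v
    have : ((x a - x b) * x c * x d) v ∈ Submodule.span K S :=
      Submodule.subset_span ⟨a, b, c, d, v, h, rfl⟩
    rwa [h0, Submodule.mem_bot] at this
  · have key : ∀ p q r s, scube_M4 m p q r s → (x p - x q) * (x r - x s) = 0 := by
      intro p q r s h'
      rw [← LinearMap.ker_eq_top, ← top_le_iff, ← h0, Submodule.span_le]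
      rintro _ ⟨a, b, c, d, v, h, rfl⟩
      obtain ⟨y, hy, yp, yq, yr, ys, ya, yb, -⟩ := scube_fa hm p q r s a b b
      obtain ⟨z, hz, za, zb, zy, -⟩ := scube_fa hm a b y y y y y
      have c1 : Commute (x y) (x a - x b) := (hc y hy a h.ha ya).sub_right (hc y hy b h.hb yb)
      rw [SetLike.mem_coe, LinearMap.mem_ker, ← Module.End.mul_apply, scube_ind hm hc H h
        ⟨⟨h.ha, h.hb, hy, h.ab, ya.symm, yb.symm⟩, hz, za.symm, zb.symm, zy.symm⟩, ← c1.eq,
        ← mul_assoc, ← mul_assoc, H p q r s y h' hy yp yq yr ys, zero_mul, zero_mul,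
        LinearMap.zero_apply]
    have k : ∀ p r, p ≤ 1 → 3 ≤ r → r ≤ 4 → (x p - x 10) * (x r - x 12) = 0 := by
      intro p r h1 h2 h3
      refine key p 10 r 12 ⟨⟨?_, ?_, ?_, ?_, ?_, ?_⟩, ?_, ?_, ?_, ?_⟩ <;>
        first | omega | (unfold Fa; omega)
    refine absurd ?_ hne
    have e1 : x 0 - x 1 = (x 0 - x 10) - (x 1 - x 10) := by abel
    have e2 : x 3 - x 4 = (x 3 - x 12) - (x 4 - x 12) := by abel
    rw [e1, e2, sub_mul (x 0 - x 10), mul_sub (x 0 - x 10), mul_sub (x 1 - x 10),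
      k 0 3 (by omega) (by omega) (by omega), k 0 4 (by omega) (by omega) (by omega),
      k 1 3 (by omega) (by omega) (by omega), k 1 4 (by omega) (by omega) (by omega)]
    simp

theorem scube_three {m : ℕ} {x : ℕ → End K V} (hm : 54 ≤ m)
    (hc : ∀ a < m, ∀ b < m, Fa a b → Commute (x a) (x b))
    (hirr : ∀ W : Submodule K V, (∀ j < m, ∀ w ∈ W, x j w ∈ W) → W = ⊥ ∨ W = ⊤)
    (hne : (x 0 - x 1) * (x 3 - x 4) ≠ 0)
    (H : ∀ a b c d, scube_M4 m a b c d → (x a - x b) * x c * x d = 0) (a b c : ℕ)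
    (h : scube_M3 m a b c) : x a * x b * x c = 0 := by
  rcases hirr (LinearMap.range (x a * x b * x c)) (fun j hj => by
    rintro _ ⟨v, rfl⟩
    obtain ⟨p, hp, pj, -⟩ := scube_fa hm j j j j j j j
    obtain ⟨q, hq, qj, qp, -⟩ := scube_fa hm j p p p p p p
    obtain ⟨e, he, ej, ep, eq, -⟩ := scube_fa hm j p q q q q q
    have c1 : Commute (x p * x q * x e) (x j) :=
      ((hc p hp j hj pj).mul_left (hc q hq j hj qj)).mul_left (hc e he j hj ej)
    refine ⟨x j v, ?_⟩
    rw [scube_ind3 hm hc H h ⟨hp, hq, he, qp.symm, ep.symm, eq.symm⟩, ← Module.End.mul_apply,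
      c1.eq, Module.End.mul_apply]) with h0 | h0
  · exact LinearMap.range_eq_bot.1 h0
  · have key : ∀ p, p ≤ 1 → x p - x 10 = 0 := by
      intro p hp
      ext v
      obtain ⟨w, rfl⟩ := LinearMap.range_eq_top.1 h0 v
      have h3 : scube_M3 m 12 14 16 := by
        refine ⟨?_, ?_, ?_, ?_, ?_, ?_⟩ <;> first | omega | (unfold Fa; omega)
      have h4 : scube_M4 m p 10 12 14 := by
        refine ⟨⟨?_, ?_, ?_, ?_, ?_, ?_⟩, ?_, ?_, ?_, ?_⟩ <;> first | omega | (unfold Fa; omega)
      rw [← Module.End.mul_apply, scube_ind3 hm hc H h h3, ← mul_assoc, ← mul_assoc,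
        H _ _ _ _ h4, zero_mul, LinearMap.zero_apply, LinearMap.zero_apply]
    refine absurd ?_ hne
    have e1 : x 0 - x 1 = (x 0 - x 10) - (x 1 - x 10) := by abel
    rw [e1, key 0 (by omega), key 1 le_rfl, sub_self, zero_mul]

variable [FiniteDimensional K V] {m : ℕ} {t : ℕ → (End K V)ˣ}

theorem IsBraid.cube_of_mu (h : IsBraid m t) (hm : 54 ≤ m) (hirr : Irr m t) (h2 : P t 2 ≠ 0)
    {μ : K} (hμ : P t 2 * ((t (m - 1) : End K V) - μ • 1) = 0) :
    ∀ a < m, ∀ b < m, ∀ c < m, Fa a b → Fa a c → Fa b c →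
      ((t a : End K V) - μ • 1) * ((t b : End K V) - μ • 1) * ((t c : End K V) - μ • 1) = 0 := by
  let x : ℕ → End K V := fun a => (t a : End K V) - μ • 1
  have hx : ∀ a, x a = (t a : End K V) - μ • 1 := fun _ => rfl
  have hs : ∀ y : End K V, Commute y (μ • 1) := fun y => (Commute.one_right y).smul_right μ
  have htx : ∀ a < m, ∀ b < m, Fa a b → Commute (t a : End K V) (x b) := fun a ha b hb hab =>
    (h.val.commute ha hb hab).sub_right (hs _)
  have hc : ∀ a < m, ∀ b < m, Fa a b → Commute (x a) (x b) := fun a ha b hb hab =>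
    (htx a ha b hb hab).sub_left (hs _).symm
  have hD : ∀ a, D t a = x a - x (a + 1) := fun a => by rw [D, hx, hx, sub_sub_sub_cancel_right]
  have hi : ∀ W : Submodule K V, (∀ j < m, ∀ w ∈ W, x j w ∈ W) → W = ⊥ ∨ W = ⊤ := by
    intro W hW
    refine hirr W fun j hj => mem_stabS.2 fun w hw => ?_
    have : (t j : End K V) w = x j w + μ • w := by simp [hx]
    rw [this]
    exact add_mem (hW j hj w hw) (W.smul_mem μ hw)
  have hne : (x 0 - x 1) * (x 3 - x 4) ≠ 0 := by
    rw [← hD 0, ← hD 3]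
    simpa [P] using h2
  have h0 : ∀ i j, i ≤ 1 → 4 ≤ j → j ≤ 5 → D t i * D t j * x (m - 1) = 0 := by
    intro i j h1 h4 h5
    have := (h.trans_aux 2 [i, j] (m - 2) (x (m - 1)) rfl (by omega)
      (by simp only [List.pairwise_cons, List.mem_singleton, forall_eq, List.not_mem_nil,
            IsEmpty.forall_iff, implies_true, List.Pairwise.nil, and_true]
          exact Or.inl (by omega))
      (by simp only [List.mem_cons, List.not_mem_nil, or_false, forall_eq_or_imp, forall_eq]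
          omega)
      (fun a ha => htx a (by omega) _ (by omega) (Or.inl (by omega)))).2.2 hμ
    simpa [M_cons, M_nil] using this
  have hstd : (x 0 - x 2) * (x 4 - x 6) * x (m - 1) = 0 := by
    have e1 : x 0 - x 2 = D t 0 + D t 1 := by rw [hD, hD]; abel
    have e2 : x 4 - x 6 = D t 4 + D t 5 := by rw [hD, hD]; abel
    rw [e1, e2]
    simp only [add_mul, mul_add, h0 0 4 (by omega) le_rfl (by omega),
      h0 0 5 (by omega) (by omega) le_rfl, h0 1 4 le_rfl le_rfl (by omega),
      h0 1 5 le_rfl (by omega) le_rfl, add_zero]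
  have H : ∀ a b c d r, scube_M4 m a b c d → r < m → Fa r a → Fa r b → Fa r c → Fa r d →
      (x a - x b) * (x c - x d) * x r = 0 := by
    intro a b c d r h4 hr ra rb rc rd
    obtain ⟨g, hg⟩ := h.exists_conj (l := [0, 2, 4, 6, m - 1]) (l' := [a, b, c, d, r]) rfl
      (by simp only [List.pairwise_cons, List.mem_cons, List.not_mem_nil, or_false,
            forall_eq_or_imp, forall_eq, IsEmpty.forall_iff, implies_true, List.Pairwise.nil, Fa,
            and_true]
          omega)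
      (by simp only [List.pairwise_cons, List.mem_cons, List.not_mem_nil, or_false,
            forall_eq_or_imp, forall_eq, IsEmpty.forall_iff, implies_true, List.Pairwise.nil,
            and_true]
          exact ⟨⟨h4.ab, h4.ac, h4.ad, ra.symm⟩, ⟨h4.bc, h4.bd, rb.symm⟩, ⟨h4.cd, rc.symm⟩,
            rd.symm⟩)
      (by simp only [List.mem_cons, List.not_mem_nil, or_false, forall_eq_or_imp, forall_eq]
          omega)
      (by simp only [List.mem_cons, List.not_mem_nil, or_false, forall_eq_or_imp, forall_eq]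
          exact ⟨h4.ha, h4.hb, h4.hc, h4.hd, hr⟩)
    simp only [List.forall₂_cons, List.Forall₂.nil, and_true] at hg
    obtain ⟨g1, g2, g3, g4, g5⟩ := hg
    have cj : ∀ {i j : ℕ}, g * t i = t j * g → (g : End K V) * x i = x j * g := by
      intro i j hij
      have := congrArg Units.val hij
      simp only [Units.val_mul] at this
      rw [hx, hx, mul_sub, sub_mul, this, (hs _).eq]
    have cs : ∀ {i j i' j' : ℕ}, g * t i = t j * g → g * t i' = t j' * g →
        (g : End K V) * (x i - x i') = (x j - x j') * g := by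
      intro i j i' j' h1 h2
      rw [mul_sub, sub_mul, cj h1, cj h2]
    refine (zero_iff_of_conj (u := g) ?_).1 hstd
    rw [← mul_assoc, ← mul_assoc, cs g1 g2, mul_assoc (x a - x b), cs g3 g4, ← mul_assoc,
      mul_assoc _ (g : End K V), cj g5, ← mul_assoc]
  intro a ha b hb c hc' hab hac hbc
  exact scube_three hm hc hi hne (scube_two hm hc hi hne H) a b c ⟨ha, hb, hc', hab, hac, hbc⟩

end Pool.Agent.MP_b64966_al

end

-- part MP_b64966_al.SSupp
section

namespace Pool.Agent.MP_b64966_al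

open Module
open scoped commutatorElement

section Group
variable {G : Type*} [Group G] {m : ℕ} {s : ℕ → G}

/-- The rotation of the last `m` strands around the first one. -/
def spRho (s : ℕ → G) (m : ℕ) : G := s 0 * up s m

/-- Conjugates by the powers of an element. -/
def spCj (r x : G) (j : ℕ) : G := r ^ j * x * (r ^ j)⁻¹

theorem spCj_zero (r x : G) : spCj r x 0 = x := by simp [spCj]

theorem spCj_add (r x : G) (a j : ℕ) : spCj r x (a + j) = r ^ a * spCj r x j * (r ^ a)⁻¹ := by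
  simp only [spCj, pow_add, mul_inv_rev, mul_assoc]

theorem spCj_pow (r x : G) (a j : ℕ) : r ^ a * spCj r x j = spCj r x (a + j) * r ^ a := by
  rw [spCj_add, inv_mul_cancel_right]

theorem spCj_succ (r x : G) (j : ℕ) : r * spCj r x j = spCj r x (j + 1) * r := by
  simpa only [pow_one, add_comm 1 j] using spCj_pow r x 1 j

theorem spCj_per {r x : G} (h : Commute (r ^ m) x) (j : ℕ) : spCj r x (j + m) = spCj r x j := by
  rw [spCj_add, spCj, h.eq, mul_inv_cancel_right, spCj]

theorem spCj_commute {r x y : G} {l a : ℕ} (hla : l ≤ a) (h : Commute x (spCj r y (a - l))) :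
    Commute (spCj r x l) (spCj r y a) := by
  have := h.conj (r ^ l)
  rwa [← spCj_add, Nat.add_sub_cancel' hla] at this

theorem up_succ' (s : ℕ → G) (j : ℕ) : up s (j + 1) = s 0 * up (fun i => s (i + 1)) j := by
  induction j with
  | zero => simp [up]
  | succ j ih => rw [up, ih, up, mul_assoc]

theorem IsBraid.spRho_pow (h : IsBraid m s) {j : ℕ} (hj : j ≤ m) :
    spRho s m ^ j = up s j * up s m ^ j := by
  induction j with
  | zero => simp [up]
  | succ j ih =>
    have h1 := h.up_pow_conj (i := 0) (j := j) (by omega)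
    rw [zero_add] at h1
    rw [pow_succ, ih (by omega), spRho, ← mul_assoc, mul_assoc (up s j), h1, up, pow_succ]
    simp only [mul_assoc]

theorem IsBraid.spRho_central (h : IsBraid m s) {i : ℕ} (hi : i < m) :
    Commute (spRho s m ^ m) (s i) := by
  rw [h.spRho_pow le_rfl, ← pow_succ']
  exact h.up_central hi

theorem IsBraid.spCj_one (h : IsBraid m s) {j : ℕ} (hj : j + 2 ≤ m) :
    spCj (spRho s m) (s 1) j = s (j + 1) := by
  induction j with
  | zero => exact spCj_zero _ _
  | succ j ih =>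
    have h1 := spCj_succ (spRho s m) (s 1) j
    rw [ih (by omega)] at h1
    refine mul_right_cancel (h1.symm.trans ?_)
    rw [spRho, mul_assoc, h.up_conj (by omega) le_rfl, ← mul_assoc,
      (h.commute (i := 0) (j := j + 1 + 1) (by omega) (by omega) (by omega)).eq, mul_assoc]

theorem IsBraid.spCj_e1 (h : IsBraid m s) (hm : 2 ≤ m) :
    spCj (spRho s m) (s 0) 1 * s 0 = s 0 * s 1 := by
  have h1 := h.up_conj (i := 0) (j := m) hm le_rfl
  rw [spCj, pow_one, spRho, mul_assoc (s 0), h1, zero_add]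
  simp only [mul_inv_rev, mul_assoc, mul_inv_cancel_left, inv_mul_cancel, mul_one]

theorem IsBraid.spCj_ce (h : IsBraid m s) (hm : 2 ≤ m) (l : ℕ) :
    spCj (spRho s m) (s 1) l * spCj (spRho s m) (s 0) (l + 1) =
      spCj (spRho s m) (s 0) l * spCj (spRho s m) (s 1) l := by
  have h1 : s 1 * spCj (spRho s m) (s 0) 1 = s 0 * s 1 := by
    refine mul_right_cancel (b := s 0) ?_
    rw [mul_assoc, h.spCj_e1 hm, h.braid 0 hm, zero_add, mul_assoc]
  rw [spCj_add, spCj, spCj.eq_1 _ (s 0) l]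
  simp only [mul_assoc, inv_mul_cancel_left]
  rw [← mul_assoc (s 1), h1, mul_assoc]

theorem IsBraid.dn_sq (h : IsBraid m s) {H : Subgroup G} (h0 : s 0 * s 0 ∈ H)
    (h1 : ∀ i, 1 ≤ i → i < m → s i ∈ H) {j : ℕ} (hj : j < m) :
    (dn s j)⁻¹ * (s j * s j) * dn s j ∈ H := by
  induction j with
  | zero => simpa [dn] using h0
  | succ j ih =>
    have hb := h.braid j hj
    have hc := h.dn_commute (j := j) (c := j + 1) le_rfl hj
    have hb' : (s j)⁻¹ * (s (j + 1) * s (j + 1)) * s j = s (j + 1) * (s j * s j) * (s (j + 1))⁻¹ := by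
      have e : (s j)⁻¹ * s (j + 1) * s j = s (j + 1) * s j * (s (j + 1))⁻¹ := by
        rw [eq_mul_inv_iff_mul_eq, mul_assoc, mul_assoc, inv_mul_eq_iff_eq_mul]
        simpa only [mul_assoc] using hb.symm
      calc _ = ((s j)⁻¹ * s (j + 1) * s j) * ((s j)⁻¹ * s (j + 1) * s j) := by group
        _ = _ := by rw [e]; group
    have e : (dn s (j + 1))⁻¹ * (s (j + 1) * s (j + 1)) * dn s (j + 1) =
        s (j + 1) * ((dn s j)⁻¹ * (s j * s j) * dn s j) * (s (j + 1))⁻¹ := by
      calc _ = (dn s j)⁻¹ * ((s j)⁻¹ * (s (j + 1) * s (j + 1)) * s j) * dn s j := by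
            simp only [dn, mul_inv_rev, mul_assoc]
        _ = ((dn s j)⁻¹ * s (j + 1)) * (s j * s j) * ((s (j + 1))⁻¹ * dn s j) := by
            rw [hb']; simp only [mul_assoc]
        _ = _ := by
            rw [hc.inv_left.eq, ← hc.inv_right.eq]; simp only [mul_assoc]
    rw [e]
    exact mul_mem (mul_mem (h1 _ (by omega) hj) (ih (by omega))) (inv_mem (h1 _ (by omega) hj))

end Group

variable {K V : Type*} [Field K] [AddCommGroup V] [Module K V] [FiniteDimensional K V]
  {m : ℕ} {t : ℕ → (End K V)ˣ}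

/-- The annular picture: circular arcs `c`, radial arcs `e`, rotation `r`. -/
structure Ann (m : ℕ) (r : (End K V)ˣ) (c e : ℕ → (End K V)ˣ) : Prop where
  rc : ∀ j, r * c j = c (j + 1) * r
  re : ∀ l, r * e l = e (l + 1) * r
  pc : ∀ j, c (j + m) = c j
  pe : ∀ l, e (l + m) = e l
  cc : ∀ a b, a + 2 ≤ b → b + 2 ≤ a + m → Commute (c a) (c b)
  ec : ∀ l a, l + 1 ≤ a → a + 2 ≤ l + m → Commute (e l) (c a)
  ce : ∀ l, c l * e (l + 1) = e l * c l
  cube : ∀ l a b, l + 1 ≤ a → a + 2 ≤ l + m → l + 1 ≤ b → b + 2 ≤ l + m → Fa a b →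
    N c a * N c b * N e l = 0

section Ann
omit [FiniteDimensional K V]

theorem IsBraid.ann (h : IsBraid m t) (hm : 2 ≤ m) (hc : Cube m t) :
    Ann m (spRho t m) (spCj (spRho t m) (t 1)) (spCj (spRho t m) (t 0)) where
  rc := spCj_succ _ _
  re := spCj_succ _ _
  pc := spCj_per (h.spRho_central (by omega))
  pe := spCj_per (h.spRho_central (by omega))
  cc a b h1 h2 := spCj_commute (by omega) (by
    rw [h.spCj_one (by omega)]
    exact h.commute (by omega) (by omega) (by omega))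
  ec l a h1 h2 := spCj_commute (by omega) (by
    rw [h.spCj_one (by omega)]
    exact h.commute (by omega) (by omega) (by omega))
  ce := h.spCj_ce hm
  cube l a b h1 h2 h3 h4 h5 := by
    obtain ⟨a, rfl⟩ := Nat.exists_eq_add_of_le (show l ≤ a by omega)
    obtain ⟨b, rfl⟩ := Nat.exists_eq_add_of_le (show l ≤ b by omega)
    have h0 := hc (a + 1) (by omega) (b + 1) (by omega) 0 (by omega) (by unfold Fa at *; omega)
      (by unfold Fa; omega) (by unfold Fa; omega)
    have e1 : ∀ j, j + 2 ≤ m → N t (j + 1) = N (spCj (spRho t m) (t 1)) j := fun j hj => by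
      rw [N, N, h.spCj_one hj]
    have e2 : N t 0 = N (spCj (spRho t m) (t 0)) 0 := by rw [N, N, spCj_zero]
    rw [e1 a (by omega), e1 b (by omega), e2] at h0
    refine (zero_iff_of_conj (u := spRho t m ^ l) ?_).1 h0
    rw [← mul_assoc, ← mul_assoc, conj_N (spCj_pow _ _ l a), mul_assoc (N _ _),
      conj_N (spCj_pow _ _ l b), mul_assoc, mul_assoc, conj_N (spCj_pow _ _ l 0)]
    simp only [mul_assoc, add_zero]

variable {r : (End K V)ˣ} {c e : ℕ → (End K V)ˣ}

/-- Ranges of the products of a circular and a radial factor. -/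
def spR (c e : ℕ → (End K V)ˣ) (j l : ℕ) : Submodule K V := LinearMap.range (N c j * N e l)

/-- Two consecutive ranges. -/
def spQ (c e : ℕ → (End K V)ˣ) (j l : ℕ) : Submodule K V := spR c e j l ⊓ spR c e j (l + 1)

theorem spR_move {g : (End K V)ˣ} {j j' l l' : ℕ} (h1 : g * c j = c j' * g)
    (h2 : g * e l = e l' * g) {y : V} (hy : y ∈ spR c e j l) :
    (g : End K V) y ∈ spR c e j' l' := by
  obtain ⟨x, rfl⟩ := hy
  refine ⟨(g : End K V) x, ?_⟩
  rw [← End.mul_apply, ← End.mul_apply (g : End K V), ← mul_assoc, conj_N h1, mul_assoc,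
    mul_assoc, conj_N h2]

theorem spR_fix {a j l : ℕ} (h : N c a * N c j * N e l = 0) {y : V} (hy : y ∈ spR c e j l) :
    (c a : End K V) y = y := by
  obtain ⟨x, rfl⟩ := hy
  rw [← sub_eq_zero, ← N_apply, ← End.mul_apply, ← mul_assoc, h, LinearMap.zero_apply]

theorem Ann.Nc (h : Ann m r c e) (j : ℕ) : N c (j + m) = N c j := by rw [N, N, h.pc]

theorem Ann.Ne (h : Ann m r c e) (l : ℕ) : N e (l + m) = N e l := by rw [N, N, h.pe]

theorem Ann.Q_per (h : Ann m r c e) (j l : ℕ) : spQ c e j (l + m) = spQ c e j l := by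
  rw [spQ, spQ, spR, spR, spR, spR, add_right_comm, h.Ne, h.Ne]

theorem Ann.Q_per' (h : Ann m r c e) (j l : ℕ) : spQ c e (j + m) l = spQ c e j l := by
  rw [spQ, spQ, spR, spR, spR, spR, h.Nc]

theorem Ann.step (h : Ann m r c e) {j l : ℕ} (h1 : j + 2 ≤ l) (h2 : l + 3 ≤ j + m) :
    spQ c e j (l + 1) = spQ c e j l := by
  apply le_antisymm
  · rintro y ⟨y1, y2⟩
    have h3 := h.cube (l + 1 + 1) (l + m) (j + m) (by omega) (by omega) (by omega) (by omega)
      (by unfold Fa; omega)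
    rw [h.Nc, h.Nc] at h3
    have h4 := spR_move (h.cc j l h1 (by omega)).symm.eq (h.ce l) y1
    rw [spR_fix h3 y2] at h4
    exact ⟨h4, y1⟩
  · rintro y ⟨y1, y2⟩
    have h3 := h.cube l (l + 1) (j + m) (by omega) (by omega) (by omega) (by omega)
      (by unfold Fa; omega)
    rw [h.Nc] at h3
    have h4 := inv_apply_apply (c (l + 1)) y
    rw [spR_fix h3 y1] at h4
    have h5 := spR_move (l' := l + 1 + 1) (h.cc j (l + 1) (by omega) h2).symm.inv_left.eq
      (by rw [inv_mul_eq_iff_eq_mul, ← mul_assoc, h.ce, mul_inv_cancel_right]) y2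
    rw [h4] at h5
    exact ⟨y2, h5⟩

theorem Ann.win (h : Ann m r c e) {j l : ℕ} (h1 : j + 2 ≤ l) (h2 : l + 2 ≤ j + m) :
    spQ c e j l = spQ c e j (j + 2) := by
  induction l, h1 using Nat.le_induction with
  | base => rfl
  | succ l h1 ih => rw [h.step h1 h2, ih (by omega)]

theorem Ann.win' (h : Ann m r c e) {j l : ℕ} (hj : j < m) (h1 : 2 ≤ l) (h2 : l + 2 ≤ m)
    (h3 : Fa l j) : spQ c e j l = spQ c e j (j + 2) := by
  rcases h3 with h3 | h3
  · rw [← h.Q_per, h.win (by omega) (by omega)]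
  · exact h.win h3 (by omega)

theorem Ann.comm' (h : Ann m r c e) {j l : ℕ} (hj : j < m) (h1 : 1 ≤ l) (h2 : l < m)
    (h3 : j + 2 ≤ l ∨ l + 1 ≤ j) : N c j * N e l = N e l * N c j := by
  have h4 : Commute (e l) (c j) := by
    rcases h3 with h3 | h3
    · rw [← h.pc j]
      exact h.ec l (j + m) (by omega) (by omega)
    · exact h.ec l j h3 (by omega)
  have h5 := h4.map (Units.coeHom (End K V))
  exact (((h5.sub_right (Commute.one_right _)).sub_left (Commute.one_left _)).eq).symm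

theorem Ann.cube' (h : Ann m r c e) {a b l : ℕ} (ha : a + 2 ≤ m) (hb : b + 2 ≤ m) (hl : l < m)
    (h1 : Fa l a) (h2 : Fa l b) (h3 : Fa a b) : N c a * N c b * N e l = 0 := by
  rcases h1 with h1 | h1 <;> rcases h2 with h2 | h2
  · exact h.cube l a b (by omega) (by omega) (by omega) (by omega) h3
  · rw [← h.Nc b]
    exact h.cube l _ _ (by omega) (by omega) (by omega) (by omega) (by unfold Fa; omega)
  · rw [← h.Nc a]
    exact h.cube l _ _ (by omega) (by omega) (by omega) (by omega) (by unfold Fa; omega)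
  · rw [← h.Nc a, ← h.Nc b]
    exact h.cube l _ _ (by omega) (by omega) (by omega) (by omega) (by unfold Fa at *; omega)

/-- The support subspace at the centre. -/
def spS (m : ℕ) (c e : ℕ → (End K V)ˣ) : Submodule K V := ⨆ j : Fin m, spQ c e j (j + 2)

theorem spQ_le {j : ℕ} (hj : j < m) : spQ c e j (j + 2) ≤ spS m c e :=
  le_iSup (fun j : Fin m => spQ c e j (j + 2)) ⟨j, hj⟩

theorem spS_le {U : Submodule K V} (h : ∀ j < m, spQ c e j (j + 2) ≤ U) : spS m c e ≤ U :=
  iSup_le fun j => h j j.2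

theorem Ann.S_rot (h : Ann m r c e) {y : V} (hy : y ∈ spS m c e) :
    (r : End K V) y ∈ spS m c e := by
  refine spS_le (U := (spS m c e).comap (r : End K V)) (fun j hj y hy => ?_) hy
  have h1 : (r : End K V) y ∈ spQ c e (j + 1) (j + 1 + 2) :=
    ⟨spR_move (h.rc j) (h.re _) hy.1, spR_move (h.rc j) (h.re _) hy.2⟩
  rcases (Nat.succ_le_of_lt hj).eq_or_lt with h2 | h2
  · have h3 : j + 1 = 0 + m := by omega
    rw [h3, h.Q_per', add_right_comm, h.Q_per] at h1
    exact spQ_le (j := 0) (by omega) h1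
  · exact spQ_le h2 h1

theorem Ann.S_arc (h : Ann m r c e) (hm : 19 ≤ m) {k : ℕ} (hk : k < m) {y : V}
    (hy : y ∈ spS m c e) : (c k : End K V) y ∈ spS m c e := by
  refine spS_le (U := (spS m c e).comap (c k : End K V)) (fun j hj y hy => ?_) hy
  obtain ⟨l, hl, hf⟩ := exists_fa (m := m) [0, m - 1, j, k] (by simp; omega)
  simp only [List.mem_cons, List.not_mem_nil, or_false, forall_eq_or_imp, forall_eq] at hf
  obtain ⟨f1, f2, f3, f4⟩ := hf
  have h1 : 2 ≤ l ∧ l + 3 ≤ m := by unfold Fa at f1 f2; omega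
  have h2 : N c k y ∈ spQ c e k (k + 2) := by
    rw [← h.win' hj h1.1 (by omega) f3] at hy
    rw [← h.win' hk h1.1 (by omega) f4]
    obtain ⟨⟨x, hx⟩, x', hx'⟩ := hy
    rw [h.comm' hj (by omega) (by omega) (by unfold Fa at f3; omega)] at hx hx'
    exact ⟨⟨N c j x, by rw [← hx]; rfl⟩, N c j x', by rw [← hx']; rfl⟩
  have h3 := add_mem (spQ_le hk h2) (spQ_le hj hy)
  rwa [N_apply, sub_add_cancel] at h3

theorem Ann.S_kill (h : Ann m r c e) (hm : 19 ≤ m) {a b : ℕ} (ha : a + 2 ≤ m) (hb : b + 2 ≤ m)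
    (hab : Fa a b) {y : V} (hy : y ∈ spS m c e) : N c a (N c b y) = 0 := by
  refine spS_le (U := LinearMap.ker (N c a * N c b)) (fun j hj y hy => ?_) hy
  obtain ⟨l, hl, hf⟩ := exists_fa (m := m) [0, m - 1, j, a, b] (by simp; omega)
  simp only [List.mem_cons, List.not_mem_nil, or_false, forall_eq_or_imp, forall_eq] at hf
  obtain ⟨f1, f2, f3, f4, f5⟩ := hf
  have h1 : 2 ≤ l ∧ l + 3 ≤ m := by unfold Fa at f1 f2; omega
  rw [← h.win' hj h1.1 (by omega) f3] at hy
  obtain ⟨x, rfl⟩ := hy.1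
  rw [h.comm' hj (by omega) hl (by unfold Fa at f3; omega), LinearMap.mem_ker, ← End.mul_apply,
    ← mul_assoc, h.cube' ha hb hl f4 f5 hab, zero_mul, LinearMap.zero_apply]

theorem IsBraid.spS_ne (h : IsBraid m t) (hm : 4 ≤ m) (hc : Cube m t)
    (hZ : Z t 0 * N t (m - 1) ≠ 0) :
    spS m (spCj (spRho t m) (t 1)) (spCj (spRho t m) (t 0)) ≠ ⊥ := by
  have ha := h.ann (by omega) hc
  have e0 : N (spCj (spRho t m) (t 0)) 0 = N t 0 := by rw [N, N, spCj_zero]
  have e1 : N (spCj (spRho t m) (t 0)) 1 * t 0 = t 0 * N t 1 := by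
    rw [N, N, sub_mul, mul_sub, ← Units.val_mul, h.spCj_e1 (by omega), Units.val_mul, one_mul,
      mul_one]
  have e2 : N (spCj (spRho t m) (t 1)) (m - 2) = N t (m - 1) := by
    rw [N, N, h.spCj_one (by omega), show m - 2 + 1 = m - 1 by omega]
  have c0 := h.commute_NN (a := 0) (b := m - 1) (by omega) (by omega) (Or.inl (by omega))
  have c1 := h.commute_NN (a := 1) (b := m - 1) (by omega) (by omega) (Or.inl (by omega))
  have c2 := h.commute_tN (a := 0) (b := m - 1) (by omega) (by omega) (Or.inl (by omega))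
  have c3 : Commute ((t 0 : End K V) * Z t 0) (N t (m - 1)) :=
    c2.mul_left ((c0.add_left (c0.mul_left c0)).add_left ((c0.mul_left c1).mul_left c0))
  intro h0
  refine hZ (LinearMap.ext fun x => ?_)
  have hy : ((t 0 : End K V) * Z t 0 * N t (m - 1)) x ∈
      spQ (spCj (spRho t m) (t 1)) (spCj (spRho t m) (t 0)) (m - 2) (m - 2 + 2) := by
    rw [show m - 2 + 2 = 0 + m by omega, ha.Q_per, c3.eq]
    refine ⟨⟨((t 0 : End K V) * (1 + N t 0 + N t 1 * N t 0)) x, ?_⟩,
      ((t 0 : End K V) * (1 + N t 1 + N t 0 * N t 1)) x, ?_⟩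
    · rw [e0, e2, ← End.mul_apply, mul_assoc, ← mul_assoc (N t 0), ← (commute_tN_self 0).eq,
        mul_assoc, Z]
      simp only [mul_add, mul_one, mul_assoc, zero_add]
    · rw [zero_add, e2, ← End.mul_apply, mul_assoc, ← mul_assoc (N _ 1), e1, mul_assoc,
        h.Z_eq (by omega)]
      simp only [mul_add, mul_one, mul_assoc, zero_add]
  have h1 := spQ_le (m := m) (by omega) hy
  rw [h0, Submodule.mem_bot, mul_assoc, End.mul_apply] at h1
  rw [← inv_apply_apply (t 0) ((Z t 0 * N t (m - 1)) x), h1, map_zero, LinearMap.zero_apply]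

end Ann

theorem IsBraid.exists_supports (h : IsBraid m t) (hm : 54 ≤ m) (hirr : Irr m t)
    (hc : Cube m t) (hZ : Z t 0 * N t (m - 1) ≠ 0) :
    ∃ S : ℕ → Submodule K V, (⨆ i ∈ Set.Iic m, S i) = ⊤ ∧
      (∀ j < m, ∀ i ≤ m, ∀ y ∈ S i, (t j : End K V) y ∈ S (Equiv.swap j (j + 1) i)) ∧
      (∀ i ≤ m, ∀ a < m, ∀ b < m, Fa a b → a ≠ i → a + 1 ≠ i → b ≠ i → b + 1 ≠ i →
        ∀ y ∈ S i, N t a (N t b y) = 0) := by
  have ha := h.ann (by omega) hc
  have hne := h.spS_ne (by omega) hc hZ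
  obtain ⟨S, hS⟩ : ∃ S, S = spS m (spCj (spRho t m) (t 1)) (spCj (spRho t m) (t 0)) := ⟨_, rfl⟩
  have h1 : ∀ i, 1 ≤ i → i < m → t i ∈ stabS S := fun i h1 h2 y hy => by
    obtain ⟨i, rfl⟩ : ∃ i', i = i' + 1 := ⟨i - 1, by omega⟩
    rw [← h.spCj_one h2, hS]
    exact ha.S_arc (by omega) (by omega) (hS ▸ hy)
  have h0 : t 0 * t 0 ∈ stabS S := by
    have h2 : spRho t m ∈ stabS S := fun y hy => hS ▸ ha.S_rot (hS ▸ hy)
    obtain ⟨k, rfl⟩ : ∃ k, m = k + 1 := ⟨m - 1, by omega⟩
    rw [spRho, up_succ', ← mul_assoc] at h2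
    exact (mul_mem_cancel_right (up_mem fun i hi => h1 (i + 1) (by omega) (by omega))).1 h2
  have hk : ∀ a b, 1 ≤ a → a < m → 1 ≤ b → b < m → Fa a b → ∀ y ∈ S, N t a (N t b y) = 0 := by
    intro a b a1 a2 b1 b2 hab y hy
    obtain ⟨a, rfl⟩ : ∃ a', a = a' + 1 := ⟨a - 1, by omega⟩
    obtain ⟨b, rfl⟩ : ∃ b', b = b' + 1 := ⟨b - 1, by omega⟩
    have := ha.S_kill (by omega) a2 b2 (by unfold Fa at *; omega) (hS ▸ hy)
    rwa [N, N, h.spCj_one a2, h.spCj_one b2] at this
  have hmove : ∀ (j i i' : ℕ) (g : (End K V)ˣ), g ∈ stabS S → t j * dn t i = dn t i' * g →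
      ∀ y ∈ S.map ((dn t i : (End K V)ˣ) : End K V),
        (t j : End K V) y ∈ S.map ((dn t i' : (End K V)ˣ) : End K V) := by
    rintro j i i' g hg e _ ⟨x, hx, rfl⟩
    refine ⟨(g : End K V) x, hg x hx, ?_⟩
    rw [← End.mul_apply, ← Units.val_mul, ← e, Units.val_mul, End.mul_apply]
  have h2 : ∀ j < m, ∀ i ≤ m, ∀ y ∈ S.map ((dn t i : (End K V)ˣ) : End K V), (t j : End K V) y ∈
      S.map ((dn t (Equiv.swap j (j + 1) i) : (End K V)ˣ) : End K V) := by
    intro j hj i hi
    by_cases e1 : i = j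
    · rw [e1, Equiv.swap_apply_left]
      exact hmove _ _ _ 1 (one_mem _) (by rw [dn, mul_one])
    by_cases e2 : i = j + 1
    · rw [e2, Equiv.swap_apply_right]
      exact hmove _ _ _ _ (h.dn_sq h0 h1 hj) (by rw [dn]; group)
    rw [Equiv.swap_apply_of_ne_of_ne e1 e2]
    rcases le_or_gt (j + 2) i with h3 | h3
    · exact hmove _ _ _ _ (h1 (j + 1) (by omega) (by omega)) (h.dn_conj h3 hi).symm
    · exact hmove _ _ _ _ (h1 j (by omega) hj) (h.dn_commute (by omega) hj).eq.symm
  refine ⟨fun i => S.map ((dn t i : (End K V)ˣ) : End K V), ?_, h2, ?_⟩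
  · refine (hirr _ fun j hj y hy => ?_).resolve_left fun hb => hne ?_
    · refine Submodule.mem_comap.1
        (iSup₂_le (a := Submodule.comap (t j : End K V) _) (fun i hi y hy => ?_) hy)
      refine le_iSup₂ (f := fun i (_ : i ∈ Set.Iic m) => S.map ((dn t i : (End K V)ˣ) : End K V))
        _ ?_ (h2 j hj i hi y hy)
      have hi' : i ≤ m := hi
      rw [Set.mem_Iic, Equiv.swap_apply_def]
      split_ifs <;> omega
    · have := le_iSup₂ (f := fun i (_ : i ∈ Set.Iic m) =>
        S.map ((dn t i : (End K V)ˣ) : End K V)) 0 (Nat.zero_le m)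
      rw [hb, dn, Units.val_one, End.one_eq_id, Submodule.map_id, hS] at this
      exact le_bot_iff.1 this
  · rintro i hi a a1 b b1 hab a2 a3 b2 b3 _ ⟨y, hy, rfl⟩
    have key : ∀ a < m, a ≠ i → a + 1 ≠ i → ∀ x, N t a (((dn t i : (End K V)ˣ) : End K V) x) =
        ((dn t i : (End K V)ˣ) : End K V) (N t (if a < i then a + 1 else a) x) := by
      intro a a1 a2 a3 x
      rw [← End.mul_apply, ← End.mul_apply]
      split_ifs with h3
      · rw [conj_N (h.dn_conj (by omega) hi)]
      · rw [conj_N (h.dn_commute (by omega) a1).eq]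
    rw [key b b1 b2 b3, key a a1 a2 a3, hk _ _ (by split_ifs <;> omega) (by split_ifs <;> omega)
      (by split_ifs <;> omega) (by split_ifs <;> omega)
      (by unfold Fa at *; split_ifs <;> omega) y hy, map_zero]

end Pool.Agent.MP_b64966_al

end

-- part MP_b64966_al.SLine
section

namespace Pool.Agent.MP_b64966_al

open Module
open scoped commutatorElement

variable {K V : Type*} [Field K] [AddCommGroup V] [Module K V] [FiniteDimensional K V]
  {m : ℕ} {t : ℕ → (End K V)ˣ}

omit [FiniteDimensional K V] in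
theorem sline_unit_inj (g : (End K V)ˣ) {y : V} (hy : (g : End K V) y = 0) : y = 0 := by
  have := congrArg ((g⁻¹ : (End K V)ˣ) : End K V) hy
  rwa [← Module.End.mul_apply, Units.inv_mul, map_zero, Module.End.one_apply] at this

omit [FiniteDimensional K V] in
theorem IsBraid.sline_inj (h : IsBraid m t) (hZ : Z t 0 * N t (m - 1) = 0) {a b : ℕ}
    (ha : a + 1 < m) (hb : b < m) (hab : a + 3 ≤ b ∨ b + 2 ≤ a) {v : V}
    (hv : N t (a + 1) (N t a (N t b v)) = 0) : N t a (N t b v) = 0 := by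
  have h1 := LinearMap.congr_fun (h.ZN_eq_zero hZ ha hb hab) v
  simp only [Z, Module.End.mul_apply, LinearMap.add_apply, hv, map_zero, add_zero,
    LinearMap.zero_apply] at h1
  refine sline_unit_inj (t a) ?_
  rw [N_apply a (N t a (N t b v)), add_sub_cancel] at h1
  exact h1

theorem sline_rank_ker {X Y : End K V} (hXY : ∀ v, X v = 0 ↔ Y v = 0) :
    finrank K (LinearMap.range X) = finrank K (LinearMap.range Y) := by
  have h1 := LinearMap.finrank_range_add_finrank_ker X
  have h2 := LinearMap.finrank_range_add_finrank_ker Y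
  have h3 : LinearMap.ker X = LinearMap.ker Y := by
    ext v
    exact hXY v
  rw [h3] at h1
  omega

theorem sline_rank_conj {g : (End K V)ˣ} {X Y : End K V} (hg : (g : End K V) * X = Y * g) :
    finrank K (LinearMap.range X) = finrank K (LinearMap.range Y) := by
  have h1 : finrank K (LinearMap.range X) = finrank K (LinearMap.range ((g : End K V) * X)) :=
    sline_rank_ker fun v => ⟨fun hv => by rw [Module.End.mul_apply, hv, map_zero],
      fun hv => sline_unit_inj g hv⟩
  have h2 : LinearMap.range (Y * (g : End K V)) = LinearMap.range Y := by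
    ext y
    constructor
    · rintro ⟨v, rfl⟩
      exact ⟨_, rfl⟩
    · rintro ⟨v, rfl⟩
      refine ⟨((g⁻¹ : (End K V)ˣ) : End K V) v, ?_⟩
      rw [← Module.End.mul_apply, Units.mul_inv_cancel_right]
  rw [h1, hg, h2]

theorem IsBraid.sline_rank (h : IsBraid m t) (hm : 54 ≤ m) (hc : Cube m t)
    (hZ : Z t 0 * N t (m - 1) = 0) (hd : 2 * finrank K V + 2 ≤ (m + 1) * m) :
    finrank K (LinearMap.range (N t 0 * N t 2)) ≤ 1 := by
  by_contra hlt
  have hcm : ∀ a < m, ∀ b < m, Fa a b → ∀ v, N t a (N t b v) = N t b (N t a v) :=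
    fun a ha b hb hab v => LinearMap.congr_fun (h.commute_NN ha hb hab).eq v
  have key := double_count (K := K) (V := V) (m - 2) (fun i j => N t i * N t (j + 1))
    (fun i j => N t (i + 1) * N t (j + 2)) (by
      intro i j hij hj
      have e1 : finrank K (LinearMap.range (N t (i + 1) * N t (j + 2) * (N t i * N t (j + 1))))
          = finrank K (LinearMap.range (N t i * N t (j + 1))) := by
        refine sline_rank_ker fun v => ⟨fun hv => ?_, fun hv => by
          rw [Module.End.mul_apply, hv, map_zero]⟩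
        simp only [Module.End.mul_apply] at hv ⊢
        rw [hcm (j + 2) (by omega) i (by omega) (Or.inr (by omega))] at hv
        have h1 := h.sline_inj hZ (a := i) (b := j + 2) (by omega) (by omega) (Or.inl (by omega)) hv
        rw [hcm i (by omega) (j + 2) (by omega) (Or.inl (by omega)),
          hcm i (by omega) (j + 1) (by omega) (Or.inl (by omega))] at h1
        rw [hcm i (by omega) (j + 1) (by omega) (Or.inl (by omega))]
        exact h.sline_inj hZ (a := j + 1) (b := i) (by omega) (by omega) (Or.inr (by omega)) h1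
      obtain ⟨g, g1, g2⟩ := h.exists_conj_two (a := 0) (b := 2) (a' := i) (b' := j + 1)
        (by omega) (by omega) (by omega) (by omega) (Or.inl le_rfl) (Or.inl (by omega))
      have e2 := sline_rank_conj (g := g) (X := N t 0 * N t 2) (Y := N t i * N t (j + 1)) (by
        rw [← mul_assoc, conj_N g1, mul_assoc, conj_N g2, mul_assoc])
      omega) (by
      intro i j i' j' hij hj hij' hj' h0
      constructor
      · by_contra hi
        apply h0
        rw [← mul_assoc, hc (i + 1) (by omega) (j + 2) (by omega) i' (by omega)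
          (Or.inl (by omega)) (Or.inr (by omega)) (Or.inr (by omega)), zero_mul]
      · by_contra hi
        apply h0
        rw [mul_assoc, ← mul_assoc (N t (j + 2)), hc (j + 2) (by omega) i' (by omega) (j' + 1)
          (by omega) (Or.inr (by omega)) (Or.inr (by omega)) (Or.inl (by omega)), mul_zero])
  obtain ⟨k, rfl⟩ : ∃ k, m = k + 54 := ⟨m - 54, by omega⟩
  rw [show k + 54 - 2 = k + 52 by omega, show k + 52 - 1 = k + 51 by omega] at key
  nlinarith

theorem IsBraid.exists_line (h : IsBraid m t) (hm : 54 ≤ m) (hc : Cube m t)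
    (hZ : Z t 0 * N t (m - 1) = 0) (hNN : N t 0 * N t 2 ≠ 0)
    (hd : 2 * finrank K V + 2 ≤ (m + 1) * m) :
    ∃ q : K, q ≠ 0 ∧ (∀ a < m, ∀ b < m, Fa a b → ff t q a * N t b = 0) ∧
      ∃ w : V, ∀ v, ∃ c : K, N t 0 (N t 2 v) = c • w := by
  obtain ⟨⟨w, hw⟩, H⟩ := finrank_le_one_iff.1 (h.sline_rank hm hc hZ hd)
  have H' : ∀ v, ∃ c : K, N t 0 (N t 2 v) = c • w := fun v => by
    obtain ⟨c, hc⟩ := H ⟨_, v, rfl⟩
    exact ⟨c, (congrArg Subtype.val hc).symm⟩
  have hw0 : w ≠ 0 := by
    rintro rfl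
    refine hNN (LinearMap.ext fun v => ?_)
    obtain ⟨c, hc⟩ := H' v
    rw [Module.End.mul_apply, hc, smul_zero, LinearMap.zero_apply]
  obtain ⟨lam, hlam⟩ : ∃ lam : K, (t 0 : End K V) w = lam • w := by
    obtain ⟨v, rfl⟩ := hw
    obtain ⟨c, hc⟩ := H' ((t 0 : End K V) v)
    refine ⟨c, ?_⟩
    rw [← hc]
    exact LinearMap.congr_fun ((commute_tN_self 0).mul_right
      (h.commute_tN (a := 0) (b := 2) (by omega) (by omega) (Or.inl le_rfl))).eq v
  have h0 : ff t (-lam) 0 * N t 2 = 0 := by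
    refine LinearMap.ext fun v => ?_
    obtain ⟨c, hc⟩ := H' v
    rw [Module.End.mul_apply, ff_apply, hc, map_smul, hlam, smul_comm c, neg_smul, add_neg_cancel,
      LinearMap.zero_apply]
  refine ⟨-lam, neg_ne_zero.2 ?_, fun a ha b hb hab => ?_, w, H'⟩
  · rintro rfl
    exact hw0 (sline_unit_inj (t 0) (by rw [hlam, zero_smul]))
  · obtain ⟨g, g1, g2⟩ := h.exists_conj_two (a := 0) (b := 2) (by omega) (by omega) ha hb
      (Or.inl le_rfl) hab
    refine (zero_iff_of_conj (u := g) ?_).1 h0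
    rw [← mul_assoc, conj_ff _ g1, mul_assoc, conj_N g2, mul_assoc]

end Pool.Agent.MP_b64966_al

end
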