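import Pool.Agent.MP_b64966_al.SLkbA
import Pool.Agent.MP_b64966_al.SBase
import Pool.Agent.MP_b64966_al.Mg.SLine

-- part MP_b64966_al.SLkb
section

namespace Pool.Agent.MP_b64966_al

open Module

variable {K V : Type*} [Field K] [AddCommGroup V] [Module K V] [FiniteDimensional K V]
  {m : ℕ} {t : ℕ → (End K V)ˣ} {q T : K} {E : (End K V)ˣ} {xs : ℕ → V}

namespace LK

omit [FiniteDimensional K V] in
theorem n0_n (L : LK m t q T E xs) {k : ℕ} (hk : k + 2 < m) :
    N t 0 (N t (k + 2) (xs (k + 1))) = q ^ 2 • (u E xs k - u E xs (k + 1)) ∧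
    N t 0 (N t (k + 2) (xs (k + 2))) = (-q) • (u E xs k - u E xs (k + 1)) := by
  constructor
  · rw [N_apply (k + 2), L.f4 hk]
    simp only [map_add, map_sub, map_smul, L.n0_two (i := k + 1 + 1) (d := 0) (by omega) hk,
      L.n0_succ hk, L.n0_succ (d := k) (by omega)]
    module
  · rw [N_apply (k + 2), L.step]
    simp only [map_sub, L.n0_succ hk, L.n0_succ (d := k) (by omega)]
    module

omit [FiniteDimensional K V] in
theorem n_u (L : LK m t q T E xs) {k l : ℕ} (hk : k + 2 < m) (hl : l + 1 < m) :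
    N t (k + 2) (u E xs l) = (if l = k then -q else if l = k + 1 then 1 else 0) •
      (u E xs k - u E xs (k + 1)) := by
  have hu : ∀ d, d + 1 < m → (t 0 : End K V) (u E xs d) = N t 0 (xs (d + 1)) := by
    intro d hd
    rw [u, map_sub, L.f5 hd, N_apply]
  have hc := (L.br.commute_tN (a := 0) (b := k + 2) (by omega) hk (Or.inl (by omega))).eq
  have hc' := (L.br.commute_NN (a := 0) (b := k + 2) (by omega) hk (Or.inl (by omega))).eq
  refine unit_inj (t 0) ?_
  rw [← Module.End.mul_apply, hc, Module.End.mul_apply, hu l hl, ← Module.End.mul_apply, ← hc',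
    Module.End.mul_apply, map_smul, map_sub, hu k (by omega), hu (k + 1) hk,
    L.n0_succ hk, L.n0_succ (d := k) (by omega)]
  split_ifs with h1 h2
  · rw [h1, (L.n0_n hk).1]
    module
  · rw [h2, (L.n0_n hk).2]
    module
  · have : (t (k + 2) : End K V) (xs (l + 1)) = xs (l + 1) := by
      by_cases h3 : l < k
      · exact L.f1 (by omega) hk
      · exact L.f2 (by omega) (by omega) hl
    rw [N_apply (k + 2), this, sub_self, map_zero, zero_smul]

omit [FiniteDimensional K V] in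
theorem om_zero (L : LK m t q T E xs) :
    N t 0 (N t 2 ((E : End K V) (xs 0))) = (-q) • (u E xs 0 - u E xs 1) := by
  have hm := L.hm
  rw [N_apply 2, ← L.conj (i := 1) (by omega), L.b4]
  have := L.n0_two (i := 2) (d := 0) le_rfl (by omega)
  rw [← Y_succ, Y_one] at this
  simp only [map_add, map_sub, map_smul, this, L.n0_one (d := 0) (by omega),
    L.n0_one (d := 1) (by omega)]
  module

omit [FiniteDimensional K V] in
theorem om_ne (L : LK m t q T E xs) {k : ℕ} (hk : k + 2 < m) : u E xs k - u E xs (k + 1) ≠ 0 := by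
  induction k with
  | zero =>
    intro h0
    exact L.om (by rw [L.om_zero, h0, smul_zero])
  | succ k ih =>
    intro h0
    apply ih (by omega)
    have h1 := congrArg (fun y => (t (k + 3) : End K V) ((t (k + 2) : End K V) y)) h0
    simp only [u, map_sub, map_zero] at h1
    rw [L.step (k + 1), L.stepE (by omega), L.f1 (d := k + 1) le_rfl hk,
      L.f2 (d := k + 1 + 1 + 1) (by omega) le_rfl hk, L.step (k + 1 + 1),
      ← L.conj (i := k + 1) (y := xs (k + 1 + 1)) (by omega),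
      L.f2 (d := k + 1 + 1) (by omega) le_rfl (by omega), L.stepE hk,
      ← L.conj (i := k + 2) hk, L.f1 (d := k) le_rfl (by omega)] at h1
    exact h1

omit [FiniteDimensional K V] in
theorem geom (L : LK m t q T E xs) {α : ℕ → K} {β : K}
    (h0 : ∑ l ∈ Finset.range (m - 1), α l • u E xs l + β • xs 0 = 0) {l : ℕ} (hl : l + 1 < m) :
    α l = q ^ l * α 0 := by
  induction l with
  | zero => simp
  | succ k ih =>
    have h1 := DFunLike.congr_arg (N t (k + 2)) h0
    rw [map_add, map_smul, N_apply _ (xs 0), L.fix _ (by omega) hl, sub_self, smul_zero, add_zero,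
      map_zero, map_sum, Finset.sum_eq_add_of_mem k (k + 1) (by simp; omega) (by simp; omega)
        (by omega), map_smul, map_smul, L.n_u hl (by omega), L.n_u hl hl, if_pos rfl,
      if_neg (by omega), if_pos rfl, smul_smul, smul_smul, ← add_smul, smul_eq_zero] at h1
    · have h2 := h1.resolve_right (L.om_ne hl)
      rw [pow_succ]
      linear_combination h2 + q * ih (by omega)
    · intro c hc hne
      rw [Finset.mem_range] at hc
      rw [map_smul, L.n_u hl (by omega), if_neg hne.1, if_neg hne.2, zero_smul, smul_zero]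

omit [FiniteDimensional K V] in
theorem ff_om (L : LK m t q T E xs) : ff t q 1 (u E xs 0 - u E xs 1)
    = (q ^ 2 * (1 + T) * (1 - T * q)) • (E : End K V) (xs 0) := by
  have hm := L.hm
  have e0 : (t 1 : End K V) ((E : End K V) (xs 0)) = (T * q ^ 2) • (E : End K V) (xs 0) := by
    rw [← L.conj (i := 0) (by omega), L.b0, map_smul]
  have e1 : (t 1 : End K V) (xs 1) = xs 0 := L.step 0
  have e2 : (t 1 : End K V) (xs 2) = xs 2 := L.f2 le_rfl le_rfl (by omega)
  have e3 : (t 1 : End K V) ((E : End K V) ((E : End K V) (xs 0))) = (E : End K V) (xs 1) := by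
    rw [← L.conj (i := 0) (by omega), L.b5]
  have e4 : (t 1 : End K V) ((E : End K V) (xs 1)) = (1 - q) • (E : End K V) (xs 1)
      + q • (E : End K V) ((E : End K V) (xs 0)) + ((q ^ 2 - q) * T) • (E : End K V) (xs 0) := by
    rw [← L.conj (i := 0) (by omega), L.b7, map_add, map_add, map_smul, map_smul, map_smul]
  simp only [ff_apply, N_apply, u, map_sub, map_add, map_smul, zero_add, Nat.reduceAdd, e0, e1, e2,
    e3, e4, L.b4]
  module

theorem case_one (L : LK m t q T E xs) (hirr : Irr m t) (hT : (1 + T) * (1 - T * q) ≠ 0) {c : K}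
    (h0 : ∑ l ∈ Finset.range (m - 1), q ^ l • u E xs l + c • xs 0 = 0) :
    ((zz t m : (End K V)ˣ) : End K V) = q ^ 2 • 1 := by
  have hm := L.hm
  set G : K := ∑ l ∈ Finset.range (m - 1), q ^ l with hG
  have hG1 : G * (q - 1) = q ^ (m - 1) - 1 := geom_sum_mul q (m - 1)
  have eq1 : c * (T * q ^ 2 + q) + (q ^ 2 - q) * T * G = 0 := by
    have h1 := DFunLike.congr_arg (N t 0) h0
    have h2 : ∑ l ∈ Finset.range (m - 1), N t 0 (q ^ l • u E xs l)
        = (-(q + 1)) • ∑ l ∈ Finset.range (m - 1), q ^ l • u E xs l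
          + ((q ^ 2 - q) * T * G) • xs 0 := by
      rw [hG, Finset.mul_sum, Finset.sum_smul, Finset.smul_sum, ← Finset.sum_add_distrib]
      refine Finset.sum_congr rfl fun l hl => ?_
      rw [Finset.mem_range] at hl
      conv_lhs => rw [u]
      rw [map_smul, map_sub, L.n0_succ (by omega), L.n0_one (by omega)]
      module
    rw [map_add, map_sum, h2, map_smul, L.n0_zero, map_zero, eq_neg_of_add_eq_zero_left h0] at h1
    have h3 : (c * (T * q ^ 2 + q) + (q ^ 2 - q) * T * G) • xs 0 = 0 := by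
      rw [← h1]
      module
    exact (smul_eq_zero.1 h3).resolve_right L.ne
  have eq2 : 1 - q * c = T * q ^ m := by
    obtain ⟨k, rfl⟩ : ∃ k, m = k + 3 := ⟨m - 3, by omega⟩
    have h1 := congrArg (fun y => N t 0 (N t (k + 2) (((E⁻¹ : (End K V)ˣ) : End K V) (T • y)))) h0
    have hinv : ∀ d, d < k + 3 → ((E⁻¹ : (End K V)ˣ) : End K V) (T • xs d)
        = Y E xs d (k + 2 - d) := by
      intro d hd
      rw [← L.f8 hd, ← Y_succ, inv_apply_apply]
      rfl
    have hc := (L.br.commute_NN (a := 0) (b := k + 2) (by omega) (by omega) (Or.inl (by omega))).eq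
    have h2 : ∀ l ∈ Finset.range (k + 3 - 1),
        N t 0 (N t (k + 2) (((E⁻¹ : (End K V)ˣ) : End K V) (T • q ^ l • u E xs l)))
        = ((if l = 0 then 1 else 0) + (if l = k + 1 then -(T * q ^ (k + 3)) else 0)) •
          (u E xs k - u E xs (k + 1)) := by
      intro l hl
      rw [Finset.mem_range] at hl
      rw [smul_comm, map_smul, map_smul, map_smul, u, smul_sub, map_sub, hinv _ (by omega),
        map_smul, inv_apply_apply, map_sub, map_sub, map_smul, map_smul]
      have a1 : N t 0 (N t (k + 2) (Y E xs (l + 1) (k + 2 - (l + 1))))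
          = (if l = 0 then (1 : K) else 0) • (u E xs k - u E xs (k + 1)) := by
        split_ifs with h3
        · subst h3
          rw [zero_add, Y_one, show k + 2 - 1 = k + 1 by omega, N_apply (k + 2),
            L.stepE (by omega), map_sub, L.n0_one (by omega), L.n0_one (by omega), one_smul]
        · rw [← Module.End.mul_apply, hc, Module.End.mul_apply, L.n0_two (by omega) (by omega),
            map_zero, zero_smul]
      have a2 : N t 0 (N t (k + 2) (xs l))
          = (if l = k + 1 then q ^ 2 else 0) • (u E xs k - u E xs (k + 1)) := by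
        split_ifs with h3
        · rw [h3, (L.n0_n (by omega)).1]
        · rw [N_apply (k + 2), L.f1 (by omega) (by omega), sub_self, map_zero, zero_smul]
      rw [a1, a2]
      by_cases h3 : l = 0
      · subst h3
        simp
      by_cases h4 : l = k + 1
      · subst h4
        simp only [h3, if_true, if_false]
        module
      · simp [h3, h4]
    simp only [smul_add, Finset.smul_sum, map_add, map_sum, smul_zero, map_zero] at h1
    rw [Finset.sum_congr rfl h2, ← Finset.sum_smul, Finset.sum_add_distrib, Finset.sum_ite_eq',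
      Finset.sum_ite_eq', if_pos (by simp), if_pos (by simp), smul_comm T c, map_smul, map_smul,
      map_smul, hinv 0 (by omega), Y_zero, Nat.sub_zero, (L.n0_n (by omega)).2, smul_smul,
      ← add_smul, smul_eq_zero] at h1
    linear_combination h1.resolve_right (L.om_ne (by omega))
  let W : Submodule K V := LinearMap.ker (((zz t m : (End K V)ˣ) : End K V) - q ^ 2 • 1)
  have hW : ∀ y, y ∈ W ↔ ((zz t m : (End K V)ˣ) : End K V) y = q ^ 2 • y := fun y => by
    simp [W, sub_eq_zero]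
  have hst : ∀ k, k + 1 < m → t (k + 1) ∈ stabS W := by
    intro k hk y hy
    rw [hW] at hy ⊢
    rw [units_commute_apply (L.br.zz_commute hk), hy, map_smul]
  have hst' : ∀ k, k + 1 < m → ∀ y, (t (k + 1) : End K V) y ∈ W → y ∈ W := by
    intro k hk y hy
    have := inv_mem (hst k hk) _ hy
    rwa [inv_apply_apply] at this
  have w0 : (E : End K V) (xs 0) ∈ W := by
    have h1 : ∀ j, 2 ≤ j → j ≤ m →
        ((dn t j : (End K V)ˣ) : End K V) ((E : End K V) (xs 0)) = xs 0 := by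
      intro j h2 hj
      induction j, h2 using Nat.le_induction with
      | base => simp [dn, L.b5, L.step 0]
      | succ j h2 ih =>
        rw [dn, Units.val_mul, Module.End.mul_apply, ih (by omega), L.fix j h2 hj]
    rw [hW, zz, Units.val_mul, Module.End.mul_apply, h1 m (by omega) le_rfl, L.up_eq,
      LinearMap.smul_apply]
  have w1 : ∀ d, d + 1 < m → (E : End K V) (xs d) ∈ W := by
    intro d
    induction d with
    | zero => exact fun _ => w0
    | succ d ih => exact fun hd => hst' (d + 1) hd _ (by rw [L.stepE hd]; exact ih (by omega))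
  have w2 : ∀ i d, i + 1 + d < m → Y E xs (i + 1) d ∈ W := by
    intro i
    induction i with
    | zero => intro d hd; rw [zero_add, Y_one]; exact w1 d (by omega)
    | succ i ih =>
      intro d hd
      refine hst' i (by omega) _ ?_
      have h1 := units_conj_apply (L.pow_conj (i := 0) (j := i + 1) (by omega))
        ((E : End K V) (xs d))
      rw [L.f5 (by omega), zero_add, ← Y_one (E := E) (xs := xs) d, Y_add] at h1
      rw [← h1]
      exact ih (d + 1) (by omega)
  have w3 : ∑ l ∈ Finset.range (m - 1), q ^ l • xs (l + 1) + c • xs 0 ∈ W := by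
    have h1 : ∑ l ∈ Finset.range (m - 1), q ^ l • xs (l + 1) + c • xs 0
        = ∑ l ∈ Finset.range (m - 1), q ^ l • (E : End K V) (xs l) := by
      simp only [u, smul_sub, Finset.sum_sub_distrib] at h0
      linear_combination (norm := module) h0
    rw [h1]
    exact W.sum_mem fun l hl => W.smul_mem _ (w1 l (by rw [Finset.mem_range] at hl; omega))
  have w4 : xs 0 - xs 1 ∈ W := by
    have h1 := W.sub_mem (hst 0 (by omega) _ w3) w3
    rw [← N_apply, map_add, map_sum, Finset.sum_eq_single_of_mem 0 (by simp; omega), map_smul,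
      map_smul, N_apply, N_apply, L.step 0, L.b4] at h1
    · have h2 := W.sub_mem h1 (W.smul_mem (c * (q ^ 2 - q)) w0)
      have h3 : T * q ^ m ≠ 0 := mul_ne_zero L.T0 (pow_ne_zero _ L.q0)
      rw [← W.smul_mem_iff h3, ← eq2]
      have e : (1 - q * c) • (xs 0 - xs 1) = q ^ 0 • (xs 0 - xs (0 + 1)) +
          c • ((1 - q) • xs 0 + q • xs 1 + (q ^ 2 - q) • (E : End K V) (xs 0) - xs 0)
          - (c * (q ^ 2 - q)) • (E : End K V) (xs 0) := by
        simp only [zero_add]
        module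
      rwa [e]
    · intro l hl hne
      rw [Finset.mem_range] at hl
      rw [map_smul, N_apply, L.f2 le_rfl (by omega) (by omega), sub_self, smul_zero]
  have w5 : ∀ d, d + 1 < m → xs 0 - xs (d + 1) ∈ W := by
    intro d
    induction d with
    | zero => exact fun _ => w4
    | succ d ih =>
      intro hd
      refine hst' (d + 1) hd _ ?_
      rw [map_sub, L.step, L.fix _ (by omega) hd]
      exact ih (by omega)
  have w6 : (c + G) • xs 0 ∈ W := by
    have h1 : (c + G) • xs 0 = ∑ l ∈ Finset.range (m - 1), q ^ l • xs (l + 1) + c • xs 0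
        + ∑ l ∈ Finset.range (m - 1), q ^ l • (xs 0 - xs (l + 1)) := by
      simp only [smul_sub, Finset.sum_sub_distrib, ← Finset.sum_smul, ← hG]
      module
    rw [h1]
    exact W.add_mem w3
      (W.sum_mem fun l hl => W.smul_mem _ (w5 l (by rw [Finset.mem_range] at hl; omega)))
  have hcG : c + G ≠ 0 := by
    intro h1
    have h2 : c * (1 + T) = 0 := by
      refine mul_left_cancel₀ L.q0 ?_
      linear_combination eq1 - (q ^ 2 - q) * T * h1
    have h3 : c = 0 := (mul_eq_zero.1 h2).resolve_right (left_ne_zero_of_mul hT)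
    have h4 : G = 0 := by rwa [h3, zero_add] at h1
    apply right_ne_zero_of_mul hT
    have h5 : q ^ m = q * q ^ (m - 1) := by rw [← pow_succ', Nat.sub_add_cancel (by omega)]
    rw [h4, zero_mul] at hG1
    rw [h3, h5] at eq2
    linear_combination eq2 - T * q * hG1
  have w7 : xs 0 ∈ W := (W.smul_mem_iff hcG).1 w6
  have htop := L.eq_top hirr (W := W) fun i d hid => by
    rcases i with _ | i
    · rw [Y_zero]
      rcases d with _ | d
      · exact w7
      · simpa using W.sub_mem w7 (w5 d (by omega))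
    · exact w2 i d hid
  ext y
  exact (hW y).1 (htop ▸ Submodule.mem_top)

end LK

theorem LK.case_dep (L : LK m t q T E xs) (hirr : Irr m t)
    (hf : ∀ a < m, ∀ b < m, Fa a b → ff t q a * N t b = 0) (hNN : N t 0 * N t 2 ≠ 0)
    (hw : ∃ w : V, ∀ v, ∃ c : K, N t 0 (N t 2 v) = c • w) (hf0 : ff t q 0 ≠ 0)
    (hind : ¬ ∀ (α : ℕ → K) (β : K),
      ∑ l ∈ Finset.range (m - 1), α l • LK.u E xs l + β • xs 0 = 0 → ∀ l, l + 1 < m → α l = 0) :
    ∃ c : K, ((zz t m : (End K V)ˣ) : End K V) = c • 1 := by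
  push Not at hind
  obtain ⟨α, β, h0, l, hl, hα⟩ := hind
  have hα0 : α 0 ≠ 0 := fun h1 => hα (by rw [L.geom h0 hl, h1, mul_zero])
  refine ⟨q ^ 2, L.case_one hirr ?_ (c := (α 0)⁻¹ * β) ?_⟩
  · intro hT
    obtain ⟨w, hw⟩ := hw
    obtain ⟨c0, hc0⟩ := hw ((E : End K V) (xs 0))
    have hc : c0 ≠ 0 := by
      rintro rfl
      exact L.om (by rw [hc0, zero_smul])
    have h1 : ff t q 1 w = 0 := by
      have h2 := congrArg (ff t q 1) hc0
      rw [L.om_zero, map_smul, L.ff_om, mul_assoc, hT, mul_zero, zero_smul, smul_zero,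
        map_smul] at h2
      exact (smul_eq_zero.1 h2.symm).resolve_left hc
    refine L.br.ff_NN_ne_zero L.hm hirr L.q0 hf hNN hf0 (LinearMap.ext fun v => ?_)
    obtain ⟨c, hc⟩ := hw v
    rw [Module.End.mul_apply, Module.End.mul_apply, hc, map_smul, h1, smul_zero,
      LinearMap.zero_apply]
  · refine smul_right_injective _ hα0 ?_
    simp only [smul_add, smul_zero, Finset.smul_sum, smul_smul]
    rw [mul_inv_cancel_left₀ hα0, ← h0]
    congr 1
    refine Finset.sum_congr rfl fun l hl => ?_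
    rw [Finset.mem_range] at hl
    rw [L.geom h0 (l := l) (by omega), mul_comm]

end Pool.Agent.MP_b64966_al

end

-- part MP_b64966_al.SWa
section

namespace Pool.Agent.MP_b64966_al

open Module Finset

variable {K V : Type*} [Field K] [AddCommGroup V] [Module K V]
  {m : ℕ} {t : ℕ → (End K V)ˣ} {q T : K} {E : (End K V)ˣ} {xs : ℕ → V}

/-- The descending product `s (k + r - 1) * ⋯ * s k`. -/
def dd {G : Type*} [Group G] (s : ℕ → G) : ℕ → ℕ → G
  | _, 0 => 1
  | k, r + 1 => dd s (k + 1) r * s k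

theorem dd_succ' {G : Type*} [Group G] (s : ℕ → G) (k r : ℕ) :
    dd s k (r + 1) = s (k + r) * dd s k r := by
  induction r generalizing k with
  | zero => simp [dd]
  | succ r ih =>
    rw [dd, ih, dd, mul_assoc, show k + 1 + r = k + (r + 1) by omega]

theorem dn_eq_dd {G : Type*} [Group G] (s : ℕ → G) (j : ℕ) : dn s j = dd s 0 j := by
  induction j with
  | zero => rfl
  | succ j ih => rw [dn, dd_succ', ih, zero_add]

theorem dd_apply (k r : ℕ) (y : V) : ((dd t k (r + 1) : (End K V)ˣ) : End K V) y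
    = ((dd t (k + 1) r : (End K V)ˣ) : End K V) ((t k : End K V) y) := by
  rw [dd, Units.val_mul, Module.End.mul_apply]

theorem dd_fix {k r : ℕ} {y : V} (hy : ∀ j, k ≤ j → j < k + r → (t j : End K V) y = y) :
    ((dd t k r : (End K V)ˣ) : End K V) y = y := by
  induction r generalizing k with
  | zero => simp [dd]
  | succ r ih =>
    rw [dd_apply, hy k le_rfl (by omega)]
    exact ih fun j h1 h2 => hy j (by omega) (by omega)

namespace LK

/-- A linear combination of all chords. -/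
def comb (m : ℕ) (E : (End K V)ˣ) (xs : ℕ → V) (c : ℕ → ℕ → K) : V :=
  ∑ i ∈ range m, ∑ d ∈ range (m - i), c i d • Y E xs i d

/-- The coefficients after a backward rotation. -/
def back (m : ℕ) (T : K) (c : ℕ → ℕ → K) (i d : ℕ) : K :=
  if i + 1 + d < m then c (i + 1) d else T⁻¹ * c 0 i

theorem comb_back (L : LK m t q T E xs) (c : ℕ → ℕ → K) :
    (E : End K V) (comb m E xs (back m T c)) = comb m E xs c := by
  have hm := L.hm
  obtain ⟨k, rfl⟩ : ∃ k, m = k + 1 := ⟨m - 1, by omega⟩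
  have h1 : ∀ i ∈ range (k + 1), (E : End K V) (∑ d ∈ range (k + 1 - i),
      back (k + 1) T c i d • Y E xs i d)
      = ∑ d ∈ range (k + 1 - (i + 1)), c (i + 1) d • Y E xs (i + 1) d + c 0 i • Y E xs 0 i := by
    intro i hi
    rw [mem_range] at hi
    rw [show k + 1 - i = k + 1 - (i + 1) + 1 by omega, sum_range_succ, map_add, map_sum]
    congr 1
    · refine sum_congr rfl fun d hd => ?_
      rw [mem_range] at hd
      rw [map_smul, Y_succ, back, if_pos (by omega)]
    · have h2 := L.f8 (d := i) hi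
      rw [show k + 1 - 1 - i = k + 1 - (i + 1) by omega] at h2
      rw [map_smul, Y_succ, back, if_neg (by omega), h2, Y_zero, smul_smul, mul_comm T⁻¹,
        mul_assoc, inv_mul_cancel₀ L.T0, mul_one]
  unfold comb
  rw [map_sum, sum_congr rfl h1, sum_add_distrib, sum_range_succ]
  conv_rhs => rw [sum_range_succ']
  simp

theorem comb_rel (L : LK m t q T E xs)
    (hind : ∀ (α : ℕ → K) (β : K), ∑ l ∈ range (m - 1), α l • u E xs l + β • xs 0 = 0 →
      ∀ l, l + 1 < m → α l = 0) {c : ℕ → ℕ → K} (hc : comb m E xs c = 0) {l : ℕ}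
    (hl : l + 1 < m) : c 1 l = q * c 0 (l + 1) := by
  have hm := L.hm
  obtain ⟨k, rfl⟩ : ∃ k, m = k + 2 := ⟨m - 2, by omega⟩
  have h1 := DFunLike.congr_arg (N t 0) hc
  unfold comb at h1
  rw [sum_range_succ', sum_range_succ', map_add, map_add, map_zero, map_sum,
    sum_eq_zero (fun i hi => by
      rw [map_sum]
      refine sum_eq_zero fun d hd => ?_
      rw [mem_range] at hi hd
      rw [map_smul, L.n0_two (by omega) (by omega), smul_zero]), zero_add, Nat.sub_zero,
    sum_range_succ' _ (k + 1), map_add, map_sum, map_sum] at h1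
  have h2 := hind (fun l => c 1 l - q * c 0 (l + 1))
    ((q ^ 2 - q) * T * ∑ l ∈ range (k + 1), c 0 (l + 1) + c 0 0 * (T * q ^ 2 - 1)) (by
      rw [← h1, show k + 2 - (0 + 1) = k + 1 by omega, map_smul,
        Y_zero, L.n0_zero, add_smul, mul_sum, sum_smul, ← add_assoc, ← add_assoc,
        ← sum_add_distrib, ← sum_add_distrib, smul_smul]
      congr 1
      refine sum_congr rfl fun d hd => ?_
      rw [mem_range] at hd
      rw [map_smul, map_smul, zero_add, Y_one, Y_zero, L.n0_one (by omega), L.n0_succ (by omega)]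
      module) l hl
  exact sub_eq_zero.1 h2

theorem comb_zero (L : LK m t q T E xs)
    (hind : ∀ (α : ℕ → K) (β : K), ∑ l ∈ range (m - 1), α l • u E xs l + β • xs 0 = 0 →
      ∀ l, l + 1 < m → α l = 0) (hT : T * q ^ (m + 1) ≠ 1) {c : ℕ → ℕ → K}
    (hc : comb m E xs c = 0) {i d : ℕ} (hid : i + d < m) : c i d = 0 := by
  have hm := L.hm
  have hb : ∀ c, comb m E xs c = 0 → comb m E xs (back m T c) = 0 := fun c hc =>
    unit_inj E (by rw [L.comb_back, hc, map_zero])
  have h1 : ∀ i c, comb m E xs c = 0 → ∀ l, i + l + 1 < m → c (i + 1) l = q * c i (l + 1) := by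
    intro i
    induction i with
    | zero => exact fun c hc l hl => L.comb_rel hind hc (by omega)
    | succ i ih =>
      intro c hc l hl
      have := ih _ (hb c hc) l (by omega)
      rwa [back, back, if_pos (by omega), if_pos (by omega)] at this
  have h2 : ∀ c, comb m E xs c = 0 → ∀ i d, i + d < m → c i d = q ^ i * c 0 (i + d) := by
    intro c hc i
    induction i with
    | zero => intro d _; simp
    | succ i ih =>
      intro d hd
      rw [h1 i c hc d (by omega), ih (d + 1) (by omega), pow_succ,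
        show i + (d + 1) = i + 1 + d by omega]
      ring
  have h3 : ∀ c, comb m E xs c = 0 → ∀ i, i < m → c 0 i = q ^ i * c 0 0 := by
    intro c hc i hi
    have := h2 _ (hb c hc) i (m - 1 - i) (by omega)
    rw [back, back, if_neg (by omega), if_neg (by omega)] at this
    refine mul_left_cancel₀ (inv_ne_zero L.T0) ?_
    rw [this]
    ring
  have h4 : c 0 0 = 0 := by
    have h5 := h3 _ (hb c hc) (m - 1) (by omega)
    rw [back, back, if_neg (by omega), if_pos (by omega), zero_add, h2 c hc 1 0 (by omega),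
      h3 c hc 1 (by omega)] at h5
    have h6 : q ^ (m + 1) = q ^ (m - 1) * q * q := by
      rw [← pow_succ, ← pow_succ]
      congr 1
      omega
    have h7 : (T * q ^ (m + 1) - 1) * c 0 0 = 0 := by
      have h8 : T * T⁻¹ = 1 := mul_inv_cancel₀ L.T0
      rw [h6]
      linear_combination (-T) * h5 + c 0 0 * h8
    exact (mul_eq_zero.1 h7).resolve_left (sub_ne_zero.2 hT)
  rw [h2 c hc i d hid, h3 c hc _ hid, h4, mul_zero, mul_zero]

theorem case_gen [FiniteDimensional K V] (L : LK m t q T E xs)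
    (hind : ∀ (α : ℕ → K) (β : K), ∑ l ∈ range (m - 1), α l • u E xs l + β • xs 0 = 0 →
      ∀ l, l + 1 < m → α l = 0) (hT : T * q ^ (m + 1) ≠ 1) :
    (m + 1) * m ≤ 2 * finrank K V := by
  classical
  let ι : Type := Σ i : Fin m, Fin (m - i)
  have hli : LinearIndependent K fun p : ι => Y E xs p.1 p.2 := by
    rw [Fintype.linearIndependent_iff]
    intro g hg p
    let c : ℕ → ℕ → K := fun i d =>
      if h : i < m then (if h' : d < m - i then g ⟨⟨i, h⟩, ⟨d, h'⟩⟩ else 0) else 0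
    have hc : comb m E xs c = 0 := by
      rw [← hg, Fintype.sum_sigma, comb, ← Fin.sum_univ_eq_sum_range
        (fun i => ∑ d ∈ range (m - i), c i d • Y E xs i d)]
      refine sum_congr rfl fun i _ => ?_
      rw [← Fin.sum_univ_eq_sum_range (fun d => c i d • Y E xs i d)]
      refine sum_congr rfl fun d _ => ?_
      simp only [c, Fin.is_lt, dif_pos, Fin.eta]
    have := L.comb_zero hind hT hc (i := p.1) (d := p.2) (by have := p.2.2; omega)
    simpa only [c, Fin.is_lt, dif_pos, Fin.eta] using this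
  have h1 := hli.fintype_card_le_finrank
  rw [Fintype.card_sigma] at h1
  simp only [Fintype.card_fin] at h1
  rw [Fin.sum_univ_eq_sum_range (fun i => m - i) m] at h1
  have h2 : ∀ k, (∑ i ∈ range k, (k - i)) * 2 = (k + 1) * k := by
    intro k
    induction k with
    | zero => simp
    | succ k ih =>
      rw [sum_range_succ']
      simp only [Nat.add_sub_add_right, Nat.sub_zero]
      rw [add_mul, ih]
      ring
  have := h2 m
  omega

theorem zz_Y (L : LK m t q T E xs) {i d : ℕ} (hid : i + 1 + d < m) :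
    ((zz t m : (End K V)ˣ) : End K V) (Y E xs (i + 1) d) = q ^ 2 • Y E xs (i + 1) d := by
  have hm := L.hm
  have hst : ∀ k, k + 1 < m → ∀ y, ((zz t m : (End K V)ˣ) : End K V) ((t (k + 1) : End K V) y)
      = q ^ 2 • (t (k + 1) : End K V) y → ((zz t m : (End K V)ˣ) : End K V) y = q ^ 2 • y := by
    intro k hk y hy
    refine unit_inj (t (k + 1)) ?_
    rw [← sf_conj_t (L.br.zz_commute hk).eq, hy, map_smul]
  have w0 : ((zz t m : (End K V)ˣ) : End K V) ((E : End K V) (xs 0))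
      = q ^ 2 • (E : End K V) (xs 0) := by
    have h1 : ∀ j, 2 ≤ j → j ≤ m →
        ((dn t j : (End K V)ˣ) : End K V) ((E : End K V) (xs 0)) = xs 0 := by
      intro j h2 hj
      induction j, h2 using Nat.le_induction with
      | base => simp [dn, L.b5, L.step 0]
      | succ j h2 ih =>
        rw [dn, Units.val_mul, Module.End.mul_apply, ih (by omega), L.fix j h2 hj]
    rw [zz, Units.val_mul, Module.End.mul_apply, h1 m (by omega) le_rfl, L.up_eq,
      LinearMap.smul_apply]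
  have w1 : ∀ d, d + 1 < m → ((zz t m : (End K V)ˣ) : End K V) ((E : End K V) (xs d))
      = q ^ 2 • (E : End K V) (xs d) := by
    intro d
    induction d with
    | zero => exact fun _ => w0
    | succ d ih => exact fun hd => hst (d + 1) hd _ (by rw [L.stepE hd]; exact ih (by omega))
  induction i generalizing d with
  | zero => rw [zero_add, Y_one]; exact w1 d (by omega)
  | succ i ih =>
    refine hst i (by omega) _ ?_
    have h1 := units_conj_apply (L.pow_conj (i := 0) (j := i + 1) (by omega))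
      ((E : End K V) (xs d))
    rw [L.f5 (by omega), zero_add, ← Y_one (E := E) (xs := xs) d, Y_add] at h1
    rw [← h1]
    exact ih (d := d + 1) (by omega)

theorem g1 (L : LK m t q T E xs) {i d j : ℕ} (hd : i + d + 2 ≤ j) (hj : j < m) :
    (t j : End K V) (Y E xs i d) = Y E xs i d := by
  obtain ⟨j, rfl⟩ : ∃ j', j = j' + i := ⟨j - i, by omega⟩
  rw [Y, ← units_conj_apply (L.pow_conj hj), L.f1 (by omega) (by omega)]

theorem g4 (L : LK m t q T E xs) {i d : ℕ} (hd : i + d + 1 < m) :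
    (t (i + d + 1) : End K V) (Y E xs i d)
      = (1 - q) • Y E xs i d + q • Y E xs i (d + 1) + (q ^ 2 - q) • Y E xs (i + d + 1) 0 := by
  have h1 := units_conj_apply (L.pow_conj (i := d + 1) (j := i) (by omega)) (xs d)
  rw [L.f4 (by omega), map_add, map_add, map_smul, map_smul, map_smul, Y_add,
    show d + 1 + i = i + d + 1 by omega] at h1
  exact h1.symm

theorem ff_zero (L : LK m t q T E xs) :
    ff t q 0 (xs 0) = ((T * q ^ 2 + q) * (T * q ^ 2 - 1)) • xs 0 := by
  rw [ff_apply, L.n0_zero, map_smul, L.b0]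
  module

theorem ff_u (L : LK m t q T E xs) {d : ℕ} (hd : d + 1 < m) :
    (t 0 : End K V) (u E xs d) + q • u E xs d = ((q ^ 2 - q) * T) • xs 0 := by
  have h1 : (t 0 : End K V) (u E xs d) = N t 0 (xs (d + 1)) := by
    rw [u, map_sub, L.f5 hd, N_apply]
  rw [h1, L.n0_succ hd]
  module

theorem ff_one (L : LK m t q T E xs) {d : ℕ} (hd : d + 1 < m) :
    ff t q 0 ((E : End K V) (xs d)) = ((q ^ 2 - q) * T) • xs 0 := by
  rw [ff_apply, L.n0_one hd, L.ff_u hd]

theorem ff_succ (L : LK m t q T E xs) {d : ℕ} (hd : d + 1 < m) :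
    ff t q 0 (xs (d + 1)) = ((q ^ 2 - q) * T * (T * q ^ 2)) • xs 0 := by
  have h1 := L.ff_u hd
  rw [ff_apply, L.n0_succ hd, map_add, map_smul, map_smul, L.b0, eq_sub_of_add_eq h1]
  module

theorem ff_two (L : LK m t q T E xs) {i d : ℕ} (hi : 2 ≤ i) (hd : i + d < m) :
    ff t q 0 (Y E xs i d) = 0 := by
  rw [ff_apply, L.n0_two hi hd, map_zero, smul_zero, add_zero]

theorem chain_b (L : LK m t q T E xs) (r : ℕ) : ∀ i d, 1 ≤ i → i + d + 1 + r = m →
    ff t q 0 ((E : End K V) (((dd t (i + d + 1) r : (End K V)ˣ) : End K V) (Y E xs i d)))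
      = (q ^ (2 * r) * ((q ^ 2 - q) * T * (T ^ 2 * q ^ 2))) • xs 0 := by
  induction r with
  | zero =>
    intro i d hi hm
    obtain ⟨i, rfl⟩ : ∃ i', i = i' + 1 := ⟨i - 1, by omega⟩
    have h1 := L.f8 (d := i + 1) (by omega)
    rw [show m - 1 - (i + 1) = d by omega] at h1
    simp only [dd, Units.val_one, Module.End.one_apply]
    rw [Y_succ, h1, map_smul, L.ff_succ (by omega)]
    module
  | succ r ih =>
    intro i d hi hm
    have h1 := ih i (d + 1) hi (by omega)
    have h2 := ih (i + d + 1) 0 (by omega) (by omega)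
    rw [show i + (d + 1) + 1 = i + d + 1 + 1 by omega] at h1
    rw [add_zero] at h2
    rw [dd_apply, L.g4 (by omega)]
    simp only [map_add, map_smul]
    rw [h1, h2, dd_fix fun j a b => L.g1 (by omega) (by omega), Y_succ,
      L.ff_two (by omega) (by omega), show 2 * (r + 1) = 2 * r + 2 by omega, pow_add]
    module

theorem chain_a (L : LK m t q T E xs) (r : ℕ) : ∀ d, d + 1 + r = m →
    ff t q 0 ((E : End K V) (((dd t (d + 1) r : (End K V)ˣ) : End K V) (xs d)))
      = ((q ^ 2 - q) * T + q ^ (2 * r) * ((q ^ 2 - q) * T * (T ^ 2 * q ^ 2))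
        + q ^ r * (q ^ 2 * T * (T * q - 1) * (T + 1))) • xs 0 := by
  induction r with
  | zero =>
    intro d hm
    have h1 := L.f8 (d := 0) (by omega)
    rw [show m - 1 - 0 = d by omega, zero_add, Y_one] at h1
    simp only [dd, Units.val_one, Module.End.one_apply]
    rw [h1, map_smul, L.ff_zero]
    module
  | succ r ih =>
    intro d hm
    have h1 := ih (d + 1) (by omega)
    have h2 := L.chain_b r (d + 1) 0 (by omega) (by omega)
    rw [add_zero] at h2
    rw [dd_apply, L.f4 (by omega)]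
    simp only [map_add, map_smul]
    rw [h1, h2, dd_fix fun j a b => L.f1 (by omega) (by omega), L.ff_one (by omega),
      show 2 * (r + 1) = 2 * r + 2 by omega, pow_add, pow_succ q r]
    module

theorem zz_apply (L : LK m t q T E xs) (y : V) : ((zz t m : (End K V)ˣ) : End K V) y
    = q ^ 2 • (E : End K V) (((dd t 1 (m - 1) : (End K V)ˣ) : End K V) ((t 0 : End K V) y)) := by
  have hm := L.hm
  rw [zz, Units.val_mul, Module.End.mul_apply, L.up_eq, LinearMap.smul_apply, dn_eq_dd,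
    show m = m - 1 + 1 by omega, dd_apply, zero_add, Nat.add_sub_cancel]

/-- The constant of the special case. -/
def sc (q T : K) : K :=
  q ^ 2 + T * q + ((q ^ 2 - q) * T * (q ^ 2 + 1) + q ^ 2 * (T * q - 1) * (T + 1))

theorem rho_zero (L : LK m t q T E xs) (hT : T * q ^ (m + 1) = 1) :
    ff t q 0 (((zz t m : (End K V)ˣ) : End K V) (xs 0)) = ((T * q ^ 2 - 1) * sc q T) • xs 0 := by
  have hm := L.hm
  have h1 := L.chain_a (m - 1) 0 (by omega)
  rw [zero_add] at h1
  rw [L.zz_apply, L.b0, map_smul, map_smul, map_smul, map_smul, h1, smul_smul, smul_smul]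
  congr 1
  obtain ⟨r, rfl⟩ : ∃ r, m = r + 1 := ⟨m - 1, by omega⟩
  rw [Nat.add_sub_cancel, two_mul, pow_add]
  rw [pow_succ, pow_succ] at hT
  unfold sc
  linear_combination (T * q ^ 2 * ((q ^ 2 - q) * T * (T * q ^ r * q ^ 2 + 1)
    + q ^ 2 * (T * q - 1) * (T + 1))) * hT

theorem rho_one (L : LK m t q T E xs) (hT : T * q ^ (m + 1) = 1) :
    ff t q 0 (((zz t m : (End K V)ˣ) : End K V) (xs 1))
      = ((q ^ 2 - q) * T * (sc q T - q ^ 3)) • xs 0 := by
  have hm := L.hm
  obtain ⟨r, rfl⟩ : ∃ r, m = r + 2 := ⟨m - 2, by omega⟩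
  have h1 := L.chain_a (r + 1) 0 (by omega)
  have h2 := L.chain_b r 1 0 le_rfl (by omega)
  rw [zero_add] at h1
  rw [Y_one] at h2
  have e0 : (t 1 : End K V) ((E : End K V) (xs 0)) = (T * q ^ 2) • (E : End K V) (xs 0) := by
    rw [← L.conj (i := 0) (by omega), L.b0, map_smul]
  rw [L.zz_apply, L.b7, show r + 2 - 1 = r + 1 by omega]
  simp only [map_add, map_smul]
  rw [h1, dd_apply, dd_apply, L.step 0, e0, dd_fix fun j a b => L.fix j a (by omega),
    L.ff_one (by omega), map_smul, map_smul, map_smul, h2]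
  simp only [smul_smul, ← add_smul]
  congr 1
  rw [show 2 * (r + 1) = r + r + 2 by omega, two_mul, pow_add, pow_add, pow_succ q r]
  rw [pow_succ, pow_succ, pow_succ] at hT
  unfold sc
  linear_combination ((q ^ 2 - q) * T * ((T * q + (q ^ 2 - q) * T) * (T * q ^ r * q ^ 3 + 1)
    + q ^ 2 * (T * q - 1) * (T + 1))) * hT

theorem exists_psi [FiniteDimensional K V] (L : LK m t q T E xs)
    (hind : ∀ (α : ℕ → K) (β : K), ∑ l ∈ range (m - 1), α l • u E xs l + β • xs 0 = 0 →
      ∀ l, l + 1 < m → α l = 0) (A B : K) :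
    ∃ ψ : V →ₗ[K] K, ψ (xs 0) = B ∧ ∀ l, l + 1 < m → ψ (u E xs l) = A := by
  classical
  let v : Option (Fin (m - 1)) → V := fun o => o.elim (xs 0) fun l => u E xs l
  have hli : LinearIndependent K v := by
    rw [Fintype.linearIndependent_iff]
    intro g hg
    let α : ℕ → K := fun l => if h : l < m - 1 then g (some ⟨l, h⟩) else 0
    have h1 : ∑ l ∈ range (m - 1), α l • u E xs l + g none • xs 0 = 0 := by
      rw [← hg, Fintype.sum_option, add_comm,
        ← Fin.sum_univ_eq_sum_range (fun l => α l • u E xs l)]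
      simp only [α, v, Fin.is_lt, dif_pos, Fin.eta, Option.elim]
    have h2 := hind α _ h1
    have h3 : g none = 0 := by
      rw [sum_eq_zero fun l hl => by
        rw [h2 l (by rw [mem_range] at hl; omega), zero_smul], zero_add] at h1
      exact (smul_eq_zero.1 h1).resolve_right L.ne
    rintro (_ | l)
    · exact h3
    · simpa only [α, Fin.is_lt, dif_pos, Fin.eta] using h2 l (by have := l.2; omega)
  obtain ⟨ψ, hψ⟩ := LinearMap.exists_extend
    ((Finsupp.linearCombination K fun o : Option (Fin (m - 1)) => o.elim B fun _ => A).comp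
      hli.repr)
  have h1 : ∀ o, ψ (v o) = o.elim B fun _ => A := by
    intro o
    have h2 := LinearMap.congr_fun hψ ⟨v o, Submodule.subset_span ⟨o, rfl⟩⟩
    rw [LinearMap.comp_apply, LinearMap.comp_apply, hli.repr_eq_single o _ rfl] at h2
    simpa using h2
  exact ⟨ψ, h1 none, fun l hl => h1 (some ⟨l, by omega⟩)⟩

/-- In the special case the first strand circling all others moves fixed vectors of the first
generator to vectors without top component. -/
theorem case_sp [FiniteDimensional K V] (L : LK m t q T E xs) (hirr : Irr m t)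
    (hf : ∀ j, 2 ≤ j → j < m → ff t q 0 * N t j = 0)
    (hind : ∀ (α : ℕ → K) (β : K), ∑ l ∈ range (m - 1), α l • u E xs l + β • xs 0 = 0 →
      ∀ l, l + 1 < m → α l = 0) (hT : T * q ^ (m + 1) = 1) {y : V}
    (hy : (t 0 : End K V) y = y) : ff t q 0 (((zz t m : (End K V)ˣ) : End K V) y) = 0 := by
  have hm := L.hm
  obtain ⟨ψ, h0, h1⟩ := L.exists_psi hind (q ^ 2 * ((q ^ 2 - q) * T)) (sc q T)
  have hs : ∀ d, d + 1 < m → ff t q 0 (((zz t m : (End K V)ˣ) : End K V) (xs (d + 1)))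
      = ((q ^ 2 - q) * T * (sc q T - q ^ 3)) • xs 0 := by
    intro d
    induction d with
    | zero => exact fun _ => L.rho_one hT
    | succ d ih =>
      intro hd
      have h2 := LinearMap.congr_fun (hf (d + 2) (by omega) hd)
        (((zz t m : (End K V)ˣ) : End K V) (xs (d + 2)))
      rw [Module.End.mul_apply, N_apply, map_sub, LinearMap.zero_apply, sub_eq_zero,
        ← sf_conj_t (L.br.zz_commute hd).eq, L.step] at h2
      rw [← h2, ih (by omega)]
  let W : Submodule K V := LinearMap.ker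
    (ff t q 0 * ((zz t m : (End K V)ˣ) : End K V) - ψ.smulRight (xs 0) * N t 0)
  have hW : ∀ y, y ∈ W ↔
      ff t q 0 (((zz t m : (End K V)ˣ) : End K V) y) = ψ (N t 0 y) • xs 0 := fun y => by
    simp [W, sub_eq_zero]
  have htop := L.eq_top hirr (W := W) fun i d hid => by
    rw [hW]
    rcases i with _ | _ | i
    · rw [Y_zero]
      rcases d with _ | d
      · rw [L.rho_zero hT, L.n0_zero, map_smul, h0, smul_eq_mul]
      · rw [hs d (by omega), L.n0_succ (by omega), map_add, map_smul, map_smul, h0,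
          h1 d (by omega), smul_eq_mul, smul_eq_mul]
        congr 1
        ring
    · rw [L.zz_Y hid, zero_add, Y_one, map_smul, L.ff_one (by omega), L.n0_one (by omega),
        h1 d (by omega), smul_smul]
    · rw [L.zz_Y hid, map_smul, L.ff_two (by omega) hid, L.n0_two (by omega) hid, map_zero,
        smul_zero, zero_smul]
  rw [(hW y).1 (htop ▸ Submodule.mem_top), N_apply, hy, sub_self, map_zero, zero_smul]

end LK

end Pool.Agent.MP_b64966_al

end

-- part MP_b64966_al.STwo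
section

namespace Pool.Agent.MP_b64966_al

open Module
open scoped commutatorElement

variable {K V : Type*} [Field K] [AddCommGroup V] [Module K V] [FiniteDimensional K V]
  {m : ℕ} {t : ℕ → (End K V)ˣ}

omit [FiniteDimensional K V] in
theorem stwo_kill (S : ℕ → Submodule K V) (p : ℕ → Prop) (f : End K V)
    (h : ∀ i, p i → ∀ y ∈ S i, f y = 0) : ∀ y ∈ ⨆ i, ⨆ (_ : p i), S i, f y = 0 :=
  fun _ hy => (iSup₂_le fun i hi y hy => h i hi y hy : _ ≤ LinearMap.ker f) hy

theorem stwo_stab (S : ℕ → Submodule K V) (p : ℕ → Prop) (g : (End K V)ˣ)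
    (h : ∀ i, p i → ∀ y ∈ S i, (g : End K V) y ∈ ⨆ i, ⨆ (_ : p i), S i) :
    g ∈ stabS (⨆ i, ⨆ (_ : p i), S i) :=
  fun _ hy => (iSup₂_le fun i hi y hy => h i hi y hy :
    _ ≤ (⨆ i, ⨆ (_ : p i), S i).comap (g : End K V)) hy

omit [FiniteDimensional K V] in
theorem stwo_mem (S : ℕ → Submodule K V) (p : ℕ → Prop) {i : ℕ} (hi : p i) {y : V}
    (hy : y ∈ S i) : y ∈ ⨆ i, ⨆ (_ : p i), S i :=
  (le_iSup₂ (f := fun i (_ : p i) => S i) i hi) hy

theorem stwo_conj_fix {U : Submodule K V} {u g : (End K V)ˣ} (hu : u ∈ stabS U)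
    (hg : ∀ y ∈ U, (g : End K V) y = y) {y : V} (hy : y ∈ U) :
    ((u * g * u⁻¹ : (End K V)ˣ) : End K V) y = y := by
  rw [Units.val_mul, Units.val_mul, Module.End.mul_apply, Module.End.mul_apply,
    hg _ (inv_mem hu y hy), ← Module.End.mul_apply, Units.mul_inv, Module.End.one_apply]

omit [FiniteDimensional K V] in
theorem stwo_N {s s' : ℕ → (End K V)ˣ} {a b : ℕ} (h : s a = s' b) : N s a = N s' b := by
  simp only [N, h]

theorem twoBlock_of_supports [IsAlgClosed K] (hm : 11 ≤ m) (S : ℕ → Submodule K V)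
    (htop : (⨆ i ∈ Set.Iic m, S i) = ⊤)
    (hmap : ∀ j < m, ∀ i ≤ m, ∀ y ∈ S i, (t j : End K V) y ∈ S (Equiv.swap j (j + 1) i))
    (hdeg : ∀ i ≤ m, ∀ a < m, ∀ b < m, Fa a b → a ≠ i → a + 1 ≠ i → b ≠ i → b + 1 ≠ i →
      ∀ y ∈ S i, N t a (N t b y) = 0) : TwoBlock t := by
  intro φL φR hL hR
  have st : ∀ (p : ℕ → Prop) (j : ℕ), j < m →
      (∀ i, p i → i ≤ m ∧ p (Equiv.swap j (j + 1) i)) → t j ∈ stabS (⨆ i, ⨆ (_ : p i), S i) :=
    fun p j hj hp => stwo_stab S p _ fun i hi y hy =>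
      stwo_mem S p (hp i hi).2 (hmap j hj i (hp i hi).1 y hy)
  have su : ∀ p : ℕ → Prop, (∀ i, p i → i ≤ m) → t 5 * t 5 ∈ stabS (⨆ i, ⨆ (_ : p i), S i) := by
    intro p hp
    refine stwo_stab S p _ fun i hi y hy => stwo_mem S p hi ?_
    have h1 := hmap 5 (by omega) i (hp i hi) y hy
    have h2 := hmap 5 (by omega) _ (by
      have := hp i hi
      rw [Equiv.swap_apply_def]; split_ifs <;> omega) _ h1
    rwa [Equiv.swap_apply_self] at h2
  obtain ⟨k1, hk1⟩ := fix_of_deg_one φL (U := ⨆ i, ⨆ (_ : 6 ≤ i ∧ i ≤ m), S i)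
    (fun j hj => hL j hj ▸ st _ j (by omega) fun i hi => by
      rw [Equiv.swap_apply_def]; split_ifs <;> omega)
    (fun a b hab hb => by
      rw [stwo_N (s' := t) (hL a (by omega)),
        stwo_N (s := fun i => φL (gen 6 i)) (s' := t) (hL b hb)]
      exact stwo_kill S _ (N t a * N t b) fun i hi y hy => hdeg i hi.2 a (by omega) b (by omega)
        (Or.inl hab) (by omega) (by omega) (by omega) (by omega) y hy)
  obtain ⟨k2, hk2⟩ := fix_of_deg_one φR (U := ⨆ i, ⨆ (_ : i ≤ 5 ∨ (12 ≤ i ∧ i ≤ m)), S i)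
    (fun j hj => hR j hj ▸ st _ (j + 6) (by omega) fun i hi => by
      rw [Equiv.swap_apply_def]; split_ifs <;> omega)
    (fun a b hab hb => by
      rw [stwo_N (s' := t) (hR a (by omega)),
        stwo_N (s := fun i => φR (gen 6 i)) (s' := t) (hR b hb)]
      exact stwo_kill S _ (N t (a + 6) * N t (b + 6)) fun i hi y hy =>
        hdeg i (by omega) _ (by omega) _ (by omega) (Or.inl (by omega)) (by omega) (by omega)
          (by omega) (by omega) y hy)
  refine ⟨max k1 k2, fun g hg g' hg' => ?_⟩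
  have a1 := hk1 g' (NS_anti _ (le_max_left _ _) hg')
  have a2 := hk2 g (NS_anti _ (le_max_right _ _) hg)
  have a3 : ∀ y ∈ ⨆ i, ⨆ (_ : i ≤ 5), S i, (φR g : End K V) y = y := fun y hy =>
    a2 y ((iSup₂_le fun i hi y hy => stwo_mem S _ (Or.inl hi) hy :
      _ ≤ ⨆ i, ⨆ (_ : i ≤ 5 ∨ (12 ≤ i ∧ i ≤ m)), S i) hy)
  have b1 : t 5 * t 5 * φL g' * (t 5 * t 5)⁻¹ ∈ stabS (⨆ i, ⨆ (_ : i ≤ 5), S i) := by
    have := su (fun i => i ≤ 5) fun i hi => by omega
    refine mul_mem (mul_mem this (stabS_of_gen φL (fun j hj => ?_) g')) (inv_mem this)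
    exact hL j hj ▸ st _ j (by omega) fun i hi => by
      rw [Equiv.swap_apply_def]; split_ifs <;> omega
  have b2 : φR g ∈ stabS (⨆ i, ⨆ (_ : 6 ≤ i ∧ i ≤ m), S i) :=
    stabS_of_gen φR (fun j hj => hR j hj ▸ st _ (j + 6) (by omega) fun i hi => by
      rw [Equiv.swap_apply_def]; split_ifs <;> omega) g
  have b3 := fun y hy => stwo_conj_fix (y := y) (su (fun i => 6 ≤ i ∧ i ≤ m) fun i hi => hi.2) a1 hy
  generalize t 5 * t 5 * φL g' * (t 5 * t 5)⁻¹ = G at b1 b3 ⊢
  rw [← Commute.units_val_iff]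
  refine sub_eq_zero.1 (LinearMap.ext fun y => ?_)
  refine stwo_kill S (fun i => i ∈ Set.Iic m) _ (fun i hi y hy => ?_) y
    (htop ▸ Submodule.mem_top)
  rw [LinearMap.sub_apply, Module.End.mul_apply, Module.End.mul_apply, sub_eq_zero]
  by_cases h5 : i ≤ 5
  · have hy' := stwo_mem S (fun i => i ≤ 5) h5 hy
    rw [a3 _ (b1 y hy'), a3 y hy']
  · have hy' := stwo_mem S (fun i => 6 ≤ i ∧ i ≤ m) ⟨by omega, hi⟩ hy
    rw [b3 _ (b2 y hy'), b3 y hy']

theorem stwo_core {s : ℕ → (End K V)ˣ} (h : IsBraid 6 s) {q : K}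
    (hq : ∀ a < 6, ff s q a = 0) (F : Submodule K V)
    (hF : ∀ y ∈ F, ∀ j, 1 ≤ j → j < 6 → (s j : End K V) y = y) :
    ∃ U : Submodule K V, F ≤ U ∧ (∀ j < 6, s j ∈ stabS U) ∧
      ∀ a < 6, ∀ b < 6, Fa a b → ∀ y ∈ U, N s a (N s b y) = 0 := by
  let w : ℕ → End K V := fun i => ((dn s i : (End K V)ˣ) : End K V)
  have e1 : ∀ y ∈ F, ∀ i ≤ 6, ∀ j < 6, i + 1 ≤ j ∨ j + 2 ≤ i → N s j (w i y) = 0 := by
    intro y hy i hi j hj hij
    rw [N_apply, sub_eq_zero]
    rcases hij with hij | hij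
    · rw [← units_commute_apply (h.dn_commute hij hj), hF y hy j (by omega) hj]
    · rw [← Module.End.mul_apply, ← Units.val_mul, ← h.dn_conj hij hi, Units.val_mul,
        Module.End.mul_apply, hF y hy _ (by omega) (by omega)]
  have e2 : ∀ (y : V) (j : ℕ), N s j (w j y) = w (j + 1) y - w j y := fun y j => N_apply j _
  have e3 : ∀ y ∈ F, ∀ i ≤ 6, ∀ j < 6, ∃ c : K, N s j (w i y) = c • (w (j + 1) y - w j y) := by
    intro y hy i hi j hj
    by_cases h1 : i = j
    · exact ⟨1, by rw [h1, e2, one_smul]⟩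
    by_cases h2 : i = j + 1
    · refine ⟨-q, ?_⟩
      have h3 := LinearMap.congr_fun (hq j hj) (w j y)
      rw [ff_apply, LinearMap.zero_apply, add_eq_zero_iff_eq_neg, ← Module.End.mul_apply,
        (commute_tN_self j).eq, Module.End.mul_apply, e2, ← neg_smul] at h3
      rw [h2]
      exact h3
    · exact ⟨0, by rw [e1 y hy i hi j hj (by omega), zero_smul]⟩
  have mem : ∀ y ∈ F, ∀ i ≤ 6, w i y ∈ ⨆ i, ⨆ (_ : i ≤ 6), F.map (w i) := fun y hy i hi =>
    stwo_mem (fun i => F.map (w i)) (fun i => i ≤ 6) hi (Submodule.mem_map_of_mem hy)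
  refine ⟨⨆ i, ⨆ (_ : i ≤ 6), F.map (w i), fun y hy => mem y hy 0 (by omega), fun j hj => ?_,
    fun a ha b hb hab => ?_⟩
  · refine stwo_stab (fun i => F.map (w i)) (fun i => i ≤ 6) _ ?_
    rintro i hi _ ⟨y, hy, rfl⟩
    obtain ⟨c, hc⟩ := e3 y hy i hi j hj
    rw [N_apply, sub_eq_iff_eq_add] at hc
    rw [hc]
    exact add_mem (Submodule.smul_mem _ c (sub_mem (mem y hy _ (by omega)) (mem y hy _ hj.le)))
      (mem y hy i hi)
  · refine stwo_kill (fun i => F.map (w i)) (fun i => i ≤ 6) (N s a * N s b) ?_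
    rintro i hi _ ⟨y, hy, rfl⟩
    obtain ⟨c, hc⟩ := e3 y hy i hi b hb
    unfold Fa at hab
    rw [Module.End.mul_apply, hc, map_smul, map_sub, e1 y hy _ (by omega) a ha (by omega),
      e1 y hy _ hb.le a ha (by omega), sub_zero, smul_zero]

/-- the vectors fixed by the generators in a set of positions -/
def stwoFix (t : ℕ → (End K V)ˣ) (p : ℕ → Prop) : Submodule K V where
  carrier := {y | ∀ j, p j → (t j : End K V) y = y}
  add_mem' := fun ha hb j hj => by rw [map_add, ha j hj, hb j hj]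
  zero_mem' := fun j _ => map_zero _
  smul_mem' := fun c y hy j hj => by rw [map_smul, hy j hj]

theorem stwo_sub [IsAlgClosed K] (h : IsBraid m t) (hc : Cube m t)
    (φ : BraidGroup 6 →* (End K V)ˣ) (d : ℕ) (hd : d + 5 ≤ m)
    (hφ : ∀ i < 5, φ (gen 6 i) = t (i + d)) (p : ℕ → Prop)
    (hp : ∀ j, p j → j < m ∧ ∀ i < 5, Fa j (i + d)) :
    ∃ k, ∀ g ∈ NS (gen 6) k, ∀ y, (φ g : End K V) y - y ∈ stwoFix t p := by
  refine sub_mem_of_deg_one φ (fun i hi y hy j hj => ?_) fun a b hab hb y j hj => ?_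
  · rw [hφ i hi, units_commute_apply (h.commute (hp j hj).1 (by omega) ((hp j hj).2 i hi)), hy j hj]
  · rw [stwo_N (s' := t) (hφ a (by omega)),
      stwo_N (s := fun i => φ (gen 6 i)) (s' := t) (hφ b hb), ← sub_eq_zero, ← N_apply]
    exact LinearMap.congr_fun (hc j (hp j hj).1 (a + d) (by omega) (b + d) (by omega)
      ((hp j hj).2 a (by omega)) ((hp j hj).2 b hb) (Or.inl (by omega))) y

theorem IsBraid.twoBlock_of_hecke [IsAlgClosed K] (h : IsBraid m t) (hm : 11 ≤ m)
    (hc : Cube m t) {q : K} (hf : ff t q 0 = 0) : TwoBlock t := by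
  intro φL φR hL hR
  have hq : ∀ a < m, ff t q a = 0 := by
    intro a ha
    obtain ⟨g, hg⟩ := h.exists_conj (l := [0]) (l' := [a]) rfl (by simp) (by simp)
      (by simp; omega) (by simpa using ha)
    exact (zero_iff_of_conj (u := g) (conj_ff q (by simpa using hg))).1 hf
  have hsL : IsBraid 6 fun i => t (5 - i) := by
    refine ⟨fun i hi => ?_, fun i j hij hj => (h.comm _ _ (by omega) (by omega)).symm⟩
    have := h.braid (5 - (i + 1)) (by omega)
    rw [show 5 - (i + 1) + 1 = 5 - i by omega] at this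
    exact this.symm
  have hsR : IsBraid 6 fun i => t (i + 5) := h.shift (by omega)
  obtain ⟨UL, l1, l2, l3⟩ := stwo_core hsL (q := q) (fun a ha => hq (5 - a) (by omega))
    (stwoFix t fun j => j < 5) fun y hy j h1 h2 => hy (5 - j) (by omega)
  obtain ⟨UR, r1, r2, r3⟩ := stwo_core hsR (q := q) (fun a ha => hq (a + 5) (by omega))
    (stwoFix t fun j => 6 ≤ j ∧ j < 11) fun y hy j h1 h2 => hy (j + 5) (by omega)
  obtain ⟨k1, hk1⟩ := stwo_sub h hc φR 6 (by omega) hR (fun j => j < 5)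
    fun j hj => ⟨by omega, fun i hi => Or.inl (by omega)⟩
  obtain ⟨k2, hk2⟩ := stwo_sub h hc φL 0 (by omega) hL (fun j => 6 ≤ j ∧ j < 11)
    fun j hj => ⟨by omega, fun i hi => Or.inr (by omega)⟩
  obtain ⟨k3, hk3⟩ := fix_of_deg_one φL (U := UL)
    (fun j hj => by
      have := l2 (5 - j) (by omega)
      rwa [show 5 - (5 - j) = j by omega, ← hL j hj] at this)
    (fun a b hab hb => by
      rw [stwo_N (s' := fun i => t (5 - i)) (b := 5 - a)
          ((hL a (by omega)).trans (congrArg t (by omega))),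
        stwo_N (s := fun i => φL (gen 6 i)) (s' := fun i => t (5 - i)) (a := b) (b := 5 - b)
          ((hL b hb).trans (congrArg t (by omega)))]
      exact l3 _ (by omega) _ (by omega) (Or.inr (by omega)))
  obtain ⟨k4, hk4⟩ := fix_of_deg_one φR (U := UR)
    (fun j hj => hR j hj ▸ r2 (j + 1) (by omega))
    (fun a b hab hb => by
      rw [stwo_N (s' := fun i => t (i + 5)) (b := a + 1) (hR a (by omega)),
        stwo_N (s := fun i => φR (gen 6 i)) (s' := fun i => t (i + 5)) (b := b + 1) (hR b hb)]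
      exact r3 _ (by omega) _ (by omega) (Or.inl (by omega)))
  refine ⟨max (max k1 k2) (max k3 k4), fun g hg g' hg' => ?_⟩
  have a1 := hk1 g (NS_anti _ (by omega) hg)
  have a2 := hk2 g' (NS_anti _ (by omega) hg')
  have a3 := hk3 g' (NS_anti _ (by omega) hg')
  have a4 := hk4 g (NS_anti _ (by omega) hg)
  have uL : t 5 * t 5 ∈ stabS UL := mul_mem (l2 0 (by omega)) (l2 0 (by omega))
  have uR : t 5 * t 5 ∈ stabS UR := mul_mem (r2 0 (by omega)) (r2 0 (by omega))
  have b1 := fun y => stwo_conj_fix uL a3 (l1 (a1 y))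
  have b2 : ∀ y, ((t 5 * t 5 * φL g' * (t 5 * t 5)⁻¹ : (End K V)ˣ) : End K V) y - y ∈ UR := by
    intro y
    have := uR _ (r1 (a2 ((((t 5 * t 5)⁻¹ : (End K V)ˣ) : End K V) y)))
    rwa [map_sub, ← Module.End.mul_apply _ _ y, ← Module.End.mul_apply _ _ y,
      ← Module.End.mul_apply _ _ y, Units.mul_inv, Module.End.one_apply, ← mul_assoc,
      ← Units.val_mul, ← Units.val_mul] at this
  generalize t 5 * t 5 * φL g' * (t 5 * t 5)⁻¹ = G at b1 b2 ⊢
  rw [← Commute.units_val_iff]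
  refine LinearMap.ext fun y => ?_
  have c1 := b1 y
  have c2 := a4 _ (b2 y)
  rw [map_sub, sub_eq_iff_eq_add] at c1 c2
  rw [Module.End.mul_apply, Module.End.mul_apply, c1, c2]
  abel

end Pool.Agent.MP_b64966_al

end

-- part MP_b64966_al.SCert
section

namespace Pool.Agent.MP_b64966_al

open scoped commutatorElement

section Hurwitz
variable {F : Type*} [Group F]

/-- The Hurwitz move on sequences in a group. -/
def hw (i : ℕ) : Equiv.Perm (ℕ → F) where
  toFun f := fun k => if k = i then f i * f (i + 1) * (f i)⁻¹ else if k = i + 1 then f i else f k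
  invFun f := fun k =>
    if k = i then f (i + 1) else if k = i + 1 then (f (i + 1))⁻¹ * f i * f (i + 1) else f k
  left_inv f := by
    funext k
    by_cases h1 : k = i
    · simp [h1]
    by_cases h2 : k = i + 1
    · simp [h2, mul_assoc]
    · simp [h1, h2]
  right_inv f := by
    funext k
    by_cases h1 : k = i
    · simp [h1, mul_assoc]
    by_cases h2 : k = i + 1
    · simp [h2]
    · simp [h1, h2]

theorem hw_apply (i : ℕ) (f : ℕ → F) (k : ℕ) : hw i f k
    = if k = i then f i * f (i + 1) * (f i)⁻¹ else if k = i + 1 then f i else f k := rfl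

theorem hw_inv_apply (i : ℕ) (f : ℕ → F) (k : ℕ) : (hw i)⁻¹ f k
    = if k = i then f (i + 1) else if k = i + 1 then (f (i + 1))⁻¹ * f i * f (i + 1) else f k :=
  rfl

theorem hw_braid (m : ℕ) : IsBraid m (hw (F := F)) where
  braid i _ := by
    ext f k
    simp only [Equiv.Perm.mul_apply, hw_apply]
    by_cases h1 : k = i
    · subst h1
      simp [show k ≠ k + 1 + 1 by omega, show k + 1 + 1 ≠ k by omega, mul_assoc]
    by_cases h2 : k = i + 1
    · subst h2
      simp [show i ≠ i + 1 + 1 by omega, show i + 1 + 1 ≠ i by omega]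
    by_cases h3 : k = i + 1 + 1
    · subst h3
      simp [show i + 1 + 1 ≠ i by omega, show i ≠ i + 1 + 1 by omega]
    · simp [h1, h2, h3]
  comm i j hij _ := by
    ext f k
    simp only [Equiv.Perm.mul_apply, hw_apply]
    have a1 : i ≠ j := by omega
    have a2 : i ≠ j + 1 := by omega
    have a3 : i + 1 ≠ j := by omega
    have a4 : j ≠ i := by omega
    have a5 : j ≠ i + 1 := by omega
    have a6 : j + 1 ≠ i := by omega
    by_cases h1 : k = i
    · subst h1
      simp [a1, a2, a3]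
    by_cases h2 : k = i + 1
    · subst h2
      simp [a1, a2, a3]
    by_cases h3 : k = j
    · subst h3
      simp [a4, a5, a6]
    by_cases h4 : k = j + 1
    · subst h4
      simp [a4, a5, a6]
    · simp [h1, h2, h3, h4]

theorem dn_hw_apply (j : ℕ) (f : ℕ → F) {k : ℕ} (hk : j < k) : dn hw j f k = f k := by
  induction j with
  | zero => rfl
  | succ j ih =>
    rw [dn, Equiv.Perm.mul_apply, hw_apply, if_neg (by omega), if_neg (by omega), ih (by omega)]

theorem zz_hw_tail {r m : ℕ} (hm : r ≤ m) (f : ℕ → F) (hf : ∀ k, r < k → f k = 1) :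
    zz hw m f = zz hw r f := by
  induction m, hm using Nat.le_induction with
  | base => rfl
  | succ j hj ih =>
    rw [← ih]
    simp only [zz, up, dn, Equiv.Perm.mul_apply]
    congr 1
    have h1 : dn hw j f (j + 1) = 1 := by rw [dn_hw_apply j f (by omega), hf _ (by omega)]
    funext k
    by_cases h2 : k = j
    · simp [hw_apply, h2, h1]
    by_cases h3 : k = j + 1
    · simp [hw_apply, h3, h1]
    · simp [hw_apply, h2, h3]

end Hurwitz

/-- Evaluation of a word. -/
def evalW {G : Type*} [Group G] (s : ℕ → G) (w : List (ℕ × Bool)) : G :=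
  (w.map fun p => if p.2 then s p.1 else (s p.1)⁻¹).prod

/-- A transposition of naturals. -/
def sw (c d a : ℕ) : ℕ := if a = c then d else if a = d then c else a

/-- Conjugation of transpositions. -/
def opP (p r : ℕ × ℕ) : ℕ × ℕ :=
  (min (sw p.1 p.2 r.1) (sw p.1 p.2 r.2), max (sw p.1 p.2 r.1) (sw p.1 p.2 r.2))

/-- The Hurwitz move and its inverse on lists of transpositions. -/
def mv : ℕ → Bool → List (ℕ × ℕ) → List (ℕ × ℕ)
  | 0, true, a :: b :: l => opP a b :: a :: l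
  | 0, false, a :: b :: l => b :: opP b a :: l
  | i + 1, e, a :: l => a :: mv i e l
  | _, _, l => l

def actW (w : List (ℕ × Bool)) (l : List (ℕ × ℕ)) : List (ℕ × ℕ) :=
  w.foldr (fun p l => mv p.1 p.2 l) l

def tr (p : ℕ × ℕ) : Equiv.Perm ℕ := Equiv.swap p.1 p.2

def enc (l : List (ℕ × ℕ)) (k : ℕ) : Equiv.Perm ℕ := tr (l.getD k (0, 0))

theorem tr_opP (p r : ℕ × ℕ) : tr (opP p r) = tr p * tr r * (tr p)⁻¹ := by
  have h1 : ∀ a, sw p.1 p.2 a = tr p a := fun a => by
    simp only [sw, tr, Equiv.swap_apply_def]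
  rw [tr.eq_1 r, ← Equiv.swap_apply_apply]
  simp only [opP, h1, tr]
  rcases le_total (Equiv.swap p.1 p.2 r.1) (Equiv.swap p.1 p.2 r.2) with h | h
  · rw [min_eq_left h, max_eq_right h]
  · rw [min_eq_right h, max_eq_left h, Equiv.swap_comm]

theorem tr_inv (p : ℕ × ℕ) : (tr p)⁻¹ = tr p := Equiv.swap_inv _ _

theorem length_mv (i : ℕ) (e : Bool) (l : List (ℕ × ℕ)) : (mv i e l).length = l.length := by
  fun_induction mv i e l <;> simp_all

theorem getD_mv (e : Bool) (d : ℕ × ℕ) : ∀ (i : ℕ) (l : List (ℕ × ℕ)), i + 1 < l.length → ∀ k,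
    (mv i e l).getD k d =
      if k = i then (if e then opP (l.getD i d) (l.getD (i + 1) d) else l.getD (i + 1) d)
      else if k = i + 1 then (if e then l.getD i d else opP (l.getD (i + 1) d) (l.getD i d))
      else l.getD k d
  | 0, a :: b :: l, _, k => by
    cases e <;> rcases k with _ | _ | k <;> simp [mv]
  | i + 1, a :: l, h, k => by
    rcases k with _ | k
    · simp [mv]
    · have := getD_mv e d i l (by simpa using h) k
      simpa [mv] using this
  | 0, [], h, _ => by simp at h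
  | 0, [_], h, _ => by simp at h
  | _ + 1, [], h, _ => by simp at h

theorem enc_mv (i : ℕ) (e : Bool) (l : List (ℕ × ℕ)) (h : i + 1 < l.length) :
    (if e then hw i else (hw i)⁻¹) (enc l) = enc (mv i e l) := by
  funext k
  rw [enc, getD_mv e _ i l h]
  cases e
  · simp only [Bool.false_eq_true, if_false, hw_inv_apply]
    split_ifs
    · rfl
    · rw [tr_opP, tr_inv, enc, enc, tr_inv]
    · rfl
  · simp only [if_true, hw_apply]
    split_ifs
    · rw [tr_opP, enc, enc]
    · rfl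
    · rfl

theorem length_actW (w : List (ℕ × Bool)) (l : List (ℕ × ℕ)) : (actW w l).length = l.length := by
  induction w with
  | nil => rfl
  | cons p w ih => exact (length_mv _ _ _).trans ih

theorem enc_actW (w : List (ℕ × Bool)) (l : List (ℕ × ℕ)) (h : ∀ p ∈ w, p.1 + 1 < l.length) :
    evalW hw w (enc l) = enc (actW w l) := by
  induction w with
  | nil => rfl
  | cons p w ih =>
    have h1 := ih fun p hp => h p (List.mem_cons_of_mem _ hp)
    have h2 := enc_mv p.1 p.2 (actW w l) (by rw [length_actW]; exact h p List.mem_cons_self)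
    simp only [evalW, List.map_cons, List.prod_cons, Equiv.Perm.mul_apply] at h1 ⊢
    rw [h1, h2]
    rfl

theorem enc_tail (l : List (ℕ × ℕ)) {k : ℕ} (hk : l.length ≤ k) : enc l k = 1 := by
  rw [enc, List.getD_eq_default _ _ hk, tr, Equiv.swap_self]
  rfl

/-- Nine points forming an orbit. -/
def pL : Fin 9 → List (ℕ × ℕ) :=
  ![[(1, 2), (1, 3), (3, 6), (2, 5), (1, 3), (3, 6), (3, 4), (2, 6), (4, 5), (1, 2), (4, 6), (2, 6)],
    [(4, 6), (3, 4), (1, 2), (2, 5), (3, 4), (1, 4), (3, 6), (2, 6), (4, 5), (1, 2), (4, 6), (2, 6)],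
    [(4, 6), (3, 4), (2, 5), (1, 5), (3, 4), (1, 4), (3, 6), (2, 6), (4, 5), (1, 2), (4, 6), (2, 6)],
    [(1, 2), (3, 6), (1, 4), (2, 5), (3, 6), (3, 6), (1, 3), (2, 6), (4, 5), (1, 2), (4, 6), (2, 6)],
    [(4, 6), (3, 4), (1, 5), (1, 2), (3, 4), (1, 4), (3, 6), (2, 6), (4, 5), (1, 2), (4, 6), (2, 6)],
    [(1, 2), (3, 6), (1, 4), (2, 5), (3, 6), (3, 6), (1, 2), (1, 6), (4, 5), (2, 3), (4, 6), (2, 6)],
    [(1, 2), (3, 6), (1, 4), (2, 5), (3, 6), (3, 6), (2, 3), (3, 6), (4, 5), (2, 4), (4, 6), (1, 3)],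
    [(1, 2), (3, 6), (1, 4), (2, 5), (3, 6), (3, 6), (2, 3), (3, 6), (2, 4), (2, 5), (4, 6), (1, 3)],
    [(1, 2), (3, 6), (1, 4), (2, 5), (3, 6), (3, 6), (2, 3), (3, 6), (2, 5), (4, 5), (4, 6), (1, 3)]]

def a1 : Equiv.Perm (Fin 9) :=
  ⟨![0, 1, 2, 3, 4, 5, 7, 8, 6], ![0, 1, 2, 3, 4, 5, 8, 6, 7], by decide, by decide⟩
def a2 : Equiv.Perm (Fin 9) :=
  ⟨![0, 1, 2, 5, 4, 6, 3, 7, 8], ![0, 1, 2, 6, 4, 3, 5, 7, 8], by decide, by decide⟩
def b1 : Equiv.Perm (Fin 9) :=
  ⟨![0, 2, 4, 3, 1, 5, 6, 7, 8], ![0, 4, 1, 3, 2, 5, 6, 7, 8], by decide, by decide⟩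
def b2 : Equiv.Perm (Fin 9) :=
  ⟨![1, 3, 2, 0, 4, 5, 6, 7, 8], ![3, 0, 2, 1, 4, 5, 6, 7, 8], by decide, by decide⟩

def wA (d : ℕ) : List (ℕ × Bool) := [(2 + d, true), (2 + d, true)]

def wC (d : ℕ) : List (ℕ × Bool) :=
  [(3 + d, true), (4 + d, false), (4 + d, false), (4 + d, false), (3 + d, true), (1 + d, false),
    (0 + d, true), (0 + d, true), (0 + d, true), (1 + d, false), (2 + d, true), (2 + d, true),
    (1 + d, true), (0 + d, false), (0 + d, false), (0 + d, false), (1 + d, true), (3 + d, false),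
    (4 + d, true), (4 + d, true), (4 + d, true), (3 + d, false)]

def tw (w : List (ℕ × Bool)) : List (ℕ × Bool) :=
  [(5, true), (5, true)] ++ w ++ [(5, false), (5, false)]

def wZ : List (ℕ × Bool) :=
  ((List.range 11).map fun i => (i, true)) ++ (List.range 11).reverse.map fun i => (i, true)

def wY : List (ℕ × Bool) :=
  ((List.range 11).map fun i => (i, false)) ++ (List.range 11).reverse.map fun i => (i, false)

theorem cert : ∀ i : Fin 9, (pL i).length = 12 ∧ actW (wA 6) (pL i) = pL (a1 i) ∧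
    actW (wC 6) (pL i) = pL (a2 i) ∧ actW (tw (wA 0)) (pL i) = pL (b1 i) ∧
    actW (tw (wC 0)) (pL i) = pL (b2 i) ∧ actW wZ (actW wY (pL i)) = pL i ∧
    actW (tw (wC 0)) (actW wY (pL i)) = actW wY (pL i) := by
  decide +kernel

section Words
variable {G : Type*} [Group G] {s s' : ℕ → G}

theorem cA_eq (d : ℕ) (h : ∀ i < 5, s' i = s (i + d)) : cA s' = evalW s (wA d) := by
  simp [cA, evalW, wA, h 2 (by omega)]

theorem cB_eq (d : ℕ) (h : ∀ i < 5, s' i = s (i + d)) : cB s' = evalW s (wC d) := by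
  simp only [cB, wB, evalW, wC, h 0 (by omega), h 1 (by omega), h 2 (by omega), h 3 (by omega),
    h 4 (by omega), List.map_cons, List.map_nil, List.prod_cons, List.prod_nil, mul_inv_rev,
    inv_inv, mul_assoc, if_true, Bool.false_eq_true, if_false, mul_one]

theorem evalW_tw (w : List (ℕ × Bool)) :
    evalW s (tw w) = s 5 * s 5 * evalW s w * (s 5 * s 5)⁻¹ := by
  simp [evalW, tw, mul_assoc]

theorem zz_eq : zz s 11 = evalW s wZ := by
  simp [zz, up, dn, evalW, wZ, List.range_succ, mul_assoc]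

theorem evalW_congr (w : List (ℕ × Bool)) (h : ∀ p ∈ w, s p.1 = s' p.1) :
    evalW s w = evalW s' w := by
  unfold evalW
  congr 1
  exact List.map_congr_left fun p hp => by rw [h p hp]

theorem map_evalW {H : Type*} [Group H] (f : G →* H) (w : List (ℕ × Bool)) :
    f (evalW s w) = evalW (fun i => f (s i)) w := by
  unfold evalW
  rw [map_list_prod, List.map_map]
  congr 1
  refine List.map_congr_left fun p _ => ?_
  simp only [Function.comp_apply]
  split_ifs <;> simp

theorem up_congr {j : ℕ} (h : ∀ i < j, s i = s' i) : up s j = up s' j := by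
  induction j with
  | zero => rfl
  | succ j ih => rw [up, up, ih fun i hi => h i (by omega), h j (by omega)]

theorem dn_congr {j : ℕ} (h : ∀ i < j, s i = s' i) : dn s j = dn s' j := by
  induction j with
  | zero => rfl
  | succ j ih => rw [dn, dn, ih fun i hi => h i (by omega), h j (by omega)]

/-- The element acts on the nine points as the given permutation. -/
def Rel (φ : G →* Equiv.Perm (ℕ → Equiv.Perm ℕ)) (g : G) (π : Equiv.Perm (Fin 9)) : Prop :=
  ∀ i, φ g (enc (pL i)) = enc (pL (π i))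

variable {φ : G →* Equiv.Perm (ℕ → Equiv.Perm ℕ)}

theorem Rel.mul {g g' : G} {π π' : Equiv.Perm (Fin 9)} (h : Rel φ g π) (h' : Rel φ g' π') :
    Rel φ (g * g') (π * π') := fun i => by
  rw [map_mul, Equiv.Perm.mul_apply, h', h, Equiv.Perm.mul_apply]

theorem Rel.inv {g : G} {π : Equiv.Perm (Fin 9)} (h : Rel φ g π) : Rel φ g⁻¹ π⁻¹ := fun i => by
  rw [map_inv, Equiv.Perm.inv_eq_iff_eq, h]
  simp

theorem Rel.conj {g g' : G} {π π' : Equiv.Perm (Fin 9)} (h : Rel φ g π) (h' : Rel φ g' π') :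
    Rel φ (g * g' * g⁻¹) (π * π' * π⁻¹) := (h.mul h').mul h.inv

theorem Rel.comm {g g' : G} {π π' : Equiv.Perm (Fin 9)} (h : Rel φ g π) (h' : Rel φ g' π') :
    Rel φ ⁅g, g'⁆ ⁅π, π'⁆ := (h.conj h').mul h'.inv

theorem rel_NS {s : ℕ → G} {α β : Equiv.Perm (Fin 9)} (hA : Rel φ (cA s) α) (hB : Rel φ (cB s) β)
    (e1 : β * β * α * ⁅α, β⁆ * (β * β * α)⁻¹ = α)
    (e2 : α * β * α * α * ⁅α, β⁆ * (α * β * α * α)⁻¹ = β) (k : ℕ) :
    ∃ g ∈ NS s k, Rel φ g β := by
  have r1 := (hB.mul hB).mul hA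
  have r2 := ((hA.mul hB).mul hA).mul hA
  have key : ∃ g ∈ NS s k, Rel φ g ⁅α, β⁆ := by
    induction k with
    | zero => exact ⟨_, Subgroup.subset_normalClosure rfl, hA.comm hB⟩
    | succ k ih =>
      obtain ⟨g, hg, hr⟩ := ih
      have s1 := r1.conj hr
      have s2 := r2.conj hr
      rw [e1] at s1
      rw [e2] at s2
      exact ⟨_, Subgroup.commutator_mem_commutator ((NS_normal s k).conj_mem g hg _)
        ((NS_normal s k).conj_mem g hg _), s1.comm s2⟩
  obtain ⟨g, hg, hr⟩ := key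
  have s2 := r2.conj hr
  rw [e2] at s2
  exact ⟨_, (NS_normal s k).conj_mem g hg _, s2⟩

theorem rel_evalW {m : ℕ} (hm : 11 ≤ m) (hφ : ∀ i < m, φ (s i) = hw i) {w : List (ℕ × Bool)}
    (hw' : ∀ p ∈ w, p.1 < 11) {l : List (ℕ × ℕ)} (hl : l.length = 12) :
    φ (evalW s w) (enc l) = enc (actW w l) := by
  rw [map_evalW, evalW_congr (s' := hw) w fun p hp => hφ _ (by have := hw' p hp; omega),
    enc_actW w l fun p hp => by have := hw' p hp; omega]

end Words

/-- Two families of commutators that produce a three-cycle on the nine points. -/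
theorem has_nine (n : ℕ) (hn : 12 ≤ n) (φ : BraidGroup n →* Equiv.Perm (ℕ → Equiv.Perm ℕ))
    (hφ : ∀ i < n - 1, φ (gen n i) = hw i) :
    (∀ ιL ιR : BraidGroup 6 →* BraidGroup n, (∀ i < 5, ιL (gen 6 i) = gen n i) →
      (∀ i < 5, ιR (gen 6 i) = gen n (i + 6)) → ∀ (k : ℕ) (M : Subgroup (BraidGroup n)),
      (∀ g ∈ NS (gen 6) k, ∀ g' ∈ NS (gen 6) k,
        ⁅ιR g, gen n 5 * gen n 5 * ιL g' * (gen n 5 * gen n 5)⁻¹⁆ ∈ M) →
        ∃ g ∈ M, Rel φ g ⁅a2, b2⁆) ∧
    (∀ M : Subgroup (BraidGroup n), M.Normal → (∀ g, ⁅zz (gen n) (n - 1), g⁆ ∈ M) →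
      ∃ g ∈ M, Rel φ g ⁅a2, b2⁆) := by
  have hm : 11 ≤ n - 1 := by omega
  have rA1 : Rel φ (evalW (gen n) (wA 6)) a1 := fun i => by
    rw [rel_evalW hm hφ (by decide) (cert i).1, (cert i).2.1]
  have rA2 : Rel φ (evalW (gen n) (wC 6)) a2 := fun i => by
    rw [rel_evalW hm hφ (by decide) (cert i).1, (cert i).2.2.1]
  have rB1 : Rel φ (evalW (gen n) (tw (wA 0))) b1 := fun i => by
    rw [rel_evalW hm hφ (by decide) (cert i).1, (cert i).2.2.2.1]
  have rB2 : Rel φ (evalW (gen n) (tw (wC 0))) b2 := fun i => by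
    rw [rel_evalW hm hφ (by decide) (cert i).1, (cert i).2.2.2.2.1]
  have e3 : b2 * b2 * a2 * (1 * b2⁻¹) * (b2 * b2 * a2)⁻¹ = ⁅a2, b2⁆ := by decide +kernel
  refine ⟨?_, ?_⟩
  · intro ιL ιR hL hR k M hM
    let ψ : BraidGroup 6 →* BraidGroup n := (MulAut.conj (gen n 5 * gen n 5)).toMonoidHom.comp ιL
    have hψ : ∀ g, ψ g = gen n 5 * gen n 5 * ιL g * (gen n 5 * gen n 5)⁻¹ := fun g => rfl
    obtain ⟨g, hg, hr⟩ := rel_NS (φ := φ.comp ιR) (s := gen 6) (α := a1) (β := a2)
      (by rw [← cA_eq 6 hR, ← map_cA] at rA1; exact rA1)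
      (by rw [← cB_eq 6 hR, ← map_cB] at rA2; exact rA2) (by decide +kernel) (by decide +kernel) k
    obtain ⟨g', hg', hr'⟩ := rel_NS (φ := φ.comp ψ) (s := gen 6) (α := b1) (β := b2)
      (by rw [evalW_tw, ← cA_eq 0 hL, ← map_cA, ← hψ] at rB1; exact rB1)
      (by rw [evalW_tw, ← cB_eq 0 hL, ← map_cB, ← hψ] at rB2; exact rB2)
      (by decide +kernel) (by decide +kernel) k
    exact ⟨_, hM g hg g' hg', Rel.comm (g := ιR g) (g' := ψ g') hr hr'⟩
  · intro M hM hz
    have r1 : Rel φ (zz (gen n) (n - 1) * evalW (gen n) (tw (wC 0)) * (zz (gen n) (n - 1))⁻¹) 1 := by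
      intro i
      have hl : (actW wY (pL i)).length = 12 := by rw [length_actW, (cert i).1]
      have h1 : φ (zz (gen n) (n - 1)) (enc (actW wY (pL i))) = enc (pL i) := by
        have h2 : φ (zz (gen n) (n - 1)) = zz hw (n - 1) := by
          rw [map_zz, zz, zz, up_congr hφ, dn_congr hφ]
        rw [h2, zz_hw_tail hm _ fun k hk => enc_tail _ (by omega), zz_eq,
          enc_actW _ _ (by rw [hl]; decide), (cert i).2.2.2.2.2.1]
      rw [map_mul, map_mul, map_inv, Equiv.Perm.mul_apply, Equiv.Perm.mul_apply,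
        Equiv.Perm.inv_eq_iff_eq.2 h1.symm, rel_evalW hm hφ (by decide) hl, (cert i).2.2.2.2.2.2,
        h1]
      rfl
    have s1 := ((rB2.mul rB2).mul rA2).conj (r1.mul rB2.inv)
    rw [e3] at s1
    exact ⟨_, hM.conj_mem _ (hz _) _, s1⟩

end Pool.Agent.MP_b64966_al

end

-- part MP_b64966_al.SCertB
section

namespace Pool.Agent.MP_b64966_al

open scoped commutatorElement

/-- The seventh strand circling the first six twice, times the eleventh generator. -/
def hh {G : Type*} [Group G] (s : ℕ → G) : G := s 10 * (dn s 6 * up s 6) * (dn s 6 * up s 6)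

theorem map_hh {G H : Type*} [Group G] [Group H] (f : G →* H) (s : ℕ → G) :
    f (hh s) = hh (fun i => f (s i)) := by
  simp only [hh, map_mul, map_up, map_dn]

theorem IsBraid.hh_commute {G : Type*} [Group G] {m : ℕ} {s : ℕ → G} (h : IsBraid m s)
    (hm : 11 ≤ m) {i : ℕ} (hi : i < 5) : Commute (hh s) (s i) := by
  have h1 : Commute (dn s 6 * up s 6) (s i) := by
    unfold Commute SemiconjBy
    rw [mul_assoc, h.up_conj (by omega) (by omega), ← mul_assoc, h.dn_conj (by omega) (by omega),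
      mul_assoc]
  exact ((h.commute (by omega) (by omega) (by omega)).mul_left h1).mul_left h1

/-- Sixteen points, before the first strand circles the others. -/
def pY : Fin 16 → List (ℕ × ℕ) :=
  ![[(2, 5), (1, 3), (3, 6), (2, 5), (1, 3), (4, 6), (3, 6), (5, 6), (2, 4), (1, 5), (4, 6), (5, 6)],
    [(3, 6), (4, 6), (1, 2), (2, 5), (4, 6), (1, 4), (3, 6), (2, 3), (4, 5), (1, 2), (3, 4), (2, 3)],
    [(3, 6), (4, 6), (2, 5), (1, 5), (4, 6), (1, 4), (3, 6), (2, 3), (4, 5), (1, 2), (3, 4), (2, 3)],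
    [(2, 5), (3, 6), (1, 4), (2, 5), (3, 6), (1, 6), (3, 6), (5, 6), (2, 4), (1, 5), (4, 6), (5, 6)],
    [(3, 6), (4, 6), (1, 5), (1, 2), (4, 6), (1, 4), (3, 6), (2, 3), (4, 5), (1, 2), (3, 4), (2, 3)],
    [(2, 5), (1, 3), (3, 6), (2, 5), (1, 3), (4, 6), (3, 6), (4, 6), (5, 6), (1, 4), (2, 5), (4, 6)],
    [(2, 5), (3, 6), (1, 4), (2, 5), (3, 6), (1, 6), (3, 6), (4, 6), (5, 6), (1, 4), (2, 5), (4, 6)],
    [(3, 6), (4, 6), (1, 2), (2, 5), (4, 6), (1, 4), (3, 6), (3, 4), (2, 3), (1, 4), (2, 5), (3, 4)],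
    [(2, 5), (1, 6), (1, 3), (2, 5), (1, 6), (3, 4), (2, 5), (2, 6), (1, 4), (1, 2), (4, 6), (2, 6)],
    [(2, 5), (1, 3), (4, 6), (2, 5), (1, 3), (3, 6), (2, 5), (2, 6), (1, 4), (1, 2), (4, 6), (2, 6)],
    [(3, 6), (4, 6), (2, 5), (1, 5), (4, 6), (1, 4), (3, 6), (3, 4), (2, 3), (1, 4), (2, 5), (3, 4)],
    [(2, 5), (1, 6), (1, 3), (2, 5), (1, 6), (3, 4), (2, 5), (2, 6), (1, 2), (2, 4), (4, 6), (2, 6)],
    [(2, 5), (1, 3), (4, 6), (2, 5), (1, 3), (3, 6), (2, 5), (2, 6), (1, 2), (2, 4), (4, 6), (2, 6)],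
    [(3, 6), (4, 6), (1, 5), (1, 2), (4, 6), (1, 4), (3, 6), (3, 4), (2, 3), (1, 4), (2, 5), (3, 4)],
    [(2, 5), (1, 6), (1, 3), (2, 5), (1, 6), (3, 4), (2, 5), (2, 6), (2, 4), (1, 4), (4, 6), (2, 6)],
    [(2, 5), (1, 3), (4, 6), (2, 5), (1, 3), (3, 6), (2, 5), (2, 6), (2, 4), (1, 4), (4, 6), (2, 6)]]

def c1 : Equiv.Perm (Fin 16) :=
  ⟨![0, 2, 4, 3, 1, 5, 6, 10, 8, 9, 13, 11, 12, 7, 14, 15],
    ![0, 4, 1, 3, 2, 5, 6, 13, 8, 9, 7, 11, 12, 10, 14, 15], by decide, by decide⟩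
def c2 : Equiv.Perm (Fin 16) :=
  ⟨![1, 3, 2, 0, 4, 7, 5, 6, 8, 9, 10, 11, 12, 13, 14, 15],
    ![3, 0, 2, 1, 4, 6, 7, 5, 8, 9, 10, 11, 12, 13, 14, 15], by decide, by decide⟩
def d1 : Equiv.Perm (Fin 16) :=
  ⟨![0, 1, 2, 3, 4, 5, 6, 7, 11, 12, 10, 14, 15, 13, 8, 9],
    ![0, 1, 2, 3, 4, 5, 6, 7, 14, 15, 10, 8, 9, 13, 11, 12], by decide, by decide⟩
def d2 : Equiv.Perm (Fin 16) :=
  ⟨![5, 1, 2, 6, 4, 8, 9, 7, 0, 3, 10, 11, 12, 13, 14, 15],
    ![8, 1, 2, 9, 4, 0, 3, 7, 5, 6, 10, 11, 12, 13, 14, 15], by decide, by decide⟩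
def al5 : Equiv.Perm (Fin 5) := ⟨![0, 2, 4, 3, 1], ![0, 4, 1, 3, 2], by decide, by decide⟩
def be5 : Equiv.Perm (Fin 5) := ⟨![1, 3, 2, 0, 4], ![3, 0, 2, 1, 4], by decide, by decide⟩
def ta5 : Equiv.Perm (Fin 5) := ⟨![0, 3, 2, 1, 4], ![0, 3, 2, 1, 4], by decide, by decide⟩

def wO : List (ℕ × Bool) :=
  ((List.range 6).reverse.map fun i => (i, true)) ++ (List.range 6).map fun i => (i, true)

def wH : List (ℕ × Bool) := [(10, true)] ++ wO ++ wO

def invW (w : List (ℕ × Bool)) : List (ℕ × Bool) := w.reverse.map fun p => (p.1, !p.2)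

def cw (w : List (ℕ × Bool)) : List (ℕ × Bool) := wH ++ w ++ invW wH

theorem certB : ∀ i : Fin 16, (pY i).length = 12 ∧
    actW (wA 0) (actW wZ (pY i)) = actW wZ (pY (c1 i)) ∧
    actW (wC 0) (actW wZ (pY i)) = actW wZ (pY (c2 i)) ∧
    actW (cw (wA 6)) (pY i) = pY (d1 i) ∧ actW (cw (wC 6)) (pY i) = pY (d2 i) := by
  decide +kernel

theorem certC : ∀ i : Fin 5, actW [(5, true), (5, true)] (actW wZ (pY (Fin.castLE (by decide) i)))
    = pL (Fin.castLE (by decide) i) := by
  decide +kernel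

section Words
variable {G : Type*} [Group G] {s : ℕ → G}

theorem evalW_append (w w' : List (ℕ × Bool)) : evalW s (w ++ w') = evalW s w * evalW s w' := by
  simp [evalW]

theorem evalW_invW (w : List (ℕ × Bool)) : evalW s (invW w) = (evalW s w)⁻¹ := by
  induction w with
  | nil => simp [evalW, invW]
  | cons p w ih =>
    have h1 : invW (p :: w) = invW w ++ [(p.1, !p.2)] := by simp [invW]
    rw [h1, evalW_append, ih]
    obtain ⟨a, _ | _⟩ := p <;> simp [evalW]

theorem hh_eq : hh s = evalW s wH := by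
  simp [hh, up, dn, evalW, wH, wO, List.range_succ, mul_assoc]

theorem evalW_cw (w : List (ℕ × Bool)) : evalW s (cw w) = hh s * evalW s w * (hh s)⁻¹ := by
  rw [cw, evalW_append, evalW_append, evalW_invW, hh_eq]

variable {X ι : Type*}

/-- The element acts on a family of points as the given permutation. -/
def Rl (φ : G →* Equiv.Perm X) (p : ι → X) (g : G) (π : Equiv.Perm ι) : Prop :=
  ∀ i, φ g (p i) = p (π i)

variable {φ : G →* Equiv.Perm X} {p : ι → X} {g g' : G} {π π' : Equiv.Perm ι}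

theorem Rl.mul (h : Rl φ p g π) (h' : Rl φ p g' π') : Rl φ p (g * g') (π * π') := fun i => by
  rw [map_mul, Equiv.Perm.mul_apply, h', h, Equiv.Perm.mul_apply]

theorem Rl.inv (h : Rl φ p g π) : Rl φ p g⁻¹ π⁻¹ := fun i => by
  rw [map_inv, Equiv.Perm.inv_eq_iff_eq, h]
  simp

theorem Rl.conj (h : Rl φ p g π) (h' : Rl φ p g' π') :
    Rl φ p (g * g' * g⁻¹) (π * π' * π⁻¹) := (h.mul h').mul h.inv

theorem Rl.comm (h : Rl φ p g π) (h' : Rl φ p g' π') : Rl φ p ⁅g, g'⁆ ⁅π, π'⁆ :=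
  (h.conj h').mul h'.inv

theorem Rl.restrict {κ : Type*} (h : Rl φ p g π) (e : κ → ι) {σ : Equiv.Perm κ}
    (he : ∀ i, π (e i) = e (σ i)) : Rl φ (fun i => p (e i)) g σ := fun i => by
  rw [h, he]

theorem Rl.move {p' : ι → X} {u : G} (h : Rl φ p g π) (hu : ∀ i, φ u (p i) = p' i) :
    Rl φ p' (u * g * u⁻¹) π := fun i => by
  rw [map_mul, map_mul, map_inv, Equiv.Perm.mul_apply, Equiv.Perm.mul_apply,
    Equiv.Perm.inv_eq_iff_eq.2 (hu i).symm, h, hu]

theorem rl_NS {α β : Equiv.Perm ι} (hA : Rl φ p (cA s) α) (hB : Rl φ p (cB s) β)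
    (e1 : β * β * α * ⁅α, β⁆ * (β * β * α)⁻¹ = α)
    (e2 : α * β * α * α * ⁅α, β⁆ * (α * β * α * α)⁻¹ = β) (k : ℕ) :
    ∃ g ∈ NS s k, Rl φ p g ⁅α, β⁆ := by
  have r1 := (hB.mul hB).mul hA
  have r2 := ((hA.mul hB).mul hA).mul hA
  induction k with
  | zero => exact ⟨_, Subgroup.subset_normalClosure rfl, hA.comm hB⟩
  | succ k ih =>
    obtain ⟨g, hg, hr⟩ := ih
    have s1 := r1.conj hr
    have s2 := r2.conj hr
    rw [e1] at s1
    rw [e2] at s2
    exact ⟨_, Subgroup.commutator_mem_commutator ((NS_normal s k).conj_mem g hg _)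
      ((NS_normal s k).conj_mem g hg _), s1.comm s2⟩

end Words

/-- A largeness property of normal subgroups of the braid group. -/
theorem exists_has (n : ℕ) (hn : 12 ≤ n) : ∃ Has : Subgroup (BraidGroup n) → Prop,
    (∀ M M', M ≤ M' → Has M → Has M') ∧
    (∀ M M' : Subgroup (BraidGroup n), M.Normal → M'.Normal → Has M → Has M' → Has ⁅M, M'⁆) ∧
    ¬ Has ⊥ ∧
    (∀ ιL ιR : BraidGroup 6 →* BraidGroup n, (∀ i < 5, ιL (gen 6 i) = gen n i) →
      (∀ i < 5, ιR (gen 6 i) = gen n (i + 6)) → ∀ (k : ℕ) (M : Subgroup (BraidGroup n)),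
      M.Normal → (∀ g ∈ NS (gen 6) k, ∀ g' ∈ NS (gen 6) k,
        ⁅ιR g, gen n 5 * gen n 5 * ιL g' * (gen n 5 * gen n 5)⁻¹⁆ ∈ M) → Has M) ∧
    (∀ M : Subgroup (BraidGroup n), M.Normal → (∀ g, ⁅zz (gen n) (n - 1), g⁆ ∈ M) → Has M) ∧
    (∀ ιL ιR : BraidGroup 6 →* BraidGroup n, (∀ i < 5, ιL (gen 6 i) = gen n i) →
      (∀ i < 5, ιR (gen 6 i) = gen n (i + 6)) → ∀ (k : ℕ) (M : Subgroup (BraidGroup n)),
      M.Normal → (∀ g₁ ∈ NS (gen 6) k, ∀ g₂ ∈ NS (gen 6) k, ∀ g₃ ∈ NS (gen 6) k,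
        ∀ g₄ ∈ NS (gen 6) k,
        ⁅⁅ιL g₁, zz (gen n) (n - 1) * hh (gen n) * ιR g₂ * (zz (gen n) (n - 1) * hh (gen n))⁻¹⁆,
          ⁅ιL g₃, zz (gen n) (n - 1) * hh (gen n) * ιR g₄ *
            (zz (gen n) (n - 1) * hh (gen n))⁻¹⁆⁆ ∈ M) → Has M) := by
  obtain ⟨φ, hφ⟩ := exists_hom n (hw_braid (F := Equiv.Perm ℕ) (n - 1))
  obtain ⟨n1, n2⟩ := has_nine n hn φ hφ
  have hm : 11 ≤ n - 1 := by omega
  let p9 : Fin 9 → ℕ → Equiv.Perm ℕ := fun i => enc (pL i)
  let p5 : Fin 5 → ℕ → Equiv.Perm ℕ := fun i => p9 (Fin.castLE (by decide) i)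
  have rB1 : Rl φ p9 (evalW (gen n) (tw (wA 0))) b1 := fun i => by
    rw [rel_evalW hm hφ (by decide) (cert i).1, (cert i).2.2.2.1]
  have rB2 : Rl φ p9 (evalW (gen n) (tw (wC 0))) b2 := fun i => by
    rw [rel_evalW hm hφ (by decide) (cert i).1, (cert i).2.2.2.2.1]
  have rA : Rl φ p5 (evalW (gen n) (tw (wA 0))) al5 := rB1.restrict _ (by decide +kernel)
  have rB : Rl φ p5 (evalW (gen n) (tw (wC 0))) be5 := rB2.restrict _ (by decide +kernel)
  have e1 : be5 * be5 * al5 * ⁅al5, be5⁆ * (be5 * be5 * al5)⁻¹ = al5 := by decide +kernel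
  have e2 : al5 * be5 * al5 * al5 * ⁅al5, be5⁆ * (al5 * be5 * al5 * al5)⁻¹ = be5 := by
    decide +kernel
  have nine : ∀ M : Subgroup (BraidGroup n), M.Normal → (∃ g ∈ M, Rel φ g ⁅a2, b2⁆) →
      ∃ g ∈ M, Rl φ p5 g ⁅al5, be5⁆ := by
    rintro M hM ⟨g, hg, hr⟩
    have hr' : Rl φ p9 g ⁅a2, b2⁆ := hr
    have s1 := (rB2.mul rB2).conj (hr'.comm (((rB2.mul rB2).mul rB1).mul rB2))
    refine ⟨_, hM.conj_mem _ ?_ _, s1.restrict _ (by decide +kernel)⟩
    rw [commutatorElement_def, mul_assoc, mul_assoc, ← mul_assoc _ g⁻¹]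
    exact mul_mem hg (hM.conj_mem _ (inv_mem hg) _)
  refine ⟨fun M => ∃ g ∈ M, Rl φ p5 g ⁅al5, be5⁆, ?_, ?_, ?_, ?_, ?_, ?_⟩
  · rintro M M' hM ⟨g, hg, hr⟩
    exact ⟨g, hM hg, hr⟩
  · rintro M M' hM hM' ⟨g, hg, hr⟩ ⟨g', hg', hr'⟩
    have s1 := ((rB.mul rB).mul rA).conj hr
    have s2 := (((rA.mul rB).mul rA).mul rA).conj hr'
    rw [e1] at s1
    rw [e2] at s2
    exact ⟨_, Subgroup.commutator_mem_commutator (hM.conj_mem g hg _) (hM'.conj_mem g' hg' _),
      s1.comm s2⟩
  · rintro ⟨g, hg, hr⟩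
    rw [Subgroup.mem_bot] at hg
    subst hg
    have h1 := congrArg (fun f : ℕ → Equiv.Perm ℕ => f 2 1) (hr 1)
    have e4 : ⁅al5, be5⁆ 1 = 2 := by decide +kernel
    rw [e4, φ.map_one] at h1
    exact absurd h1 (by decide +kernel)
  · exact fun ιL ιR hL hR k M hM h => nine M hM (n1 ιL ιR hL hR k M h)
  · exact fun M hM h => nine M hM (n2 M hM h)
  · intro ιL ιR hL hR k M hM h
    let pA : Fin 16 → ℕ → Equiv.Perm ℕ := fun i => enc (pY i)
    let pB : Fin 16 → ℕ → Equiv.Perm ℕ := fun i => enc (actW wZ (pY i))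
    have hl : ∀ i, (actW wZ (pY i)).length = 12 := fun i => by rw [length_actW, (certB i).1]
    have hz : ∀ i, φ (zz (gen n) (n - 1)) (pA i) = pB i := by
      intro i
      have h2 : φ (zz (gen n) (n - 1)) = zz hw (n - 1) := by
        rw [map_zz, zz, zz, up_congr hφ, dn_congr hφ]
      rw [h2, zz_hw_tail hm _ fun k hk => enc_tail _ (by rw [(certB i).1]; omega), zz_eq,
        enc_actW _ _ (by rw [(certB i).1]; decide)]
    have rC1 : Rl φ pB (evalW (gen n) (wA 0)) c1 := fun i => by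
      rw [rel_evalW hm hφ (by decide) (hl i), (certB i).2.1]
    have rC2 : Rl φ pB (evalW (gen n) (wC 0)) c2 := fun i => by
      rw [rel_evalW hm hφ (by decide) (hl i), (certB i).2.2.1]
    have rD1 : Rl φ pA (evalW (gen n) (cw (wA 6))) d1 := fun i => by
      rw [rel_evalW hm hφ (by decide) (certB i).1, (certB i).2.2.2.1]
    have rD2 : Rl φ pA (evalW (gen n) (cw (wC 6))) d2 := fun i => by
      rw [rel_evalW hm hφ (by decide) (certB i).1, (certB i).2.2.2.2]
    let ψ : BraidGroup 6 →* BraidGroup n :=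
      (MulAut.conj (zz (gen n) (n - 1) * hh (gen n))).toMonoidHom.comp ιR
    have hψ : ∀ g, ψ g = zz (gen n) (n - 1) * hh (gen n) * ιR g *
        (zz (gen n) (n - 1) * hh (gen n))⁻¹ := fun g => rfl
    have hψ' : ∀ g, ψ g = zz (gen n) (n - 1) * (hh (gen n) * ιR g * (hh (gen n))⁻¹) *
        (zz (gen n) (n - 1))⁻¹ := fun g => by rw [hψ]; group
    have rE1 : Rl φ pB (ψ (cA (gen 6))) d1 := by
      rw [evalW_cw, ← cA_eq 6 hR, ← map_cA] at rD1
      rw [hψ']
      exact rD1.move hz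
    have rE2 : Rl φ pB (ψ (cB (gen 6))) d2 := by
      rw [evalW_cw, ← cB_eq 6 hR, ← map_cB] at rD2
      rw [hψ']
      exact rD2.move hz
    obtain ⟨g, hg, hr⟩ := rl_NS (φ := φ.comp ιL) (p := pB) (s := gen 6) (α := c1) (β := c2)
      (by rw [← cA_eq 0 hL, ← map_cA] at rC1; exact rC1)
      (by rw [← cB_eq 0 hL, ← map_cB] at rC2; exact rC2) (by decide +kernel) (by decide +kernel) k
    obtain ⟨g', hg', hr'⟩ := rl_NS (φ := φ.comp ψ) (p := pB) (s := gen 6) (α := d1) (β := d2)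
      rE1 rE2 (by decide +kernel) (by decide +kernel) k
    have q1 : Rl φ pB (ιL g) ⁅c1, c2⁆ := hr
    have q2 : Rl φ pB (ψ g') ⁅d1, d2⁆ := hr'
    have q3 : Rl φ pB (ψ (cA (gen 6) * g' * (cA (gen 6))⁻¹)) (d1 * ⁅d1, d2⁆ * d1⁻¹) := by
      rw [map_mul, map_mul, map_inv]
      exact rE1.conj q2
    have q4 := ((q1.comm q2).comm (q1.comm q3)).restrict (Fin.castLE (by decide : 5 ≤ 16))
      (σ := ta5) (by decide +kernel)
    have q5 : Rl φ p5 _ ta5 := q4.move (u := evalW (gen n) [(5, true), (5, true)]) fun i => by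
      rw [rel_evalW hm hφ (by decide) (hl _), certC]
    have m1 := hM.conj_mem _ (h g hg g' hg' g hg _ ((NS_normal (gen 6) k).conj_mem g' hg'
      (cA (gen 6)))) (evalW (gen n) [(5, true), (5, true)])
    rw [← hψ, ← hψ] at m1
    have q6 := ((((rA.mul rB).mul rB).mul rA).mul rA).conj (q5.comm rB)
    have e5 : al5 * be5 * be5 * al5 * al5 * ⁅ta5, be5⁆ * (al5 * be5 * be5 * al5 * al5)⁻¹
        = ⁅al5, be5⁆ := by decide +kernel
    rw [e5] at q6
    refine ⟨_, hM.conj_mem _ ?_ _, q6⟩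
    generalize evalW (gen n) [(5, true), (5, true)] * _ * _ = x at m1 ⊢
    rw [commutatorElement_def, mul_assoc, mul_assoc, ← mul_assoc _ x⁻¹]
    exact mul_mem m1 (hM.conj_mem _ (inv_mem m1) _)

end Pool.Agent.MP_b64966_al

end

-- part MP_b64966_al.SWb
section

namespace Pool.Agent.MP_b64966_al

open Module
open scoped commutatorElement

variable {K V : Type*} [Field K] [AddCommGroup V] [Module K V] [FiniteDimensional K V]
  {m : ℕ} {t : ℕ → (End K V)ˣ}

theorem swb_core {s : ℕ → (End K V)ˣ} (h : IsBraid 5 s) {q : K} (F : Submodule K V)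
    (hq : ∀ y ∈ F, ff s q 0 y = 0) (hF : ∀ y ∈ F, ∀ j, 1 ≤ j → j < 5 → (s j : End K V) y = y) :
    ∃ U : Submodule K V, F ≤ U ∧ (∀ j < 5, s j ∈ stabS U) ∧
      ∀ a < 5, ∀ b < 5, Fa a b → ∀ y ∈ U, N s a (N s b y) = 0 := by
  let w : ℕ → End K V := fun i => ((dn s i : (End K V)ˣ) : End K V)
  have e0 : ∀ y ∈ F, ∀ j < 5, ff s q j (w j y) = 0 := by
    intro y hy j
    induction j with
    | zero => exact fun _ => hq y hy
    | succ j ih =>
      intro hj
      have h1 : s j * s (j + 1) * s j = s (j + 1) * (s j * s (j + 1)) := by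
        rw [h.braid j hj, mul_assoc]
      have h2 := LinearMap.congr_fun (conj_ff q h1) (w j y)
      rw [Module.End.mul_apply, ih (by omega), map_zero, Module.End.mul_apply, sf_mul_apply,
        ← units_commute_apply (h.dn_commute le_rfl hj), hF y hy _ (by omega) hj] at h2
      exact h2.symm
  have e1 : ∀ y ∈ F, ∀ i ≤ 5, ∀ j < 5, i + 1 ≤ j ∨ j + 2 ≤ i → N s j (w i y) = 0 := by
    intro y hy i hi j hj hij
    rw [N_apply, sub_eq_zero]
    rcases hij with hij | hij
    · rw [← units_commute_apply (h.dn_commute hij hj), hF y hy j (by omega) hj]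
    · rw [← Module.End.mul_apply, ← Units.val_mul, ← h.dn_conj hij hi, Units.val_mul,
        Module.End.mul_apply, hF y hy _ (by omega) (by omega)]
  have e2 : ∀ (y : V) (j : ℕ), N s j (w j y) = w (j + 1) y - w j y := fun y j => N_apply j _
  have e3 : ∀ y ∈ F, ∀ i ≤ 5, ∀ j < 5, ∃ c : K, N s j (w i y) = c • (w (j + 1) y - w j y) := by
    intro y hy i hi j hj
    by_cases h1 : i = j
    · exact ⟨1, by rw [h1, e2, one_smul]⟩
    by_cases h2 : i = j + 1
    · refine ⟨-q, ?_⟩
      have h3 := e0 y hy j hj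
      rw [ff_apply, add_eq_zero_iff_eq_neg, ← Module.End.mul_apply,
        (commute_tN_self j).eq, Module.End.mul_apply, e2, ← neg_smul] at h3
      rw [h2]
      exact h3
    · exact ⟨0, by rw [e1 y hy i hi j hj (by omega), zero_smul]⟩
  have mem : ∀ y ∈ F, ∀ i ≤ 5, w i y ∈ ⨆ i, ⨆ (_ : i ≤ 5), F.map (w i) := fun y hy i hi =>
    stwo_mem (fun i => F.map (w i)) (fun i => i ≤ 5) hi (Submodule.mem_map_of_mem hy)
  refine ⟨⨆ i, ⨆ (_ : i ≤ 5), F.map (w i), fun y hy => mem y hy 0 (by omega), fun j hj => ?_,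
    fun a ha b hb hab => ?_⟩
  · refine stwo_stab (fun i => F.map (w i)) (fun i => i ≤ 5) _ ?_
    rintro i hi _ ⟨y, hy, rfl⟩
    obtain ⟨c, hc⟩ := e3 y hy i hi j hj
    rw [N_apply, sub_eq_iff_eq_add] at hc
    rw [hc]
    exact add_mem (Submodule.smul_mem _ c (sub_mem (mem y hy _ (by omega)) (mem y hy _ hj.le)))
      (mem y hy i hi)
  · refine stwo_kill (fun i => F.map (w i)) (fun i => i ≤ 5) (N s a * N s b) ?_
    rintro i hi _ ⟨y, hy, rfl⟩
    obtain ⟨c, hc⟩ := e3 y hy i hi b hb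
    unfold Fa at hab
    rw [Module.End.mul_apply, hc, map_smul, map_sub, e1 y hy _ (by omega) a ha (by omega),
      e1 y hy _ hb.le a ha (by omega), sub_zero, smul_zero]

/-- The elements acting trivially on a subspace and on the quotient. -/
def uni (U : Submodule K V) : Subgroup (End K V)ˣ where
  carrier := {g | (∀ y ∈ U, (g : End K V) y = y) ∧ ∀ y, (g : End K V) y - y ∈ U}
  one_mem' := ⟨fun _ _ => rfl, fun y => by simp⟩
  mul_mem' := by
    rintro a b ⟨a1, a2⟩ ⟨b1, b2⟩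
    refine ⟨fun y hy => by rw [sf_mul_apply, b1 y hy, a1 y hy], fun y => ?_⟩
    have := U.add_mem (a2 ((b : End K V) y)) (b2 y)
    rwa [sub_add_sub_cancel, ← sf_mul_apply] at this
  inv_mem' := by
    rintro a ⟨a1, a2⟩
    refine ⟨fun y hy => ?_, fun y => ?_⟩
    · conv_lhs => rw [← a1 y hy]
      exact inv_apply_apply a y
    · have := U.neg_mem (a2 (((a⁻¹ : (End K V)ˣ) : End K V) y))
      rwa [apply_inv_apply, neg_sub] at this

omit [FiniteDimensional K V] in
theorem uni_commute {U : Submodule K V} {a b : (End K V)ˣ} (ha : a ∈ uni U) (hb : b ∈ uni U) :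
    Commute a b := by
  rw [← Commute.units_val_iff]
  refine LinearMap.ext fun x => ?_
  have e1 := ha.1 _ (hb.2 x)
  have e2 := hb.1 _ (ha.2 x)
  rw [map_sub] at e1 e2
  rw [Module.End.mul_apply, Module.End.mul_apply, sub_eq_iff_eq_add.1 e1, sub_eq_iff_eq_add.1 e2]
  abel

omit [FiniteDimensional K V] in
theorem comm_mem_uni {U : Submodule K V} {a b : (End K V)ˣ}
    (ha : ∀ y ∈ U, (a : End K V) y = y) (hb : ∀ y, (b : End K V) y - y ∈ U) : ⁅a, b⁆ ∈ uni U := by
  have ha' : ∀ y ∈ U, ((a⁻¹ : (End K V)ˣ) : End K V) y = y := fun y hy => by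
    conv_lhs => rw [← ha y hy]
    exact inv_apply_apply a y
  have hb' : ∀ y, ((b⁻¹ : (End K V)ˣ) : End K V) y - y ∈ U := fun y => by
    have := U.neg_mem (hb (((b⁻¹ : (End K V)ˣ) : End K V) y))
    rwa [apply_inv_apply, neg_sub] at this
  rw [commutatorElement_def]
  refine ⟨fun y hy => ?_, fun y => ?_⟩
  · have h1 : ((b⁻¹ : (End K V)ˣ) : End K V) y ∈ U := by simpa using U.add_mem (hb' y) hy
    rw [sf_mul_apply, sf_mul_apply, ha' _ h1, sf_mul_apply, apply_inv_apply, ha y hy]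
  · rw [sf_mul_apply, sf_mul_apply, sf_mul_apply]
    set z := ((b⁻¹ : (End K V)ˣ) : End K V) y with hz
    have h1 := ha _ (hb (((a⁻¹ : (End K V)ˣ) : End K V) z))
    rw [map_sub, apply_inv_apply, sub_eq_iff_eq_add] at h1
    rw [h1, add_sub_assoc]
    exact U.add_mem (hb _) (hb' y)

/-- Double commutators between deep terms of the series on the left block and on the right block
moved around the left one and then crossed by the first strand circling all others. -/
def ZBlock (m : ℕ) (t : ℕ → (End K V)ˣ) : Prop :=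
  ∀ φL φR : BraidGroup 6 →* (End K V)ˣ, (∀ i < 5, φL (gen 6 i) = t i) →
    (∀ i < 5, φR (gen 6 i) = t (i + 6)) → ∃ k, ∀ g₁ ∈ NS (gen 6) k, ∀ g₂ ∈ NS (gen 6) k,
      ∀ g₃ ∈ NS (gen 6) k, ∀ g₄ ∈ NS (gen 6) k,
      Commute ⁅φL g₁, zz t m * hh t * φR g₂ * (zz t m * hh t)⁻¹⁆
        ⁅φL g₃, zz t m * hh t * φR g₄ * (zz t m * hh t)⁻¹⁆

theorem IsBraid.zBlock [IsAlgClosed K] (h : IsBraid m t) (hm : 11 ≤ m) (hc : Cube m t) {q : K}
    (hz : ∀ y, (t 0 : End K V) y = y → ff t q 0 (((zz t m : (End K V)ˣ) : End K V) y) = 0) :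
    ZBlock m t := by
  intro φL φR hL hR
  obtain ⟨U, l1, l2, l3⟩ := swb_core (h.mono (m' := 5) (by omega)) (q := q)
    ((stwoFix t fun j => j < 5).map ((zz t m : (End K V)ˣ) : End K V))
    (by
      rintro _ ⟨y, hy, rfl⟩
      exact hz y (hy 0 (by omega)))
    (by
      rintro _ ⟨y, hy, rfl⟩ j h1 h2
      obtain ⟨j, rfl⟩ : ∃ j', j = j' + 1 := ⟨j - 1, by omega⟩
      rw [← units_commute_apply (h.zz_commute (by omega)), hy _ h2])
  obtain ⟨k1, hk1⟩ := stwo_sub h hc φR 6 (by omega) hR (fun j => j < 5)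
    fun j hj => ⟨by omega, fun i hi => Or.inl (by omega)⟩
  obtain ⟨k2, hk2⟩ := fix_of_deg_one φL (U := U) (fun j hj => hL j hj ▸ l2 j hj)
    (fun a b hab hb => by
      rw [stwo_N (s' := t) (hL a (by omega)),
        stwo_N (s := fun i => φL (gen 6 i)) (s' := t) (hL b hb)]
      exact l3 _ (by omega) _ hb (Or.inl hab))
  have key : ∀ g ∈ NS (gen 6) (max k1 k2), ∀ g' ∈ NS (gen 6) (max k1 k2),
      ⁅φL g, zz t m * hh t * φR g' * (zz t m * hh t)⁻¹⁆ ∈ uni U := by
    intro g hg g' hg'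
    refine comm_mem_uni (hk2 g (NS_anti _ (le_max_right _ _) hg)) fun y => l1 ?_
    have h1 := hk1 g' (NS_anti _ (le_max_left _ _) hg')
      ((((zz t m * hh t)⁻¹ : (End K V)ˣ) : End K V) y)
    refine ⟨((hh t : (End K V)ˣ) : End K V)
      ((φR g' : End K V) ((((zz t m * hh t)⁻¹ : (End K V)ˣ) : End K V) y)
        - (((zz t m * hh t)⁻¹ : (End K V)ˣ) : End K V) y), fun j (hj : j < 5) => ?_, ?_⟩
    · rw [← units_commute_apply (h.hh_commute hm hj), h1 j hj]
    · rw [← sf_mul_apply, map_sub, apply_inv_apply, sf_mul_apply _ (zz t m * hh t)⁻¹,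
        sf_mul_apply _ (φR g')]
  exact ⟨max k1 k2, fun g₁ h₁ g₂ h₂ g₃ h₃ g₄ h₄ => uni_commute (key _ h₁ _ h₂) (key _ h₃ _ h₄)⟩

theorem IsBraid.lkb [IsAlgClosed K] (h : IsBraid m t) (hm : 11 ≤ m) (hirr : Irr m t)
    (hc : Cube m t) {q : K} (hq : q ≠ 0)
    (hf : ∀ a < m, ∀ b < m, Fa a b → ff t q a * N t b = 0) (hNN : N t 0 * N t 2 ≠ 0)
    (hw : ∃ w : V, ∀ v, ∃ c : K, N t 0 (N t 2 v) = c • w) (hf0 : ff t q 0 ≠ 0) :
    (m + 1) * m ≤ 2 * finrank K V ∨ ZBlock m t ∨
      ∃ c : K, ((zz t m : (End K V)ˣ) : End K V) = c • 1 := by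
  obtain ⟨T, E, xs, L⟩ := h.exists_LK (by omega) hirr hq hf hNN hw hf0
  by_cases hind : ∀ (α : ℕ → K) (β : K),
      ∑ l ∈ Finset.range (m - 1), α l • LK.u E xs l + β • xs 0 = 0 → ∀ l, l + 1 < m → α l = 0
  · by_cases hT : T * q ^ (m + 1) = 1
    · exact Or.inr (Or.inl (h.zBlock hm hc fun y hy => L.case_sp hirr
        (fun j h2 hj => hf 0 (by omega) j hj (Or.inl h2)) hind hT hy))
    · exact Or.inl (L.case_gen hind hT)
  exact Or.inr (Or.inr (L.case_dep hirr hf hNN hw hf0 hind))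

end Pool.Agent.MP_b64966_al

end

-- part MP_b64966_al.SMain
section

namespace Pool.Agent.MP_b64966_al

open Module
open scoped commutatorElement

universe u

section Irr
variable {K V : Type*} [Field K] [IsAlgClosed K] [AddCommGroup V] [Module K V]
  [FiniteDimensional K V]

theorem IsBraid.cube_cases {m : ℕ} {t : ℕ → (End K V)ˣ} (h : IsBraid m t) (hm : 54 ≤ m)
    (hirr : Irr m t) (hc : Cube m t) (hd : 2 * finrank K V + 2 ≤ (m + 1) * m) :
    Commute (cA t) (cB t) ∨ TwoBlock t ∨ ZBlock m t ∨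
      ∃ c : K, ((zz t m : (End K V)ˣ) : End K V) = c • 1 := by
  by_cases hNN : N t 0 * N t 2 = 0
  · left
    have h1 : ∀ a b, a + 2 ≤ b → b < m → N t a * N t b = 0 := fun a b hab hb =>
      h.NN_eq_zero hNN (by omega) hb (Or.inl hab)
    by_cases hZ : Z t 0 = 0
    · exact h.burau (by omega) hirr h1 hZ
    · exact h.tym (by omega) hirr h1 hZ
  right
  by_cases hZ : Z t 0 * N t (m - 1) = 0
  · obtain ⟨q, hq, hf, hw⟩ := h.exists_line hm hc hZ hNN hd
    by_cases hf0 : ff t q 0 = 0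
    · exact Or.inl (h.twoBlock_of_hecke (by omega) hc hf0)
    · exact Or.inr ((h.lkb (by omega) hirr hc hq hf hNN hw hf0).resolve_left (by omega))
  · obtain ⟨S, h1, h2, h3⟩ := h.exists_supports hm hirr hc hZ
    exact Or.inl (twoBlock_of_supports (by omega) S h1 h2 h3)

theorem irr_cases {n : ℕ} (hn : 55 ≤ n) (ρ : BraidGroup n →* (End K V)ˣ)
    (hirr : Irr (n - 1) fun i => ρ (gen n i)) (hd : 2 * finrank K V + 2 ≤ n * (n - 1))
    (ιL ιR : BraidGroup 6 →* BraidGroup n) (hL : ∀ i < 5, ιL (gen 6 i) = gen n i)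
    (hR : ∀ i < 5, ιR (gen 6 i) = gen n (i + 6)) :
    (∃ k, ∀ g ∈ NS (gen 6) k, ∀ g' ∈ NS (gen 6) k,
      ⁅ιR g, gen n 5 * gen n 5 * ιL g' * (gen n 5 * gen n 5)⁻¹⁆ ∈ ρ.ker) ∨
    (∃ k, ∀ g₁ ∈ NS (gen 6) k, ∀ g₂ ∈ NS (gen 6) k, ∀ g₃ ∈ NS (gen 6) k, ∀ g₄ ∈ NS (gen 6) k,
      ⁅⁅ιL g₁, zz (gen n) (n - 1) * hh (gen n) * ιR g₂ * (zz (gen n) (n - 1) * hh (gen n))⁻¹⁆,
        ⁅ιL g₃, zz (gen n) (n - 1) * hh (gen n) * ιR g₄ *
          (zz (gen n) (n - 1) * hh (gen n))⁻¹⁆⁆ ∈ ρ.ker) ∨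
    ∀ g, ⁅zz (gen n) (n - 1), g⁆ ∈ ρ.ker := by
  have hker : ∀ (ρ : BraidGroup n →* (End K V)ˣ) (a b : BraidGroup n),
      ⁅a, b⁆ ∈ ρ.ker ↔ Commute (ρ a) (ρ b) := by
    intro ρ a b
    rw [MonoidHom.mem_ker, map_commutatorElement, commutatorElement_eq_one_iff_commute]
  have one : ∀ ρ : BraidGroup n →* (End K V)ˣ,
      Commute (cA fun i => ρ (gen n i)) (cB fun i => ρ (gen n i)) →
      ∀ g ∈ NS (gen 6) 0, ∀ g' ∈ NS (gen 6) 0,
        ⁅ιR g, gen n 5 * gen n 5 * ιL g' * (gen n 5 * gen n 5)⁻¹⁆ ∈ ρ.ker := by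
    intro ρ hc g _ g' hg'
    have hle : NS (gen 6) 0 ≤ (ρ.comp ιL).ker := by
      refine Subgroup.normalClosure_le_normal ?_
      rintro _ rfl
      rw [SetLike.mem_coe, MonoidHom.mem_ker, map_commutatorElement,
        commutatorElement_eq_one_iff_commute, map_cA, map_cB]
      simpa only [cA, cB, wB, MonoidHom.comp_apply, hL 0 (by omega), hL 1 (by omega),
        hL 2 (by omega), hL 3 (by omega), hL 4 (by omega)] using hc
    have h1 : ρ (ιL g') = 1 := hle hg'
    rw [hker, map_mul, map_mul _ _ (ιL g'), h1, mul_one, ← map_mul, mul_inv_cancel, map_one]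
    exact Commute.one_right _
  have ht : IsBraid (n - 1) fun i => ρ (gen n i) := (gen_braid n).map ρ
  have hd' : 2 * finrank K V + 2 ≤ (n - 1 + 1) * (n - 1) := by
    rwa [show n - 1 + 1 = n by omega]
  by_cases h2 : P (fun i => ρ (gen n i)) 2 = 0
  · exact Or.inl ⟨0, one ρ (ht.deg_one (by omega) hirr h2)⟩
  obtain ⟨μ, hμ, hμ0⟩ := ht.exists_mu (by omega) hd' h2
  have hcube := ht.cube_of_mu (by omega) hirr h2 hμ0
  let zc : Kˣ →* (End K V)ˣ := Units.map (algebraMap K (End K V)).toMonoidHom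
  have hzc : ∀ c g, Commute (zc c) g := by
    intro c g
    rw [← Commute.units_val_iff]
    exact Algebra.commutes (c : K) (g : End K V)
  obtain ⟨χ, hχ⟩ := exists_hom n (s := fun _ => (Units.mk0 μ hμ)⁻¹)
    ⟨fun _ _ => rfl, fun _ _ _ _ => rfl⟩
  let ρ' : BraidGroup n →* (End K V)ˣ :=
    { toFun := fun g => zc (χ g) * ρ g
      map_one' := by simp
      map_mul' := fun a b => by
        rw [map_mul, map_mul, map_mul, mul_assoc, mul_assoc, ← mul_assoc (zc (χ b)),
          (hzc (χ b) (ρ a)).eq, mul_assoc] }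
  have hρ' : ∀ g, ρ' g = zc (χ g) * ρ g := fun g => rfl
  have hval : ∀ i < n - 1, ((ρ' (gen n i) : (End K V)ˣ) : End K V)
      = μ⁻¹ • (ρ (gen n i) : End K V) := by
    intro i hi
    simp [hρ', hχ i hi, zc, Algebra.smul_def]
  have hN : ∀ i < n - 1, N (fun i => ρ' (gen n i)) i
      = μ⁻¹ • ((ρ (gen n i) : End K V) - μ • 1) := by
    intro i hi
    rw [N, hval i hi, smul_sub, smul_smul, inv_mul_cancel₀ hμ, one_smul]
  have hirr' : Irr (n - 1) fun i => ρ' (gen n i) := by
    intro W hW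
    refine hirr W fun i hi x hx => ?_
    have := W.smul_mem μ (hW i hi x hx)
    rwa [hval i hi, LinearMap.smul_apply, smul_smul, mul_inv_cancel₀ hμ, one_smul] at this
  have hc' : Cube (n - 1) fun i => ρ' (gen n i) := by
    intro a ha b hb c hc hab hac hbc
    rw [hN a ha, hN b hb, hN c hc, smul_mul_smul_comm, smul_mul_smul_comm,
      hcube a ha b hb c hc hab hac hbc, smul_zero]
  have hk : ∀ a b : BraidGroup n, ⁅a, b⁆ ∈ ρ'.ker → ⁅a, b⁆ ∈ ρ.ker := by
    intro a b hab
    rw [MonoidHom.mem_ker, hρ', map_commutatorElement χ,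
      commutatorElement_eq_one_iff_commute.2 (Commute.all _ _), map_one, one_mul] at hab
    exact hab
  rcases ((gen_braid n).map ρ').cube_cases (by omega) hirr' hc' hd' with h3 | h3 | h3 | ⟨c, h3⟩
  · exact Or.inl ⟨0, fun g hg g' hg' => hk _ _ (one ρ' h3 g hg g' hg')⟩
  · obtain ⟨k, h4⟩ := h3 (ρ'.comp ιL) (ρ'.comp ιR) (fun i hi => by simp [hL i hi])
      (fun i hi => by simp [hR i hi])
    refine Or.inl ⟨k, fun g hg g' hg' => hk _ _ ?_⟩
    rw [hker]
    simpa using h4 g hg g' hg'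
  · obtain ⟨k, h4⟩ := h3 (ρ'.comp ιL) (ρ'.comp ιR) (fun i hi => by simp [hL i hi])
      (fun i hi => by simp [hR i hi])
    refine Or.inr (Or.inl ⟨k, fun g₁ h₁ g₂ h₂ g₃ h₃ g₄ h₄ => hk _ _ ?_⟩)
    rw [hker]
    simpa only [map_commutatorElement, map_mul, map_inv, map_zz, map_hh, MonoidHom.comp_apply]
      using h4 g₁ h₁ g₂ h₂ g₃ h₃ g₄ h₄
  · refine Or.inr (Or.inr fun g => hk _ _ ?_)
    rw [hker, map_zz, ← Commute.units_val_iff, h3]
    exact (Commute.one_left _).smul_left c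

end Irr

theorem has_ker {n : ℕ} (hn : 55 ≤ n) {K : Type u} [Field K] [IsAlgClosed K]
    (Has : Subgroup (BraidGroup n) → Prop) (h1 : ∀ M M', M ≤ M' → Has M → Has M')
    (h2 : ∀ M M' : Subgroup (BraidGroup n), M.Normal → M'.Normal → Has M → Has M' → Has ⁅M, M'⁆)
    (h3 : ∀ ιL ιR : BraidGroup 6 →* BraidGroup n, (∀ i < 5, ιL (gen 6 i) = gen n i) →
      (∀ i < 5, ιR (gen 6 i) = gen n (i + 6)) → ∀ (k : ℕ) (M : Subgroup (BraidGroup n)),
      M.Normal → (∀ g ∈ NS (gen 6) k, ∀ g' ∈ NS (gen 6) k,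
        ⁅ιR g, gen n 5 * gen n 5 * ιL g' * (gen n 5 * gen n 5)⁻¹⁆ ∈ M) → Has M)
    (h4 : ∀ M : Subgroup (BraidGroup n), M.Normal → (∀ g, ⁅zz (gen n) (n - 1), g⁆ ∈ M) → Has M)
    (h5 : ∀ ιL ιR : BraidGroup 6 →* BraidGroup n, (∀ i < 5, ιL (gen 6 i) = gen n i) →
      (∀ i < 5, ιR (gen 6 i) = gen n (i + 6)) → ∀ (k : ℕ) (M : Subgroup (BraidGroup n)),
      M.Normal → (∀ g₁ ∈ NS (gen 6) k, ∀ g₂ ∈ NS (gen 6) k, ∀ g₃ ∈ NS (gen 6) k,
        ∀ g₄ ∈ NS (gen 6) k,
        ⁅⁅ιL g₁, zz (gen n) (n - 1) * hh (gen n) * ιR g₂ * (zz (gen n) (n - 1) * hh (gen n))⁻¹⁆,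
          ⁅ιL g₃, zz (gen n) (n - 1) * hh (gen n) * ιR g₄ *
            (zz (gen n) (n - 1) * hh (gen n))⁻¹⁆⁆ ∈ M) → Has M)
    (d : ℕ) : ∀ (V : Type u) [AddCommGroup V] [Module K V] [FiniteDimensional K V]
      (ρ : Representation K (BraidGroup n) V), finrank K V = d → 2 * d + 2 ≤ n * (n - 1) →
      Has (MonoidHom.toHomUnits ρ).ker := by
  induction d using Nat.strong_induction_on with
  | _ d ih =>
  intro V _ _ _ ρ hd hlt
  let ρ' : BraidGroup n →* (End K V)ˣ := MonoidHom.toHomUnits ρ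
  by_cases hirr : Irr (n - 1) (fun i => ρ' (gen n i))
  · obtain ⟨ιL, hL⟩ := exists_hom 6 ((gen_braid n).mono (m' := 6 - 1) (by omega))
    obtain ⟨ιR, hR⟩ := exists_hom 6 ((gen_braid n).shift (m' := 6 - 1) (d := 6) (by omega))
    rcases irr_cases hn ρ' hirr (by omega) ιL ιR hL hR with ⟨k, hk⟩ | ⟨k, hk⟩ | hk
    · exact h3 ιL ιR hL hR k _ inferInstance hk
    · exact h5 ιL ιR hL hR k _ inferInstance hk
    · exact h4 _ inferInstance hk
  · unfold Irr at hirr
    push Not at hirr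
    obtain ⟨W, hW, hW0, hW1⟩ := hirr
    have hinv : ∀ g, W ≤ W.comap (ρ g) := by
      intro g x hx
      have := gen_top n ((stabS W).comap ρ') hW
      have hg : g ∈ (stabS W).comap ρ' := this ▸ Subgroup.mem_top g
      exact hg x hx
    have hsum := Submodule.finrank_quotient_add_finrank W
    have hp0 : finrank K W ≠ 0 := fun h0 => hW0 (Submodule.finrank_eq_zero.1 h0)
    have hp1 : finrank K W < finrank K V := Submodule.finrank_lt hW1
    have hk1 := ih (finrank K W) (by omega) W (ρ.subrepresentation W hinv) rfl (by omega)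
    have hk2 := ih (finrank K (V ⧸ W)) (by omega) (V ⧸ W) (ρ.quotient W hinv) rfl (by omega)
    set M1 := (MonoidHom.toHomUnits (ρ.subrepresentation W hinv)).ker
    set M2 := (MonoidHom.toHomUnits (ρ.quotient W hinv)).ker
    have hk3 : Has (M1 ⊓ M2) :=
      h1 _ _ (Subgroup.commutator_le_inf _ _) (h2 _ _ inferInstance inferInstance hk1 hk2)
    have a1 : ∀ g ∈ M1 ⊓ M2, ∀ x ∈ W, ρ g x = x := by
      intro g hg x hx
      have := LinearMap.congr_fun (congrArg Units.val hg.1) ⟨x, hx⟩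
      exact congrArg Subtype.val this
    have a2 : ∀ g ∈ M1 ⊓ M2, ∀ x, ρ g x - x ∈ W := by
      intro g hg x
      have := LinearMap.congr_fun (congrArg Units.val hg.2) (W.mkQ x)
      exact (Submodule.Quotient.eq W).1 this
    refine h1 _ _ ?_ (h2 _ _ inferInstance inferInstance hk3 hk3)
    refine Subgroup.commutator_le.2 fun g1 h1 g2 h2 => ?_
    rw [MonoidHom.mem_ker, map_commutatorElement, commutatorElement_eq_one_iff_commute,
      ← Commute.units_val_iff]
    ext x
    change ρ g1 (ρ g2 x) = ρ g2 (ρ g1 x)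
    have e1 := a1 g1 h1 _ (a2 g2 h2 x)
    have e2 := a1 g2 h2 _ (a2 g1 h1 x)
    rw [map_sub] at e1 e2
    rw [sub_eq_iff_eq_add.1 e1, sub_eq_iff_eq_add.1 e2]
    abel

theorem sharp (n d : ℕ) (K : Type u) [Field K] (ρ : BraidGroup n →* GL (Fin d) K) (hn : 55 ≤ n)
    (hρ : Function.Injective ρ) : n.choose 2 ≤ d := by
  by_contra hlt
  let L := AlgebraicClosure K
  let ρ1 : BraidGroup n →* GL (Fin d) L :=
    (Matrix.GeneralLinearGroup.map (algebraMap K L)).comp ρ
  have h1 : Function.Injective ρ1 := by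
    refine Function.Injective.comp (g := Matrix.GeneralLinearGroup.map (algebraMap K L)) ?_ hρ
    intro x y hxy
    ext i j
    have := congrArg (fun g : GL (Fin d) L => g i j) hxy
    exact (algebraMap K L).injective this
  let ρ2 : Representation L (BraidGroup n) (Fin d → L) :=
    (Units.coeHom _).comp (Matrix.GeneralLinearGroup.toLin.toMonoidHom.comp ρ1)
  have h2 : Function.Injective ρ2 :=
    Units.val_injective.comp (Matrix.GeneralLinearGroup.toLin.injective.comp h1)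
  obtain ⟨Has, a1, a2, a3, a4, a5, a6⟩ := exists_has n (by omega)
  have h3 : 2 * n.choose 2 = n * (n - 1) := by
    rw [Nat.choose_two_right, Nat.two_mul_div_two_of_even (Nat.even_mul_pred_self n)]
  refine a3 (a1 _ _ ?_ (has_ker hn Has a1 a2 a4 a5 a6 d (Fin d → L) ρ2 (by simp) (by omega)))
  intro g hg
  rw [Subgroup.mem_bot]
  exact h2 ((congrArg Units.val hg).trans (map_one ρ2).symm)

end Pool.Agent.MP_b64966_al

end
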